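import Pool.Agent.H951.FH.Stm

/-!
# Project FH: a hairbrush meets many cells
-/

set_option autoImplicit false

open scoped Classical

namespace Pool.Agent.H703.FH

open Pool.Agent.H951.FH

/-- The part of a line near a given height is small. -/
theorem near_le {Λ : Type} {n : ℕ} {F τ : ℝ} {E E3 : Finset (Λ × ℕ)} (hS : Shd n F τ E)
    (hsub : E3 ⊆ E) {r : ℕ} (hr : 1 ≤ r) (w : Λ) (j : ℕ) :
    ((E3.filter fun z => z.1 = w ∧ |(z.2 : ℝ) - j| < r).card : ℝ) ≤ F * (2 * r : ℝ) ^ τ := by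
  have h := hS.fro w (j + 1 - r) (2 * r) (by omega)
  have hc : (E3.filter fun z => z.1 = w ∧ |(z.2 : ℝ) - j| < r).card ≤
      (E.filter fun z => z.1 = w ∧ (j + 1 - r) ≤ z.2 ∧ z.2 < (j + 1 - r) + 2 * r).card := by
    apply Finset.card_le_card
    intro z hz
    rw [Finset.mem_filter] at hz ⊢
    obtain ⟨hz1, hz2, hz3⟩ := hz
    rw [abs_lt] at hz3
    obtain ⟨h1, h2⟩ := hz3
    have h1' : (j : ℝ) < (z.2 : ℝ) + r := by linarith
    have h2' : (z.2 : ℝ) < (j : ℝ) + r := by linarith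
    have h1'' : j < z.2 + r := by exact_mod_cast h1'
    have h2'' : z.2 < j + r := by exact_mod_cast h2'
    refine ⟨hsub hz1, hz2, by omega, by omega⟩
  have hc' : ((E3.filter fun z => z.1 = w ∧ |(z.2 : ℝ) - j| < r).card : ℝ) ≤
      ((E.filter fun z => z.1 = w ∧ (j + 1 - r) ≤ z.2 ∧ z.2 < (j + 1 - r) + 2 * r).card : ℝ) := by
    exact_mod_cast hc
  refine hc'.trans (h.trans (le_of_eq ?_))
  push_cast
  rfl

theorem image_card_le {α γ : Type} (i1 i2 : DecidableEq γ) (f g : α → γ) (s t : Finset α)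
    (h : s ⊆ t) (hfg : f = g) :
    (@Finset.image _ _ i1 f s).card ≤ (@Finset.image _ _ i2 g t).card := by
  have hi : i1 = i2 := Subsingleton.elim _ _
  subst hi
  subst hfg
  exact Finset.card_le_card (Finset.image_subset_image h)

theorem filter_card_eq {α : Type} (p : α → Prop) (i1 i2 : DecidablePred p) (s : Finset α) :
    (@Finset.filter _ p i1 s).card = (@Finset.filter _ p i2 s).card := by
  have hi : i1 = i2 := Subsingleton.elim _ _
  subst hi
  rfl

/-- The numerical conditions for the use of the bound near a plane. -/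
theorem num_theta {n k a : ℕ} (hak : a < k) (hk2 : 2 ^ k ≤ 2 * n) :
    1 ≤ (1 / 2 : ℝ) ^ a * n := by
  have h1 : 2 ^ (a + 1) ≤ 2 ^ k := Nat.pow_le_pow_right (by norm_num) hak
  have h2 : 2 ^ a ≤ n := by
    have : 2 ^ (a + 1) = 2 * 2 ^ a := by ring
    omega
  have h3 : ((2 : ℝ) ^ a) ≤ n := by exact_mod_cast h2
  have h4 : (0 : ℝ) < 2 ^ a := by positivity
  rw [one_div, inv_pow, inv_mul_eq_div, one_le_div h4]
  exact h3

theorem num_log {n k : ℕ} (hn : 1 ≤ n) (hk1 : n ≤ 2 ^ k) :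
    1 + Real.log (2 * n) ≤ 2 * ((k : ℝ) + 1) := by
  have h1 : (0 : ℝ) < 2 * (n : ℝ) := by
    have : (0 : ℝ) < n := by exact_mod_cast hn
    linarith
  have h2 : (2 * (n : ℝ)) ≤ (2 : ℝ) ^ (k + 1) := by
    have : (n : ℝ) ≤ 2 ^ k := by exact_mod_cast hk1
    rw [pow_succ]
    linarith
  have h3 : Real.log (2 * n) ≤ Real.log ((2 : ℝ) ^ (k + 1)) := Real.log_le_log h1 h2
  rw [Real.log_pow] at h3
  have h4 : Real.log 2 ≤ 1 := by
    have := Real.log_two_lt_d9
    linarith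
  have h5 : ((k + 1 : ℕ) : ℝ) * Real.log 2 ≤ ((k + 1 : ℕ) : ℝ) * 1 :=
    mul_le_mul_of_nonneg_left h4 (by positivity)
  push_cast at h3 h5
  have h6 : (0 : ℝ) ≤ k := by positivity
  linarith

theorem t_BIG : S_CS → S_PLANE → S_XB → S_BIG := by
  intro hCS hPL hXB Λ _ d n k a r F τ A D E E3 hD w0
  have hN : (0 : ℝ) < Fintype.card Λ := by
    have : 0 < Fintype.card Λ := Fintype.card_pos_iff.mpr ⟨w0⟩
    exact_mod_cast this
  have hk : (0 : ℝ) < (k : ℝ) + 1 := by positivity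
  have hn0 : (0 : ℝ) ≤ n := by positivity
  have hF0 : (0 : ℝ) ≤ F := le_trans zero_le_one hD.F1
  have hθ : (0 : ℝ) < (1 / 2 : ℝ) ^ a := by positivity
  have hθ1 : (1 / 2 : ℝ) ^ a ≤ 1 := pow_le_one₀ (by norm_num) (by norm_num)
  -- names
  obtain ⟨H, hH⟩ : ∃ H, H = HB k a A D E3 w0 := ⟨_, rfl⟩
  obtain ⟨s0, hs0⟩ : ∃ s0 : ℝ, s0 = (E3.card : ℝ) / (8 * ((k : ℝ) + 1) * Fintype.card Λ) :=
    ⟨_, rfl⟩
  obtain ⟨X, hX⟩ : ∃ X : ℝ, X = 28 * ((k : ℝ) + 1) * (16 * n / r) ^ d * F * n *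
    ((1 / 2 : ℝ) ^ a) ^ (1 - τ) := ⟨_, rfl⟩
  have hs00 : 0 ≤ s0 := by rw [hs0]; positivity
  have hX0 : 0 ≤ X := by
    rw [hX]
    have : (0 : ℝ) ≤ ((1 / 2 : ℝ) ^ a) ^ (1 - τ) := Real.rpow_nonneg hθ.le _
    positivity
  rw [← hH, ← hs0, ← hX]
  -- the choice of the heights
  have hex : ∀ w, ∃ j, w ∈ H → ((w0, j) ∈ E3 ∧ (w, j) ∈ E3 ∧ cel A D j w = cel A D j w0) := by
    intro w
    by_cases hw : w ∈ H
    · have hw' := hw
      rw [hH, HB, Finset.mem_filter] at hw'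
      obtain ⟨j, hj⟩ := hw'.2.2.2
      exact ⟨j, fun _ => hj⟩
    · exact ⟨0, fun h => absurd h hw⟩
  choose jj hjj using hex
  have hGd : ∀ w ∈ H, s0 ≤ ((E3.filter fun z => z.1 = w).card : ℝ) := by
    intro w hw
    rw [hH, HB, Finset.mem_filter] at hw
    have := hw.2.1
    rw [Gd] at this
    rw [hs0]
    exact this
  have hCl : ∀ w ∈ H, dist (D w0) (D w) ≤ (1 / 2 : ℝ) ^ a := by
    intro w hw
    rw [hH, HB, Finset.mem_filter] at hw
    have := hw.2.2.1
    rw [Cl, if_neg (by have := hD.ak; omega)] at this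
    exact this.2
  obtain ⟨I, hI⟩ : ∃ I, I = E3.filter fun z => z.1 ∈ H ∧ (r : ℝ) ≤ |(z.2 : ℝ) - jj z.1| :=
    ⟨_, rfl⟩
  obtain ⟨β, hβ⟩ : ∃ β : Λ × ℕ → ℕ × (Fin d → ℤ), β = fun z => (z.2, cel A D z.2 z.1) :=
    ⟨_, rfl⟩
  have hmI : ∀ z, z ∈ I ↔ z ∈ E3 ∧ z.1 ∈ H ∧ (r : ℝ) ≤ |(z.2 : ℝ) - jj z.1| := by
    intro z
    rw [hI, Finset.mem_filter]
  -- the size of I
  have hfib : ∀ w ∈ H, s0 / 2 ≤ ((I.filter fun z => z.1 = w).card : ℝ) := by
    intro w hw
    have h1 := hGd w hw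
    have h2 := near_le hD.shd hD.sub hD.r1 w (jj w)
    have h3 := hD.far
    have h4 : (E3.card : ℝ) / (16 * ((k : ℝ) + 1) * Fintype.card Λ) = s0 / 2 := by
      rw [hs0]
      field_simp
      ring
    have h5 : (E3.filter fun z => z.1 = w).card ≤ (I.filter fun z => z.1 = w).card +
        (E3.filter fun z => z.1 = w ∧ |(z.2 : ℝ) - jj w| < r).card := by
      refine le_trans (Finset.card_le_card ?_) (Finset.card_union_le _ _)
      intro z hz
      rw [Finset.mem_filter] at hz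
      rw [Finset.mem_union, Finset.mem_filter, Finset.mem_filter, hmI]
      obtain ⟨hz1, hz2⟩ := hz
      rcases lt_or_ge (|(z.2 : ℝ) - jj w|) r with h | h
      · exact Or.inr ⟨hz1, hz2, h⟩
      · refine Or.inl ⟨⟨hz1, ?_, ?_⟩, hz2⟩
        · rw [hz2]; exact hw
        · rw [hz2]; exact h
    have h6 : ((E3.filter fun z => z.1 = w).card : ℝ) ≤ ((I.filter fun z => z.1 = w).card : ℝ) +
        ((E3.filter fun z => z.1 = w ∧ |(z.2 : ℝ) - jj w| < r).card : ℝ) := by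
      exact_mod_cast h5
    rw [h4] at h3
    linarith
  have hIcard : (H.card : ℝ) * (s0 / 2) ≤ (I.card : ℝ) := by
    have h1 : I.card = ∑ w ∈ H, (I.filter fun z => z.1 = w).card := by
      apply Finset.card_eq_sum_card_fiberwise
      intro z hz
      exact ((hmI z).1 hz).2.1
    rw [h1, Nat.cast_sum, ← nsmul_eq_mul, ← Finset.sum_const]
    exact Finset.sum_le_sum hfib
  -- pairs
  have hpairs : (((I ×ˢ I).filter fun p => β p.1 = β p.2).card : ℝ) ≤ H.card * X := by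
    have h1 : ((I ×ˢ I).filter fun p => β p.1 = β p.2).card =
        ∑ w ∈ H, (((I ×ˢ I).filter fun p => β p.1 = β p.2).filter fun p => p.1.1 = w).card := by
      apply Finset.card_eq_sum_card_fiberwise
      intro p hp
      have hp' := Finset.mem_coe.1 hp
      rw [Finset.mem_filter, Finset.mem_product] at hp'
      exact ((hmI p.1).1 hp'.1.1).2.1
    rw [h1, Nat.cast_sum, ← nsmul_eq_mul, ← Finset.sum_const]
    apply Finset.sum_le_sum
    intro w hw
    have hx := hXB Λ d n A D F τ ((1 / 2 : ℝ) ^ a) (2 * ((k : ℝ) + 1)) E hD.fam hD.t0 hD.t1 hD.F1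
      hD.shd hθ hθ1 (num_theta hD.ak hD.k2) (num_log hD.fam.pos hD.k1) w0 w r hD.r1 hD.rn
    have hle : (((I ×ˢ I).filter fun p => β p.1 = β p.2).filter fun p => p.1.1 = w).card ≤
        (E.filter fun z => (w, z.2) ∈ E ∧ Pl D r w0 w z.1 ∧ cel A D z.2 w = cel A D z.2 z.1 ∧
          dist (D w) (D z.1) ≤ 2 * (1 / 2 : ℝ) ^ a).card := by
      apply Finset.card_le_card_of_injOn (fun p => p.2)
      · intro p hp
        have hp' := Finset.mem_coe.1 hp
        rw [Finset.mem_filter, Finset.mem_filter, Finset.mem_product] at hp'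
        obtain ⟨⟨⟨hp1, hp2⟩, hp3⟩, hp4⟩ := hp'
        obtain ⟨⟨v, i⟩, ⟨v', i'⟩⟩ := p
        rw [hβ] at hp3
        simp only [Prod.mk.injEq] at hp3
        obtain ⟨h31, h32⟩ := hp3
        simp only at hp4
        subst h31
        subst hp4
        rw [hmI] at hp1 hp2
        simp only at hp1 hp2
        have hj1 := hjj v hp1.2.1
        have hj2 := hjj v' hp2.2.1
        rw [Finset.mem_coe, Finset.mem_filter]
        refine ⟨hD.sub hp2.1, hD.sub hp1.1, ?_, h32, ?_⟩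
        · exact hPL Λ d A D w0 v v' i (jj v) (jj v') r hD.r1 hp2.2.2 hj1.2.2 hj2.2.2 h32
        · have hd1 := hCl v hp1.2.1
          have hd2 := hCl v' hp2.2.1
          have hd3 := dist_triangle (D v) (D w0) (D v')
          rw [dist_comm (D v) (D w0)] at hd3
          simp only
          linarith
      · intro p hp q hq hpq
        have hp' := Finset.mem_coe.1 hp
        have hq' := Finset.mem_coe.1 hq
        rw [Finset.mem_filter, Finset.mem_filter, Finset.mem_product] at hp' hq'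
        obtain ⟨⟨⟨-, -⟩, hp3⟩, hp4⟩ := hp'
        obtain ⟨⟨⟨-, -⟩, hq3⟩, hq4⟩ := hq'
        obtain ⟨⟨v, i⟩, ⟨v', i'⟩⟩ := p
        obtain ⟨⟨u, l⟩, ⟨u', l'⟩⟩ := q
        rw [hβ] at hp3 hq3
        simp only [Prod.mk.injEq] at hp3 hq3 hp4 hq4 hpq
        obtain ⟨h1, h2⟩ := hpq
        have h3 : v = u := hp4.trans hq4.symm
        have h4 : i = l := by rw [hp3.1, h2, ← hq3.1]
        rw [h1, h2, h3, h4]
    have hle' : ((((I ×ˢ I).filter fun p => β p.1 = β p.2).filter fun p => p.1.1 = w).card : ℝ) ≤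
        ((E.filter fun z => (w, z.2) ∈ E ∧ Pl D r w0 w z.1 ∧ cel A D z.2 w = cel A D z.2 z.1 ∧
          dist (D w) (D z.1) ≤ 2 * (1 / 2 : ℝ) ^ a).card : ℝ) := by
      exact_mod_cast hle
    refine hle'.trans (hx.trans (le_of_eq ?_))
    rw [hX]
    ring
  have hcs := hCS (Λ × ℕ) (ℕ × (Fin d → ℤ)) I β
  obtain ⟨M, hM⟩ : ∃ M : ℝ, M = (((E3.filter fun z => z.1 ∈ H).image
        fun z => (z.2, cel A D z.2 z.1)).card : ℝ) := ⟨_, rfl⟩
  rw [← hM]
  have hsubI : I ⊆ E3.filter fun z => z.1 ∈ H := by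
    intro z hz
    rw [Finset.mem_filter]
    exact ⟨((hmI z).1 hz).1, ((hmI z).1 hz).2.1⟩
  have himg' : ∀ inst : DecidableEq (ℕ × (Fin d → ℤ)),
      ((@Finset.image _ _ inst β I).card : ℝ) ≤ M := by
    intro inst
    rw [hM, Nat.cast_le]
    exact image_card_le _ _ _ _ _ _ hsubI hβ
  have hpairs' : ∀ inst : DecidablePred (fun p : (Λ × ℕ) × (Λ × ℕ) => β p.1 = β p.2),
      ((@Finset.filter _ (fun p : (Λ × ℕ) × (Λ × ℕ) => β p.1 = β p.2) inst (I ×ˢ I)).card : ℝ) ≤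
        H.card * X := by
    intro inst
    refine le_trans ?_ hpairs
    rw [Nat.cast_le]
    exact (filter_card_eq _ _ _ _).le
  have hM0 : 0 ≤ M := by rw [hM]; positivity
  rcases Nat.eq_zero_or_pos H.card with h0 | hpos
  · rw [h0]
    have : 0 ≤ 4 * X * M := by positivity
    simpa using this
  · have hHpos : (0 : ℝ) < H.card := by exact_mod_cast hpos
    have hsq : ((H.card : ℝ) * (s0 / 2)) ^ 2 ≤ (I.card : ℝ) ^ 2 :=
      pow_le_pow_left₀ (by positivity) hIcard 2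
    have hfin : ((H.card : ℝ) * (s0 / 2)) ^ 2 ≤ M * (H.card * X) := by
      refine hsq.trans (hcs.trans ?_)
      exact mul_le_mul (himg' _) (hpairs' _) (by positivity) hM0
    have hfin2 : (H.card : ℝ) * ((H.card : ℝ) * s0 ^ 2) ≤ (H.card : ℝ) * (4 * X * M) := by
      nlinarith [hfin]
    exact le_of_mul_le_mul_left hfin2 hHpos

end Pool.Agent.H703.FH
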