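import Pool.Agent.H951.FH.Stm

/-!
# CS: the Cauchy-Schwarz inequality for the fibres of a map
-/

set_option autoImplicit false

namespace Pool.Agent.H695.FH

open Pool.Agent.H951.FH

theorem card_pairs {ζ B : Type} (_ : DecidableEq ζ) (hb : DecidableEq B) (I : Finset ζ)
    (β : ζ → B) : ((I ×ˢ I).filter fun p => β p.1 = β p.2).card =
      ∑ b ∈ I.image β, (I.filter fun z => β z = b).card ^ 2 := by
  have hmaps : ∀ p ∈ (I ×ˢ I).filter (fun p => β p.1 = β p.2), β p.1 ∈ I.image β := by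
    intro p hp
    rw [Finset.mem_filter, Finset.mem_product] at hp
    exact Finset.mem_image_of_mem β hp.1.1
  rw [Finset.card_eq_sum_card_fiberwise (f := fun p : ζ × ζ => β p.1) (t := I.image β) hmaps]
  refine Finset.sum_congr rfl fun b _ => ?_
  have h : ((I ×ˢ I).filter (fun p => β p.1 = β p.2)).filter (fun p => β p.1 = b) =
      (I.filter fun z => β z = b) ×ˢ (I.filter fun z => β z = b) := by
    ext p
    simp only [Finset.mem_filter, Finset.mem_product]
    constructor
    · rintro ⟨⟨⟨h1, h2⟩, h3⟩, h4⟩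
      exact ⟨⟨h1, h4⟩, ⟨h2, h3.symm.trans h4⟩⟩
    · rintro ⟨⟨h1, h4⟩, ⟨h2, h3⟩⟩
      exact ⟨⟨⟨h1, h2⟩, h4.trans h3.symm⟩, h4⟩
  rw [h, Finset.card_product, pow_two]

/-- CS -/
theorem t_CS : S_CS := by
  classical
  intro ζ B I β
  have h1 : I.card = ∑ b ∈ I.image β, (I.filter fun z => β z = b).card :=
    Finset.card_eq_sum_card_fiberwise fun z hz => Finset.mem_image_of_mem β hz
  have h2 := card_pairs inferInstance inferInstance I β
  have h3 : (∑ b ∈ I.image β, ((I.filter fun z => β z = b).card : ℝ)) ^ 2 ≤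
      (I.image β).card * ∑ b ∈ I.image β, ((I.filter fun z => β z = b).card : ℝ) ^ 2 :=
    sq_sum_le_card_mul_sum_sq
  have h4 : (I.card : ℝ) = ∑ b ∈ I.image β, ((I.filter fun z => β z = b).card : ℝ) := by
    rw [← Nat.cast_sum, ← h1]
  have h5 : ((((I ×ˢ I).filter fun p => β p.1 = β p.2).card : ℕ) : ℝ) =
      ∑ b ∈ I.image β, ((I.filter fun z => β z = b).card : ℝ) ^ 2 := by
    rw [h2]
    push_cast
    rfl
  rw [← h4, ← h5] at h3
  exact_mod_cast h3

end Pool.Agent.H695.FH
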