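import Pool.Agent.H951.FH.Stm

/-!
# Project FH of helper951: assembly of the discrete inequality (helper981)
-/

set_option autoImplicit false

open scoped Classical
open Pool.Agent.H951.FH

namespace Pool.Agent.H981.FH

theorem str_inst (h : S_STR) {ζ B : Type} [dB : DecidableEq B] (E : Finset ζ) (β : ζ → B)
    (Δ : ζ → ζ → ℝ) (k : ℕ) (h1 : ∀ z z', Δ z z' = Δ z' z)
    (h2 : ∀ z z', 0 ≤ Δ z z' ∧ Δ z z' ≤ 1) (h3 : E.Nonempty) :
    ∃ a ≤ k, ∃ E3 ⊆ E, (E.card : ℝ) / (4 * ((k : ℝ) + 1) ^ 2) ≤ E3.card ∧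
    ∀ z ∈ E3, (E.card : ℝ) / (2 * (E.image β).card) ≤ ((E.filter fun z' => β z' = β z).card : ℝ) ∧
      ((E.filter fun z' => β z' = β z).card : ℝ) / (4 * ((k : ℝ) + 1)) ≤
        ((E3.filter fun z' => β z' = β z ∧ Cl k a (Δ z z')).card : ℝ) := by
  have hdB : dB = fun a b => Classical.propDecidable (a = b) := Subsingleton.elim _ _
  subst hdB
  exact h ζ B E β Δ k h1 h2 h3

theorem alg1 (d : ℕ) (e K S L F n r : ℝ) (hd : 1 ≤ d) (he : 0 ≤ e) (hK : 1 ≤ K) (hS : 0 ≤ S)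
    (hL : 0 ≤ L) (hF : 1 ≤ F) (hn : 1 ≤ n) (hr : 0 ≤ r) (hrn : r ≤ n)
    (h1 : e ≤ 8 * K * 4 ^ d * S) (h2 : e ≤ L * F * n) :
    e ^ 4 * r ^ d ≤ 200000000 * 96 ^ d * K ^ 11 * F ^ 2 * n ^ (1 + 2 * d) * L ^ 2 * S ^ 2 := by
  have a1 : ((4 : ℝ) ^ d) ^ 2 ≤ 96 ^ d := by
    rw [← pow_mul, mul_comm, pow_mul]
    exact pow_le_pow_left₀ (by norm_num) (by norm_num) d
  have a2 : K ^ 2 ≤ K ^ 11 := pow_le_pow_right₀ hK (by norm_num)
  have a3 : n ^ 2 * n ^ d ≤ n ^ (1 + 2 * d) := by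
    rw [← pow_add]
    exact pow_le_pow_right₀ hn (by omega)
  have hF0 : 0 ≤ F := by linarith
  have hK0 : 0 ≤ K := by linarith
  have hn0 : 0 ≤ n := by linarith
  calc e ^ 4 * r ^ d = (e ^ 2) * (e ^ 2) * r ^ d := by ring
    _ ≤ (8 * K * 4 ^ d * S) ^ 2 * (L * F * n) ^ 2 * n ^ d := by gcongr
    _ = 64 * (4 ^ d) ^ 2 * K ^ 2 * F ^ 2 * (n ^ 2 * n ^ d) * L ^ 2 * S ^ 2 := by ring
    _ ≤ 200000000 * 96 ^ d * K ^ 11 * F ^ 2 * n ^ (1 + 2 * d) * L ^ 2 * S ^ 2 := by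
        gcongr
        norm_num

theorem alg2 (d : ℕ) (e e3 K S L F n r T u θ H : ℝ) (he : 0 < e) (hK : 1 ≤ K) (hS : 0 < S)
    (hL : 0 < L) (hF : 1 ≤ F) (hn : 1 ≤ n) (hr : 1 ≤ r) (hT : 0 < T) (hu : 0 < u) (hθ : 0 < θ)
    (hTu : T * u * θ ^ d ≤ 1) (h3 : e / (4 * K ^ 2) ≤ e3)
    (h1 : e / (2 * S) * e3 / (8 * K) ≤ 6 * F * T * H)
    (h2 : H * (e3 / (8 * K * L)) ^ 2 ≤
      4 * (28 * K * (16 * n / r) ^ d * F * n * u) * (S * (4 * K * (6 * θ * n) ^ d))) :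
    e ^ 4 * r ^ d ≤ 200000000 * 96 ^ d * K ^ 11 * F ^ 2 * n ^ (1 + 2 * d) * L ^ 2 * S ^ 2 := by
  have hK0 : 0 < K := by linarith
  have hF0 : 0 < F := by linarith
  have hn0 : 0 < n := by linarith
  have hr0 : 0 < r := by linarith
  have he3 : 0 < e3 := lt_of_lt_of_le (by positivity) h3
  have b1 : e ≤ 4 * K ^ 2 * e3 := by
    rw [div_le_iff₀ (by positivity)] at h3
    linarith
  have b2 : e ^ 3 ≤ 64 * K ^ 6 * e3 ^ 3 := by
    calc e ^ 3 ≤ (4 * K ^ 2 * e3) ^ 3 := by gcongr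
      _ = 64 * K ^ 6 * e3 ^ 3 := by ring
  -- the product of the inequalities
  have c1 : e / (2 * S) * e3 / (8 * K) * (e3 / (8 * K * L)) ^ 2 ≤
      6 * F * T * (4 * (28 * K * (16 * n / r) ^ d * F * n * u) *
        (S * (4 * K * (6 * θ * n) ^ d))) := by
    calc e / (2 * S) * e3 / (8 * K) * (e3 / (8 * K * L)) ^ 2
        ≤ 6 * F * T * H * (e3 / (8 * K * L)) ^ 2 := by
          apply mul_le_mul_of_nonneg_right h1 (by positivity)
      _ = 6 * F * T * (H * (e3 / (8 * K * L)) ^ 2) := by ring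
      _ ≤ _ := by
          apply mul_le_mul_of_nonneg_left h2 (by positivity)
  have c2 : (16 * n / r) ^ d * (6 * θ * n) ^ d * r ^ d = 96 ^ d * n ^ (2 * d) * θ ^ d := by
    rw [← mul_pow, ← mul_pow, pow_mul, ← mul_pow, ← mul_pow]
    congr 1
    field_simp
    ring
  have c3 : e * e3 ^ 3 * r ^ d ≤ 2752512 * K ^ 5 * L ^ 2 * F ^ 2 * n * S ^ 2 *
      (96 ^ d * n ^ (2 * d) * (T * u * θ ^ d)) := by
    have c4 := mul_le_mul_of_nonneg_right c1
      (show 0 ≤ 1024 * K ^ 3 * L ^ 2 * S * r ^ d by positivity)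
    have c5 : e / (2 * S) * e3 / (8 * K) * (e3 / (8 * K * L)) ^ 2 *
        (1024 * K ^ 3 * L ^ 2 * S * r ^ d) = e * e3 ^ 3 * r ^ d := by
      field_simp
      ring
    have c6 : 6 * F * T * (4 * (28 * K * (16 * n / r) ^ d * F * n * u) *
        (S * (4 * K * (6 * θ * n) ^ d))) * (1024 * K ^ 3 * L ^ 2 * S * r ^ d) =
        2752512 * K ^ 5 * L ^ 2 * F ^ 2 * n * S ^ 2 *
          (((16 * n / r) ^ d * (6 * θ * n) ^ d * r ^ d) * (T * u)) := by
      ring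
    rw [c5, c6, c2] at c4
    refine c4.trans (le_of_eq ?_)
    ring
  have c7 : e * e3 ^ 3 * r ^ d ≤ 2752512 * K ^ 5 * L ^ 2 * F ^ 2 * n * S ^ 2 *
      (96 ^ d * n ^ (2 * d)) := by
    refine c3.trans ?_
    apply mul_le_mul_of_nonneg_left _ (by positivity)
    calc 96 ^ d * n ^ (2 * d) * (T * u * θ ^ d) ≤ 96 ^ d * n ^ (2 * d) * 1 := by
          apply mul_le_mul_of_nonneg_left hTu (by positivity)
      _ = 96 ^ d * n ^ (2 * d) := mul_one _
  calc e ^ 4 * r ^ d = e ^ 3 * (e * r ^ d) := by ring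
    _ ≤ 64 * K ^ 6 * e3 ^ 3 * (e * r ^ d) := by
        apply mul_le_mul_of_nonneg_right b2 (by positivity)
    _ = 64 * K ^ 6 * (e * e3 ^ 3 * r ^ d) := by ring
    _ ≤ 64 * K ^ 6 * (2752512 * K ^ 5 * L ^ 2 * F ^ 2 * n * S ^ 2 * (96 ^ d * n ^ (2 * d))) := by
        apply mul_le_mul_of_nonneg_left c7 (by positivity)
    _ = 176160768 * (96 ^ d * K ^ 11 * F ^ 2 * n ^ (1 + 2 * d) * L ^ 2 * S ^ 2) := by ring
    _ ≤ 200000000 * (96 ^ d * K ^ 11 * F ^ 2 * n ^ (1 + 2 * d) * L ^ 2 * S ^ 2) := by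
        apply mul_le_mul_of_nonneg_right (by norm_num) (by positivity)
    _ = 200000000 * 96 ^ d * K ^ 11 * F ^ 2 * n ^ (1 + 2 * d) * L ^ 2 * S ^ 2 := by ring

theorem powers (a d : ℕ) (τ : ℝ) (hd : 1 ≤ d) (h0 : 0 < τ) (h1 : τ ≤ 1) :
    ((2 : ℝ) ^ a) ^ τ * ((1 / 2 : ℝ) ^ a) ^ (1 - τ) * ((1 / 2 : ℝ) ^ a) ^ d ≤ 1 := by
  set w : ℝ := (2 : ℝ) ^ a with hw
  have hw1 : 1 ≤ w := one_le_pow₀ (by norm_num)
  have hw0 : 0 < w := by linarith
  have hθ : (1 / 2 : ℝ) ^ a = w⁻¹ := by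
    rw [hw, one_div, inv_pow]
  rw [hθ, Real.inv_rpow hw0.le, inv_pow]
  have e1 : 1 ≤ w ^ (1 - τ) := Real.one_le_rpow hw1 (by linarith)
  have e2 : w ^ τ ≤ w ^ d := by
    have : w ^ τ ≤ w ^ (d : ℝ) := by
      apply Real.rpow_le_rpow_of_exponent_le hw1
      have : (1 : ℝ) ≤ (d : ℝ) := by exact_mod_cast hd
      linarith
    rwa [Real.rpow_natCast] at this
  have e3 : (0 : ℝ) < w ^ d := by positivity
  have e4 : (w ^ (1 - τ))⁻¹ ≤ 1 := inv_le_one_of_one_le₀ e1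
  have e5 : 0 ≤ w ^ τ := Real.rpow_nonneg hw0.le _
  calc w ^ τ * (w ^ (1 - τ))⁻¹ * (w ^ d)⁻¹ ≤ w ^ τ * 1 * (w ^ d)⁻¹ := by gcongr
    _ = w ^ τ * (w ^ d)⁻¹ := by rw [mul_one]
    _ ≤ w ^ d * (w ^ d)⁻¹ := by gcongr
    _ = 1 := mul_inv_cancel₀ e3.ne'

theorem card_le (Λ : Type) [Fintype Λ] (d n : ℕ) (F τ : ℝ) (D : Λ → Fin d → ℝ)
    (E : Finset (Λ × ℕ)) (hFam : Fam n D) (hE : Shd n F τ E) (hF : 1 ≤ F) (h1 : τ ≤ 1) :
    (E.card : ℝ) ≤ (Fintype.card Λ : ℝ) * F * n := by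
  have hn : (1 : ℝ) ≤ (n : ℝ) := by exact_mod_cast hFam.pos
  have e1 : E.card = ∑ w : Λ, (E.filter fun z => z.1 = w).card :=
    Finset.card_eq_sum_card_fiberwise (f := Prod.fst) (t := Finset.univ) (fun x _ => by simp)
  have e2 : ∀ w : Λ, ((E.filter fun z => z.1 = w).card : ℝ) ≤ F * n := by
    intro w
    have h2 := hE.fro w 0 n hFam.pos
    have h3 : (E.filter fun z => z.1 = w) ⊆
        (E.filter fun z => z.1 = w ∧ 0 ≤ z.2 ∧ z.2 < 0 + n) := by
      intro z hz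
      rw [Finset.mem_filter] at hz ⊢
      refine ⟨hz.1, hz.2, Nat.zero_le _, ?_⟩
      rw [zero_add]
      exact hE.lt z hz.1
    have h4 : ((E.filter fun z => z.1 = w).card : ℝ) ≤
        ((E.filter fun z => z.1 = w ∧ 0 ≤ z.2 ∧ z.2 < 0 + n).card : ℝ) := by
      exact_mod_cast Finset.card_le_card h3
    have h5 : (n : ℝ) ^ τ ≤ n := by
      have := Real.rpow_le_rpow_of_exponent_le hn h1
      rwa [Real.rpow_one] at this
    exact h4.trans (h2.trans (mul_le_mul_of_nonneg_left h5 (by linarith)))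
  rw [e1]
  push_cast
  calc ∑ w : Λ, ((E.filter fun z => z.1 = w).card : ℝ) ≤ ∑ _w : Λ, F * n :=
        Finset.sum_le_sum (fun w _ => e2 w)
    _ = (Fintype.card Λ : ℝ) * F * n := by
        rw [Finset.sum_const, Finset.card_univ, nsmul_eq_mul]
        ring

theorem t_DH : S_STR → S_NUM → S_BIG → S_SUM → S_CNT → S_DH := by
  intro hSTR hNUM hBIG hSUM hCNT Λ _ d n k r F τ A D E hd hFam hShd ht0 ht1 hF hk1 hk2 hE hr hrn
    hfar
  have hn1 : (1 : ℝ) ≤ (n : ℝ) := by exact_mod_cast hFam.pos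
  have hΔ : ∀ z z' : Λ × ℕ, 0 ≤ dist (D z.1) (D z'.1) ∧ dist (D z.1) (D z'.1) ≤ 1 := by
    intro z z'
    refine ⟨dist_nonneg, ?_⟩
    rw [dist_pi_le_iff zero_le_one]
    intro i
    rw [Real.dist_eq, abs_le]
    have a1 := hFam.lo z.1 i
    have a2 := hFam.hi z.1 i
    have a3 := hFam.lo z'.1 i
    have a4 := hFam.hi z'.1 i
    constructor <;> linarith
  obtain ⟨a, hak, E3, hsub, hbig, hz⟩ := str_inst hSTR E
    (fun z : Λ × ℕ => (z.2, cel A D z.2 z.1)) (fun z z' => dist (D z.1) (D z'.1)) k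
    (fun z z' => dist_comm _ _) hΔ hE
  obtain ⟨z₀, hz₀⟩ := id hE
  have hL : (0 : ℝ) < (Fintype.card Λ : ℝ) := by
    have : Nonempty Λ := ⟨z₀.1⟩
    exact_mod_cast Fintype.card_pos
  have he : (0 : ℝ) < (E.card : ℝ) := by exact_mod_cast hE.card_pos
  have hS : (0 : ℝ) < ((E.image fun z => (z.2, cel A D z.2 z.1)).card : ℝ) := by
    exact_mod_cast (hE.image _).card_pos
  have hK : (1 : ℝ) ≤ (k : ℝ) + 1 := by
    have : (0 : ℝ) ≤ (k : ℝ) := Nat.cast_nonneg k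
    linarith
  have hr0 : (1 : ℝ) ≤ (r : ℝ) := by exact_mod_cast hr
  have hrn' : (r : ℝ) ≤ (n : ℝ) := by exact_mod_cast hrn
  have he3 : (0 : ℝ) < (E3.card : ℝ) := lt_of_lt_of_le (by positivity) hbig
  rcases Nat.lt_or_ge a k with hlt | hge
  · -- the main case
    have hdat : Dat n k a r F τ A D E E3 :=
      { d1 := hd
        fam := hFam
        shd := hShd
        t0 := ht0
        t1 := ht1
        F1 := hF
        k1 := hk1
        k2 := hk2
        ne := hE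
        r1 := hr
        rn := hrn
        ak := hlt
        sub := hsub
        big := hbig
        hea := fun z hz' => (hz z hz').1
        deg := fun z hz' => (hz z hz').2
        far := by
          refine hfar.trans ?_
          have e1 : (E.card : ℝ) / (64 * ((k : ℝ) + 1) ^ 3 * (Fintype.card Λ : ℝ)) =
              ((E.card : ℝ) / (4 * ((k : ℝ) + 1) ^ 2)) /
                (16 * ((k : ℝ) + 1) * (Fintype.card Λ : ℝ)) := by
            field_simp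
            ring
          rw [e1]
          exact div_le_div_of_nonneg_right hbig (by positivity) }
    have h1 := hNUM Λ d n k a r F τ A D E E3 hdat
    have h2 := hBIG Λ d n k a r F τ A D E E3 hdat
    have h3 := hSUM Λ d n k a r F τ A D E E3 hdat
    rw [← Finset.mul_sum] at h1
    refine alg2 d (E.card : ℝ) (E3.card : ℝ) ((k : ℝ) + 1) _ (Fintype.card Λ : ℝ) F n r
      (((2 : ℝ) ^ a) ^ τ) (((1 / 2 : ℝ) ^ a) ^ (1 - τ)) ((1 / 2 : ℝ) ^ a)
      (∑ w0 : Λ, ((HB k a A D E3 w0).card : ℝ)) he hK hS hL hF hn1 hr0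
      (Real.rpow_pos_of_pos (by positivity) _) (Real.rpow_pos_of_pos (by positivity) _)
      (by positivity) (powers a d τ hd ht0 ht1) hbig h1 ?_
    rw [Finset.sum_mul]
    refine (Finset.sum_le_sum (fun w _ => h2 w)).trans ?_
    rw [← Finset.mul_sum]
    apply mul_le_mul_of_nonneg_left h3
    have : 0 ≤ ((1 / 2 : ℝ) ^ a) ^ (1 - τ) := Real.rpow_nonneg (by positivity) _
    positivity
  · -- small distances
    have hak' : a = k := le_antisymm hak hge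
    subst hak'
    obtain ⟨z, hzE⟩ : E3.Nonempty := by
      rw [← Finset.card_pos]
      exact_mod_cast he3
    obtain ⟨g1, g2⟩ := hz z hzE
    have hball : ((E3.filter fun z' => (z'.2, cel A D z'.2 z'.1) = (z.2, cel A D z.2 z.1) ∧
        Cl a a (dist (D z.1) (D z'.1))).card : ℝ) ≤ 4 ^ d := by
      have i1 : (E3.filter fun z' => (z'.2, cel A D z'.2 z'.1) = (z.2, cel A D z.2 z.1) ∧
          Cl a a (dist (D z.1) (D z'.1))).card ≤
          (Finset.univ.filter fun w => dist (D w) (D z.1) ≤ (1 / 2 : ℝ) ^ a).card := by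
        apply Finset.card_le_card_of_injOn (fun z' => z'.1)
        · intro z' hz'
          rw [Finset.mem_coe, Finset.mem_filter] at hz'
          rw [Finset.mem_coe, Finset.mem_filter]
          refine ⟨Finset.mem_univ _, ?_⟩
          have h5 := hz'.2.2
          unfold Cl at h5
          rw [if_pos rfl] at h5
          rw [dist_comm]
          exact h5
        · intro z' hz' z'' hz'' h5
          rw [Finset.mem_coe, Finset.mem_filter] at hz' hz''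
          have h6 : z'.2 = z.2 := (Prod.mk.inj hz'.2.1).1
          have h7 : z''.2 = z.2 := (Prod.mk.inj hz''.2.1).1
          exact Prod.ext h5 (h6.trans h7.symm)
      have i2 := hCNT Λ d n D hFam (D z.1) ((1 / 2 : ℝ) ^ a) (by positivity)
      have i3 : (2 * (1 / 2 : ℝ) ^ a * n + 2) ^ d ≤ 4 ^ d := by
        apply pow_le_pow_left₀ (by positivity)
        have i4 : (n : ℝ) ≤ 2 ^ a := by exact_mod_cast hk1
        have i5 : (1 / 2 : ℝ) ^ a * 2 ^ a = 1 := by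
          rw [← mul_pow]; norm_num
        have i6 : (1 / 2 : ℝ) ^ a * n ≤ (1 / 2 : ℝ) ^ a * 2 ^ a :=
          mul_le_mul_of_nonneg_left i4 (by positivity)
        nlinarith
      have i7 : ((E3.filter fun z' => (z'.2, cel A D z'.2 z'.1) = (z.2, cel A D z.2 z.1) ∧
          Cl a a (dist (D z.1) (D z'.1))).card : ℝ) ≤
          ((Finset.univ.filter fun w => dist (D w) (D z.1) ≤ (1 / 2 : ℝ) ^ a).card : ℝ) := by
        exact_mod_cast i1
      exact i7.trans (i2.trans i3)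
    have g3 := (div_le_iff₀ (by positivity)).1 (g2.trans hball)
    have g4 := g1.trans g3
    rw [div_le_iff₀ (by positivity)] at g4
    refine alg1 d (E.card : ℝ) ((a : ℝ) + 1) _ (Fintype.card Λ : ℝ) F n r hd he.le hK hS.le hL.le
      hF hn1 (by linarith) hrn' ?_ (card_le Λ d n F τ D E hFam hShd hF ht1)
    refine g4.trans (le_of_eq ?_)
    ring

end Pool.Agent.H981.FH
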