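import Pool.Agent.H951.FH.Stm

set_option autoImplicit false

open scoped Classical

namespace Pool.Agent.H351.FH

open Pool.Agent.H951.FH

theorem t_GOOD : S_GOOD := by
  intro ζ Λ _ E f R M m0 K hm0 hK hsym _ h
  rcases E.eq_empty_or_nonempty with rfl | ⟨z0, hz0⟩
  · simp
  have hΛ : Nonempty Λ := ⟨f z0⟩
  have hc0 : (0 : ℝ) < Fintype.card Λ := by exact_mod_cast Fintype.card_pos
  have hK4 : 1 ≤ 4 * K := by
    obtain ⟨h1, h2, h3⟩ := h z0 hz0
    have h4 : 0 < M z0 := lt_of_lt_of_le hm0 h1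
    have h5 : M z0 / (4 * K) ≤ M z0 := h2.trans h3
    rw [div_le_iff₀ (by positivity)] at h5
    by_contra h6
    push Not at h6
    nlinarith
  obtain ⟨c, hc⟩ : ∃ c : ℝ, c = (E.card : ℝ) / (8 * K * Fintype.card Λ) := ⟨_, rfl⟩
  rw [← hc]
  have hcpos : 0 ≤ c := by rw [hc]; positivity
  have hbad : ((E.filter fun z' => ¬ c ≤ ((E.filter fun z => f z = f z').card : ℝ)).card : ℝ) ≤
      E.card / (8 * K) := by
    obtain ⟨B, hB⟩ : ∃ B : Finset ζ, B =
      E.filter fun z' => ¬ c ≤ ((E.filter fun z => f z = f z').card : ℝ) := ⟨_, rfl⟩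
    rw [← hB]
    have h1 : B.card = ∑ l : Λ, (B.filter fun z => f z = l).card :=
      Finset.card_eq_sum_card_fiberwise (fun z _ => Finset.mem_coe.2 (Finset.mem_univ _))
    have h2 : ∀ l : Λ, ((B.filter fun z => f z = l).card : ℝ) ≤ c := by
      intro l
      rcases (B.filter fun z => f z = l).eq_empty_or_nonempty with h3 | ⟨z, hz⟩
      · rw [h3]
        simpa using hcpos
      · rw [Finset.mem_filter, hB, Finset.mem_filter] at hz
        have h4 := not_le.1 hz.1.2
        refine le_trans ?_ h4.le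
        have h5 : (B.filter fun z => f z = l) ⊆ E.filter fun y => f y = f z := by
          intro y hy
          rw [Finset.mem_filter, hB, Finset.mem_filter] at hy
          rw [Finset.mem_filter]
          exact ⟨hy.1.1, hy.2.trans hz.2.symm⟩
        exact_mod_cast Finset.card_le_card h5
    have h6 : (B.card : ℝ) ≤ ∑ _l : Λ, c := by
      rw [h1]
      push_cast
      exact Finset.sum_le_sum fun l _ => h2 l
    refine h6.trans (le_of_eq ?_)
    rw [Finset.sum_const, Finset.card_univ, nsmul_eq_mul, hc]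
    field_simp
  have hgood : (E.card : ℝ) / 2 ≤
      ((E.filter fun z' => c ≤ ((E.filter fun z => f z = f z').card : ℝ)).card : ℝ) := by
    have h1 : ((E.filter fun z' => c ≤ ((E.filter fun z => f z = f z').card : ℝ)).card : ℝ) +
        ((E.filter fun z' => ¬ c ≤ ((E.filter fun z => f z = f z').card : ℝ)).card : ℝ) =
          E.card := by
      exact_mod_cast Finset.card_filter_add_card_filter_not (s := E)
        (fun z' => c ≤ ((E.filter fun z => f z = f z').card : ℝ))
    have h2 : (E.card : ℝ) / (8 * K) ≤ E.card / 2 := by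
      refine div_le_div_of_nonneg_left (by positivity) (by norm_num) (by linarith)
    linarith
  obtain ⟨G, hG⟩ : ∃ G : Finset ζ, G =
    E.filter fun z' => c ≤ ((E.filter fun z => f z = f z').card : ℝ) := ⟨_, rfl⟩
  rw [← hG] at hgood
  have hcount : (((E ×ˢ E).filter fun p => R p.1 p.2 ∧
      c ≤ ((E.filter fun z => f z = f p.2).card : ℝ)).card : ℝ) =
      ∑ z' ∈ E, ∑ z ∈ E, if R z z' ∧ c ≤ ((E.filter fun y => f y = f z').card : ℝ)
        then (1 : ℝ) else 0 := by
    rw [Finset.card_filter, Finset.sum_product_right]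
    push_cast
    rfl
  rw [hcount]
  have hGE : G ⊆ E := by
    rw [hG]
    exact Finset.filter_subset _ _
  have h7 : ∑ z' ∈ G, ∑ z ∈ E, (if R z z' ∧ c ≤ ((E.filter fun y => f y = f z').card : ℝ)
        then (1 : ℝ) else 0) ≤
      ∑ z' ∈ E, ∑ z ∈ E, if R z z' ∧ c ≤ ((E.filter fun y => f y = f z').card : ℝ)
        then (1 : ℝ) else 0 := by
    refine Finset.sum_le_sum_of_subset_of_nonneg hGE fun z' _ _ => Finset.sum_nonneg fun z _ => ?_
    split_ifs
    · exact zero_le_one
    · exact le_refl _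
  refine le_trans ?_ h7
  have h8 : ∀ z' ∈ G, m0 / (4 * K) ≤
      ∑ z ∈ E, (if R z z' ∧ c ≤ ((E.filter fun y => f y = f z').card : ℝ)
        then (1 : ℝ) else 0) := by
    intro z' hz'
    have hz'' : z' ∈ E ∧ c ≤ ((E.filter fun y => f y = f z').card : ℝ) := by
      rw [hG, Finset.mem_filter] at hz'
      exact hz'
    obtain ⟨h1, h2, _⟩ := h z' hz''.1
    have h3 : m0 / (4 * K) ≤ ((E.filter fun z => R z' z).card : ℝ) :=
      (div_le_div_of_nonneg_right h1 (by positivity)).trans h2
    refine h3.trans (le_of_eq ?_)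
    rw [Finset.card_filter]
    push_cast
    refine Finset.sum_congr rfl fun z _ => ?_
    by_cases hR : R z' z
    · rw [if_pos hR, if_pos ⟨hsym _ _ hR, hz''.2⟩]
    · rw [if_neg hR, if_neg fun hh => hR (hsym _ _ hh.1)]
  have h9 : (G.card : ℝ) * (m0 / (4 * K)) ≤
      ∑ z' ∈ G, ∑ z ∈ E, (if R z z' ∧ c ≤ ((E.filter fun y => f y = f z').card : ℝ)
        then (1 : ℝ) else 0) := by
    have := Finset.sum_le_sum h8
    rwa [Finset.sum_const, nsmul_eq_mul] at this
  refine le_trans ?_ h9
  have h10 : (E.card : ℝ) / 2 * (m0 / (4 * K)) ≤ (G.card : ℝ) * (m0 / (4 * K)) :=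
    mul_le_mul_of_nonneg_right hgood (by positivity)
  refine le_trans (le_of_eq ?_) h10
  field_simp
  ring

end Pool.Agent.H351.FH
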