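import Mathlib

/-!
# Project FH: the hairbrush argument for fractal shadings, definitions and statements
-/

set_option autoImplicit false

open scoped Classical

namespace Pool.Agent.H951.FH

/-- The cell of the line `w` at the height `j`: the line is `j ↦ A w + j * D w`. -/
noncomputable def cel {Λ : Type} {d : ℕ} (A D : Λ → Fin d → ℝ) (j : ℕ) (w : Λ) : Fin d → ℤ :=
  fun i => ⌊A w i + (j : ℝ) * D w i⌋

/-- Slopes in the unit cube, in distinct cells of side `1 / n`. -/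
structure Fam {Λ : Type} {d : ℕ} (n : ℕ) (D : Λ → Fin d → ℝ) : Prop where
  pos : 1 ≤ n
  lo : ∀ w i, 0 ≤ D w i
  hi : ∀ w i, D w i ≤ 1
  inj : ∀ w w', (∀ i, ⌊(n : ℝ) * D w i⌋ = ⌊(n : ℝ) * D w' i⌋) → w = w'

/-- The shading `E` (pairs of a line and a height) uses heights below `n` and satisfies a Frostman
condition of dimension `τ` on every line. -/
structure Shd {Λ : Type} (n : ℕ) (F τ : ℝ) (E : Finset (Λ × ℕ)) : Prop where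
  lt : ∀ z ∈ E, z.2 < n
  fro : ∀ (w : Λ) (a m : ℕ), 1 ≤ m →
    ((E.filter fun z => z.1 = w ∧ a ≤ z.2 ∧ z.2 < a + m).card : ℝ) ≤ F * (m : ℝ) ^ τ

/-- the classes of distances: the last class consists of all small distances -/
def Cl (k a : ℕ) (x : ℝ) : Prop :=
  if a = k then x ≤ (1 / 2) ^ k else (1 / 2) ^ (a + 1) < x ∧ x ≤ (1 / 2) ^ a

/-- CNT: few slopes near a point. -/
def S_CNT : Prop := ∀ (Λ : Type) [Fintype Λ] (d n : ℕ) (D : Λ → Fin d → ℝ), Fam n D →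
  ∀ (u : Fin d → ℝ) (R : ℝ), 0 ≤ R →
    ((Finset.univ.filter fun w => dist (D w) u ≤ R).card : ℝ) ≤ (2 * R * n + 2) ^ d

/-- MULT: two lines with different slopes share few cells. -/
def S_MULT : Prop := ∀ (Λ : Type) (d n : ℕ) (A D : Λ → Fin d → ℝ) (F τ : ℝ)
  (E : Finset (Λ × ℕ)), Fam n D → 0 < τ → τ ≤ 1 → 1 ≤ F → Shd n F τ E →
  ∀ (w w' : Λ) (Δ : ℝ), 0 < Δ → Δ ≤ dist (D w) (D w') →
    ((E.filter fun z => z.1 = w ∧ cel A D z.2 w = cel A D z.2 w').card : ℝ) ≤ 3 * F * (1 / Δ) ^ τ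

/-- `w'` is near the plane of `w0` and `w`. -/
def Pl {Λ : Type} {d : ℕ} (D : Λ → Fin d → ℝ) (r : ℕ) (w0 w w' : Λ) : Prop :=
  ∃ κ : ℝ, ∀ i, |(D w' i - D w0 i) - κ * (D w i - D w0 i)| ≤ 3 / r

/-- PLANE: three lines which meet pairwise. -/
def S_PLANE : Prop := ∀ (Λ : Type) (d : ℕ) (A D : Λ → Fin d → ℝ) (w0 w w' : Λ) (j j0 j1 r : ℕ),
  1 ≤ r → (r : ℝ) ≤ |(j : ℝ) - j1| → cel A D j0 w = cel A D j0 w0 →
  cel A D j1 w' = cel A D j1 w0 → cel A D j w = cel A D j w' → Pl D r w0 w w'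

/-- TUBE: few slopes near a plane at a given distance. -/
def S_TUBE : Prop := ∀ (Λ : Type) [Fintype Λ] (d n : ℕ) (D : Λ → Fin d → ℝ), Fam n D →
  ∀ (w0 w : Λ) (r q : ℕ), 1 ≤ r → r ≤ n →
    ((Finset.univ.filter fun w' => Pl D r w0 w w' ∧ (q : ℝ) ≤ r * dist (D w) (D w') ∧
      r * dist (D w) (D w') < q + 1).card : ℝ) ≤ 2 * (16 * n / r) ^ d

/-- HARM: a sum. -/
def S_HARM : Prop := ∀ (r Q : ℕ) (τ θ K : ℝ), 1 ≤ r → 0 < τ → τ ≤ 1 → 0 < θ → θ ≤ 1 →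
  (Q : ℝ) ≤ 2 * θ * r → 1 + Real.log (2 * r) ≤ K →
  ∑ q ∈ Finset.Icc 1 Q, ((r : ℝ) / q) ^ τ ≤ 2 * K * r * θ ^ (1 - τ)

/-- XB: the number of incidences near a plane with a given line. -/
def S_XB : Prop := ∀ (Λ : Type) [Fintype Λ] (d n : ℕ) (A D : Λ → Fin d → ℝ) (F τ θ K : ℝ)
  (E : Finset (Λ × ℕ)), Fam n D → 0 < τ → τ ≤ 1 → 1 ≤ F → Shd n F τ E → 0 < θ → θ ≤ 1 →
  1 ≤ θ * n → 1 + Real.log (2 * n) ≤ K → ∀ (w0 w : Λ) (r : ℕ), 1 ≤ r → r ≤ n →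
    ((E.filter fun z => (w, z.2) ∈ E ∧ Pl D r w0 w z.1 ∧ cel A D z.2 w = cel A D z.2 z.1 ∧
      dist (D w) (D z.1) ≤ 2 * θ).card : ℝ) ≤ 14 * K * (16 * n / r) ^ d * F * n * θ ^ (1 - τ)

/-- MD: a subset with large degrees. -/
def S_MD : Prop := ∀ (α : Type) (V : Finset α) (R : α → α → Prop) (K : ℝ),
  (∀ x y, R x y → R y x) → 0 < K → V.Nonempty →
  ((V.card : ℝ) ^ 2 / K ≤ (((V ×ˢ V).filter fun p => R p.1 p.2).card : ℝ)) →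
  ∃ H ⊆ V, (V.card : ℝ) / (2 * K) ≤ H.card ∧
    ∀ x ∈ H, (V.card : ℝ) / (4 * K) ≤ ((H.filter fun y => R x y).card : ℝ)

/-- STR: a large regular part of `E`, with one class of distances. -/
def S_STR : Prop := ∀ (ζ B : Type) (E : Finset ζ) (β : ζ → B) (Δ : ζ → ζ → ℝ) (k : ℕ),
  (∀ z z', Δ z z' = Δ z' z) → (∀ z z', 0 ≤ Δ z z' ∧ Δ z z' ≤ 1) → E.Nonempty →
  ∃ a ≤ k, ∃ E3 ⊆ E, (E.card : ℝ) / (4 * ((k : ℝ) + 1) ^ 2) ≤ E3.card ∧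
    ∀ z ∈ E3, (E.card : ℝ) / (2 * (E.image β).card) ≤ ((E.filter fun z' => β z' = β z).card : ℝ) ∧
      ((E.filter fun z' => β z' = β z).card : ℝ) / (4 * ((k : ℝ) + 1)) ≤
        ((E3.filter fun z' => β z' = β z ∧ Cl k a (Δ z z')).card : ℝ)

/-- GOOD: many related pairs whose second member is on a line with many incidences.
`f z` is the line of `z`, `m0` a lower bound for the numbers `M z`. -/
def S_GOOD : Prop := ∀ (ζ Λ : Type) [Fintype Λ] (E3 : Finset ζ) (f : ζ → Λ)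
  (R : ζ → ζ → Prop) (M : ζ → ℝ) (m0 K : ℝ), 0 < m0 → 0 < K → (∀ x y, R x y → R y x) →
  (∀ z z', R z z' → M z = M z') →
  (∀ z ∈ E3, m0 ≤ M z ∧ M z / (4 * K) ≤ ((E3.filter fun z' => R z z').card : ℝ) ∧
    ((E3.filter fun z' => R z z').card : ℝ) ≤ M z) →
  m0 * E3.card / (8 * K) ≤ (((E3 ×ˢ E3).filter fun p => R p.1 p.2 ∧
    (E3.card : ℝ) / (8 * K * Fintype.card Λ) ≤
      ((E3.filter fun z => f z = f p.2).card : ℝ)).card : ℝ)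

/-- CS: Cauchy-Schwarz for the fibres of a map. -/
def S_CS : Prop := ∀ (ζ B : Type) (I : Finset ζ) (β : ζ → B),
  (I.card : ℝ) ^ 2 ≤ (I.image β).card * (((I ×ˢ I).filter fun p => β p.1 = β p.2).card : ℝ)

/-- the data of the main step -/
structure Dat {Λ : Type} [Fintype Λ] {d : ℕ} (n k a r : ℕ) (F τ : ℝ) (A D : Λ → Fin d → ℝ)
    (E E3 : Finset (Λ × ℕ)) : Prop where
  d1 : 1 ≤ d
  fam : Fam n D
  shd : Shd n F τ E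
  t0 : 0 < τ
  t1 : τ ≤ 1
  F1 : 1 ≤ F
  k1 : n ≤ 2 ^ k
  k2 : 2 ^ k ≤ 2 * n
  ne : E.Nonempty
  r1 : 1 ≤ r
  rn : r ≤ n
  ak : a < k
  sub : E3 ⊆ E
  big : (E.card : ℝ) / (4 * ((k : ℝ) + 1) ^ 2) ≤ E3.card
  hea : ∀ z ∈ E3, (E.card : ℝ) / (2 * (E.image fun z => (z.2, cel A D z.2 z.1)).card) ≤
    ((E.filter fun z' => (z'.2, cel A D z'.2 z'.1) = (z.2, cel A D z.2 z.1)).card : ℝ)
  deg : ∀ z ∈ E3, ((E.filter fun z' => (z'.2, cel A D z'.2 z'.1) =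
    (z.2, cel A D z.2 z.1)).card : ℝ) / (4 * ((k : ℝ) + 1)) ≤
      ((E3.filter fun z' => (z'.2, cel A D z'.2 z'.1) = (z.2, cel A D z.2 z.1) ∧
        Cl k a (dist (D z.1) (D z'.1))).card : ℝ)
  far : F * (2 * r : ℝ) ^ τ ≤ (E3.card : ℝ) / (16 * ((k : ℝ) + 1) * Fintype.card Λ)

/-- the lines with many incidences -/
def Gd {Λ : Type} [Fintype Λ] (k : ℕ) (E3 : Finset (Λ × ℕ)) (w : Λ) : Prop :=
  (E3.card : ℝ) / (8 * ((k : ℝ) + 1) * Fintype.card Λ) ≤ ((E3.filter fun z => z.1 = w).card : ℝ)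

/-- the hairbrush with the center `w0` -/
noncomputable def HB {Λ : Type} [Fintype Λ] {d : ℕ} (k a : ℕ) (A D : Λ → Fin d → ℝ)
    (E3 : Finset (Λ × ℕ)) (w0 : Λ) : Finset Λ :=
  Finset.univ.filter fun w => Gd k E3 w ∧ Cl k a (dist (D w0) (D w)) ∧
    ∃ j, (w0, j) ∈ E3 ∧ (w, j) ∈ E3 ∧ cel A D j w = cel A D j w0

/-- NUM: the hairbrushes are large. -/
def S_NUM : Prop := ∀ (Λ : Type) [Fintype Λ] (d n k a r : ℕ) (F τ : ℝ) (A D : Λ → Fin d → ℝ)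
  (E E3 : Finset (Λ × ℕ)), Dat n k a r F τ A D E E3 →
  (E.card : ℝ) / (2 * (E.image fun z => (z.2, cel A D z.2 z.1)).card) * E3.card /
    (8 * ((k : ℝ) + 1)) ≤ ∑ w0 : Λ, 6 * F * ((2 : ℝ) ^ a) ^ τ * (HB k a A D E3 w0).card

/-- BIG: a hairbrush meets many cells. -/
def S_BIG : Prop := ∀ (Λ : Type) [Fintype Λ] (d n k a r : ℕ) (F τ : ℝ) (A D : Λ → Fin d → ℝ)
  (E E3 : Finset (Λ × ℕ)), Dat n k a r F τ A D E E3 → ∀ w0 : Λ,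
  ((HB k a A D E3 w0).card : ℝ) *
    ((E3.card : ℝ) / (8 * ((k : ℝ) + 1) * Fintype.card Λ)) ^ 2 ≤
    4 * (28 * ((k : ℝ) + 1) * (16 * n / r) ^ d * F * n * ((1 / 2 : ℝ) ^ a) ^ (1 - τ)) *
      ((E3.filter fun z => z.1 ∈ HB k a A D E3 w0).image
        fun z => (z.2, cel A D z.2 z.1)).card

/-- SUM: the cells are not met by too many hairbrushes. -/
def S_SUM : Prop := ∀ (Λ : Type) [Fintype Λ] (d n k a r : ℕ) (F τ : ℝ) (A D : Λ → Fin d → ℝ)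
  (E E3 : Finset (Λ × ℕ)), Dat n k a r F τ A D E E3 →
  ∑ w0 : Λ, (((E3.filter fun z => z.1 ∈ HB k a A D E3 w0).image
        fun z => (z.2, cel A D z.2 z.1)).card : ℝ) ≤
    (E.image fun z => (z.2, cel A D z.2 z.1)).card *
      (4 * ((k : ℝ) + 1) * (6 * (1 / 2 : ℝ) ^ a * n) ^ d)

/-- DH: the discrete inequality. -/
def S_DH : Prop := ∀ (Λ : Type) [Fintype Λ] (d n k r : ℕ) (F τ : ℝ) (A D : Λ → Fin d → ℝ)
  (E : Finset (Λ × ℕ)), 1 ≤ d → Fam n D → Shd n F τ E → 0 < τ → τ ≤ 1 → 1 ≤ F → n ≤ 2 ^ k →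
  2 ^ k ≤ 2 * n → E.Nonempty → 1 ≤ r → r ≤ n →
  F * (2 * r : ℝ) ^ τ ≤ (E.card : ℝ) / (64 * ((k : ℝ) + 1) ^ 3 * Fintype.card Λ) →
  (E.card : ℝ) ^ 4 * (r : ℝ) ^ d ≤ 200000000 * 96 ^ d * ((k : ℝ) + 1) ^ 11 * F ^ 2 *
    (n : ℝ) ^ (1 + 2 * d) * (Fintype.card Λ : ℝ) ^ 2 *
      ((E.image fun z => (z.2, cel A D z.2 z.1)).card : ℝ) ^ 2

/-- FRO: a discrete Frostman lemma. Dyadic intervals `[p / 2^l, (p+1) / 2^l)`, `l ≤ k`. -/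
def S_FRO : Prop := ∀ (τ : ℝ) (k : ℕ) (G : Set ℝ), 0 < τ → τ ≤ 1 → G ⊆ Set.Ico (0 : ℝ) 1 →
  ∃ (P : Finset ℝ) (C : Finset (ℕ × ℕ)), (P : Set ℝ) ⊆ G ∧
    (∀ l ≤ k, ∀ p : ℕ, ((P.filter fun t => (p : ℝ) / 2 ^ l ≤ t ∧ t < ((p : ℝ) + 1) / 2 ^ l).card :
      ℝ) ≤ ((2 : ℝ) ^ (k - l)) ^ τ) ∧
    (∀ c ∈ C, c.1 ≤ k) ∧
    (∀ t ∈ G, ∃ c ∈ C, (c.2 : ℝ) / 2 ^ c.1 ≤ t ∧ t < ((c.2 : ℝ) + 1) / 2 ^ c.1) ∧
    ∑ c ∈ C, (1 / (2 : ℝ) ^ c.1) ^ τ ≤ 2 * P.card / ((2 : ℝ) ^ k) ^ τ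

/-- DIM: dimension from covers. -/
def S_DIM : Prop := ∀ (G : Set ℝ) (Gk : ℕ → Set ℝ) (τ b : ℝ) (k1 : ℕ), 0 < τ → 0 < b → b < 1 →
  (∀ k0 : ℕ, ∀ t ∈ G, ∃ k, k0 ≤ k ∧ t ∈ Gk k) →
  (∀ k, k1 ≤ k → ∃ C : Finset (ℕ × ℕ),
    (∀ t ∈ Gk k, ∃ c ∈ C, (c.2 : ℝ) / 2 ^ c.1 ≤ t ∧ t < ((c.2 : ℝ) + 1) / 2 ^ c.1) ∧
    ∑ c ∈ C, (1 / (2 : ℝ) ^ c.1) ^ τ ≤ b ^ k) →
  dimH G ≤ ENNReal.ofReal τ

end Pool.Agent.H951.FH
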