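import Mathlib
import Pool.Agent.H951.FH.Stm

/-!
# Project FH: HARM
-/

set_option autoImplicit false

namespace Pool.Agent.H772.FH

open Pool.Agent.H951.FH

theorem harm_le {Q : ℕ} (K L : ℝ) (hQ : 1 ≤ Q) (hL : (Q : ℝ) ≤ L) (hK : 1 + Real.log L ≤ K) :
    ∑ q ∈ Finset.Icc 1 Q, (1 / (q : ℝ)) ≤ K := by
  have h1 : ((harmonic Q : ℚ) : ℝ) = ∑ q ∈ Finset.Icc 1 Q, (1 / (q : ℝ)) := by
    rw [harmonic_eq_sum_Icc]
    push_cast
    exact Finset.sum_congr rfl fun q _ => (one_div _).symm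
  rw [← h1]
  refine (harmonic_le_one_add_log Q).trans (le_trans ?_ hK)
  have h2 : Real.log Q ≤ Real.log L :=
    Real.log_le_log (by exact_mod_cast hQ) hL
  linarith

theorem t_HARM : S_HARM := by
  intro r Q τ θ K hr hτ hτ1 hθ hθ1 hQ hK
  have hr0 : (0 : ℝ) < r := by exact_mod_cast hr
  have hr1 : (1 : ℝ) ≤ r := by exact_mod_cast hr
  have hK0 : 0 < K := by
    have : 0 ≤ Real.log (2 * r) := Real.log_nonneg (by linarith)
    linarith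
  have hθp : 0 < θ ^ (1 - τ) := Real.rpow_pos_of_pos hθ _
  rcases Nat.eq_zero_or_pos Q with h0 | h0
  · subst h0
    rw [Finset.Icc_eq_empty (by omega), Finset.sum_empty]
    positivity
  have hQ0 : (0 : ℝ) < Q := by exact_mod_cast h0
  have h1 : ∀ q ∈ Finset.Icc 1 Q, ((r : ℝ) / q) ^ τ ≤
      ((r : ℝ) ^ τ * (Q : ℝ) ^ (1 - τ)) * (1 / (q : ℝ)) := by
    intro q hq
    rw [Finset.mem_Icc] at hq
    have hq0 : (0 : ℝ) < q := by exact_mod_cast hq.1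
    have hqQ : (q : ℝ) ≤ Q := by exact_mod_cast hq.2
    have e : ((r : ℝ) / q) ^ τ = ((r : ℝ) ^ τ * (q : ℝ) ^ (1 - τ)) * (1 / (q : ℝ)) := by
      rw [Real.div_rpow hr0.le hq0.le, Real.rpow_sub hq0, Real.rpow_one]
      have : (q : ℝ) ^ τ ≠ 0 := (Real.rpow_pos_of_pos hq0 _).ne'
      field_simp
    rw [e]
    refine mul_le_mul_of_nonneg_right (mul_le_mul_of_nonneg_left ?_
      (Real.rpow_nonneg hr0.le _)) (by positivity)
    exact Real.rpow_le_rpow hq0.le hqQ (by linarith)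
  refine (Finset.sum_le_sum h1).trans ?_
  rw [← Finset.mul_sum]
  have h2 : ∑ q ∈ Finset.Icc 1 Q, (1 / (q : ℝ)) ≤ K := by
    refine harm_le K (2 * r) h0 (hQ.trans ?_) hK
    nlinarith
  have h3 : (r : ℝ) ^ τ * (Q : ℝ) ^ (1 - τ) ≤ 2 * r * θ ^ (1 - τ) := by
    have h4 : (Q : ℝ) ^ (1 - τ) ≤ (2 * θ * r) ^ (1 - τ) :=
      Real.rpow_le_rpow hQ0.le hQ (by linarith)
    have h5 : (2 * θ * r : ℝ) ^ (1 - τ) = (2 : ℝ) ^ (1 - τ) * θ ^ (1 - τ) * (r : ℝ) ^ (1 - τ) := by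
      rw [Real.mul_rpow (by positivity) hr0.le, Real.mul_rpow (by norm_num) hθ.le]
    have h6 : (2 : ℝ) ^ (1 - τ) ≤ 2 := by
      have := Real.rpow_le_rpow_of_exponent_le (by norm_num : (1 : ℝ) ≤ 2)
        (by linarith : 1 - τ ≤ 1)
      rwa [Real.rpow_one] at this
    have h7 : (r : ℝ) ^ τ * (r : ℝ) ^ (1 - τ) = r := by
      rw [← Real.rpow_add hr0]
      have : τ + (1 - τ) = 1 := by ring
      rw [this, Real.rpow_one]
    calc (r : ℝ) ^ τ * (Q : ℝ) ^ (1 - τ)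
        ≤ (r : ℝ) ^ τ * (2 * θ * r) ^ (1 - τ) :=
          mul_le_mul_of_nonneg_left h4 (Real.rpow_nonneg hr0.le _)
      _ = (2 : ℝ) ^ (1 - τ) * (((r : ℝ) ^ τ * (r : ℝ) ^ (1 - τ)) * θ ^ (1 - τ)) := by
          rw [h5]
          ring
      _ = (2 : ℝ) ^ (1 - τ) * (r * θ ^ (1 - τ)) := by rw [h7]
      _ ≤ 2 * (r * θ ^ (1 - τ)) := mul_le_mul_of_nonneg_right h6 (by positivity)
      _ = _ := by ring
  calc (r : ℝ) ^ τ * (Q : ℝ) ^ (1 - τ) * ∑ q ∈ Finset.Icc 1 Q, (1 / (q : ℝ))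
      ≤ (2 * r * θ ^ (1 - τ)) * K := mul_le_mul h3 h2
        (Finset.sum_nonneg fun q _ => by positivity) (by positivity)
    _ = _ := by ring

end Pool.Agent.H772.FH
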