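import Pool.Agent.H951.FH.Stm

/-!
# FH-MD (helper951): a subset with large degrees
-/

set_option autoImplicit false

open Finset

namespace Pool.Agent.H142.FH

open Pool.Agent.H951.FH

open Classical in
/-- the number of the ordered related pairs in `H` -/
noncomputable def ee {α : Type} (R : α → α → Prop) (H : Finset α) : ℕ :=
  ((H ×ˢ H).filter fun p => R p.1 p.2).card

open Classical in
theorem ee_erase {α : Type} {R : α → α → Prop} (hR : ∀ x y, R x y → R y x) {H : Finset α} {x : α} :
    ee R H ≤ ee R (H.erase x) + 2 * (H.filter fun y => R x y).card := by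
  have h1 : ((H ×ˢ H).filter fun p => R p.1 p.2) ⊆
      (((H.erase x) ×ˢ (H.erase x)).filter fun p => R p.1 p.2) ∪
        ((H.filter fun y => R x y).image fun y => (x, y)) ∪
        ((H.filter fun y => R x y).image fun y => (y, x)) := by
    intro p hp
    obtain ⟨a, b⟩ := p
    rw [mem_filter, mem_product] at hp
    obtain ⟨⟨ha, hb⟩, hab⟩ := hp
    rw [mem_union, mem_union]
    by_cases hax : a = x
    · left; right
      rw [mem_image]
      subst hax
      exact ⟨b, mem_filter.2 ⟨hb, hab⟩, rfl⟩
    · by_cases hbx : b = x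
      · right
        rw [mem_image]
        subst hbx
        exact ⟨a, mem_filter.2 ⟨ha, hR _ _ hab⟩, rfl⟩
      · left; left
        rw [mem_filter, mem_product]
        exact ⟨⟨mem_erase.2 ⟨hax, ha⟩, mem_erase.2 ⟨hbx, hb⟩⟩, hab⟩
  have h2 := card_le_card h1
  have h3 := card_union_le ((((H.erase x) ×ˢ (H.erase x)).filter fun p => R p.1 p.2) ∪
        ((H.filter fun y => R x y).image fun y => (x, y)))
        ((H.filter fun y => R x y).image fun y => (y, x))
  have h4 := card_union_le (((H.erase x) ×ˢ (H.erase x)).filter fun p => R p.1 p.2)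
        ((H.filter fun y => R x y).image fun y => (x, y))
  have h5 : ((H.filter fun y => R x y).image fun y => (x, y)).card ≤
      (H.filter fun y => R x y).card := card_image_le
  have h6 : ((H.filter fun y => R x y).image fun y => (y, x)).card ≤
      (H.filter fun y => R x y).card := card_image_le
  unfold ee
  omega

theorem t_MD : S_MD := by
  classical
  intro α V R K hR hK hV hE
  have hm : (0 : ℝ) < V.card := by exact_mod_cast hV.card_pos
  obtain ⟨H, hH, hmax⟩ := Finset.exists_max_image V.powerset
    (fun H => (ee R H : ℝ) - 2 * ((V.card : ℝ) / (4 * K)) * H.card) ⟨V, mem_powerset_self V⟩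
  have hHV : H ⊆ V := mem_powerset.1 hH
  have hVe : (V.card : ℝ) ^ 2 / K ≤ (ee R V : ℝ) := by
    refine hE.trans (le_of_eq ?_)
    unfold ee
    congr 2
  have h1 := hmax V (mem_powerset_self V)
  refine ⟨H, hHV, ?_, fun x hx => ?_⟩
  · have h2 : (ee R H : ℝ) ≤ H.card * V.card := by
      have h3 : ee R H ≤ H.card * H.card := by
        unfold ee
        rw [← card_product]
        exact card_filter_le _ _
      have h4 : H.card * H.card ≤ H.card * V.card := Nat.mul_le_mul_left _ (card_le_card hHV)
      exact_mod_cast h3.trans h4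
    have h5 : 0 ≤ 2 * ((V.card : ℝ) / (4 * K)) * H.card := by positivity
    have h6 : (V.card : ℝ) ^ 2 / (2 * K) ≤ H.card * V.card := by
      have h7 : (V.card : ℝ) ^ 2 / K - 2 * ((V.card : ℝ) / (4 * K)) * V.card =
          (V.card : ℝ) ^ 2 / (2 * K) := by
        field_simp
        ring
      linarith
    have h8 : (V.card : ℝ) / (2 * K) * V.card ≤ H.card * V.card := by
      have : (V.card : ℝ) / (2 * K) * V.card = (V.card : ℝ) ^ 2 / (2 * K) := by ring
      rw [this]
      exact h6
    exact le_of_mul_le_mul_right h8 hm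
  · have h2 := hmax (H.erase x) (mem_powerset.2 ((erase_subset x H).trans hHV))
    have h3 : ((H.erase x).card : ℝ) = H.card - 1 := by
      rw [card_erase_of_mem hx, Nat.cast_sub (card_pos.2 ⟨x, hx⟩), Nat.cast_one]
    have h4 : (ee R H : ℝ) ≤ ee R (H.erase x) + 2 * ((H.filter fun y => R x y).card : ℝ) := by
      exact_mod_cast ee_erase hR
    rw [h3] at h2
    have h5 : (V.card : ℝ) / (4 * K) ≤ ((H.filter fun y => R x y).card : ℝ) := by
      nlinarith
    refine h5.trans (le_of_eq ?_)
    congr 2

end Pool.Agent.H142.FH
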