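import Pool.Agent.H951.FH.Stm

/-!
# Project FH (helper951): two lines with different slopes share few cells
-/

set_option autoImplicit false

open scoped Classical

namespace Pool.Agent.H75.FH

open Pool.Agent.H951.FH

theorem t_MULT : S_MULT := by
  intro Λ d n A D F τ E hfam hτ0 hτ1 hF hE w w' Δ hΔ hd
  obtain ⟨S, hS⟩ : ∃ S : Finset (Λ × ℕ),
    S = E.filter fun z => z.1 = w ∧ cel A D z.2 w = cel A D z.2 w' := ⟨_, rfl⟩
  rw [← hS]
  have hpos : (0 : ℝ) ≤ 3 * F * (1 / Δ) ^ τ := by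
    have : (0 : ℝ) ≤ (1 / Δ) ^ τ := Real.rpow_nonneg (by positivity) _
    positivity
  rcases S.eq_empty_or_nonempty with h0 | hne
  · rw [h0, Finset.card_empty, Nat.cast_zero]
    exact hpos
  have hΔ1 : Δ ≤ 1 := by
    refine hd.trans ((dist_pi_le_iff zero_le_one).2 fun i => ?_)
    rw [Real.dist_eq, abs_le]
    have h1 := hfam.lo w i
    have h2 := hfam.lo w' i
    have h3 := hfam.hi w i
    have h4 := hfam.hi w' i
    constructor <;> linarith
  obtain ⟨z₀, hz₀, hmin⟩ := Finset.exists_min_image S (fun z => z.2) hne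
  obtain ⟨m, hm⟩ : ∃ m : ℕ, m = ⌊2 / Δ⌋₊ + 1 := ⟨_, rfl⟩
  have hcel : ∀ z ∈ S, ∀ i, |(A w i + (z.2 : ℝ) * D w i) - (A w' i + (z.2 : ℝ) * D w' i)| < 1 := by
    intro z hz i
    rw [hS, Finset.mem_filter] at hz
    exact Int.abs_sub_lt_one_of_floor_eq_floor (congrFun hz.2.2 i)
  have hdiff : ∀ z ∈ S, z.2 < z₀.2 + m := by
    intro z hz
    have hle : z₀.2 ≤ z.2 := hmin z hz
    rcases hle.eq_or_lt with h | h
    · omega
    · obtain ⟨t, ht⟩ : ∃ t : ℕ, z.2 = z₀.2 + t := ⟨z.2 - z₀.2, by omega⟩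
      have ht0 : 0 < t := by omega
      have htr : (0 : ℝ) < t := by exact_mod_cast ht0
      have hz2 : (z.2 : ℝ) = z₀.2 + t := by exact_mod_cast ht
      have h1 : dist (D w) (D w') ≤ 2 / t := by
        refine (dist_pi_le_iff (by positivity)).2 fun i => ?_
        rw [le_div_iff₀ htr, Real.dist_eq]
        have h2 := hcel z hz i
        have h3 := hcel z₀ hz₀ i
        rw [hz2] at h2
        have h4 : |D w i - D w' i| * t = |t * (D w i - D w' i)| := by
          rw [abs_mul, abs_of_pos htr, mul_comm]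
        rw [h4]
        rw [abs_lt] at h2 h3
        rw [abs_le]
        constructor <;> nlinarith
      have h2 : (t : ℝ) ≤ 2 / Δ := by
        have h3 := hd.trans h1
        rw [le_div_iff₀ htr] at h3
        rw [le_div_iff₀ hΔ]
        linarith
      have h3 : t ≤ ⌊2 / Δ⌋₊ := Nat.le_floor h2
      omega
  have hsub : S ⊆ E.filter fun z => z.1 = w ∧ z₀.2 ≤ z.2 ∧ z.2 < z₀.2 + m := by
    intro z hz
    have h1 := hmin z hz
    have h2 := hdiff z hz
    rw [hS, Finset.mem_filter] at hz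
    rw [Finset.mem_filter]
    exact ⟨hz.1, hz.2.1, h1, h2⟩
  have hcard : (S.card : ℝ) ≤ F * (m : ℝ) ^ τ := by
    have h1 := hE.fro w z₀.2 m (by omega)
    have h2 : (S.card : ℝ) ≤
        ((E.filter fun z => z.1 = w ∧ z₀.2 ≤ z.2 ∧ z.2 < z₀.2 + m).card : ℝ) := by
      exact_mod_cast Finset.card_le_card hsub
    exact h2.trans h1
  have hmr : (m : ℝ) ≤ 3 * (1 / Δ) := by
    have h1 := Nat.floor_le (by positivity : (0 : ℝ) ≤ 2 / Δ)
    have h2 : (m : ℝ) = (⌊2 / Δ⌋₊ : ℝ) + 1 := by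
      rw [hm]
      push_cast
      rfl
    have h3 : (1 : ℝ) ≤ 1 / Δ := by
      rw [le_div_iff₀ hΔ]
      linarith
    have h4 : 2 / Δ = 2 * (1 / Δ) := by ring
    rw [h2]
    linarith
  have hmτ : (m : ℝ) ^ τ ≤ 3 * (1 / Δ) ^ τ := by
    calc (m : ℝ) ^ τ ≤ (3 * (1 / Δ)) ^ τ :=
          Real.rpow_le_rpow (Nat.cast_nonneg _) hmr hτ0.le
      _ = (3 : ℝ) ^ τ * (1 / Δ) ^ τ := Real.mul_rpow (by norm_num) (by positivity)
      _ ≤ 3 * (1 / Δ) ^ τ := by
          apply mul_le_mul_of_nonneg_right _ (Real.rpow_nonneg (by positivity) _)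
          calc (3 : ℝ) ^ τ ≤ (3 : ℝ) ^ (1 : ℝ) :=
                Real.rpow_le_rpow_of_exponent_le (by norm_num) hτ1
            _ = 3 := Real.rpow_one 3
  calc (S.card : ℝ) ≤ F * (m : ℝ) ^ τ := hcard
    _ ≤ F * (3 * (1 / Δ) ^ τ) := mul_le_mul_of_nonneg_left hmτ (by linarith)
    _ = 3 * F * (1 / Δ) ^ τ := by ring

end Pool.Agent.H75.FH
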