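import Pool.Agent.H951.FH.Stm

set_option autoImplicit false

open scoped Classical

namespace Pool.Agent.H975.FH

open Pool.Agent.H951.FH

theorem t_PLANE : S_PLANE := by
  intro Λ d A D w0 w w' j j0 j1 r hr hj h0 h1 h2
  have hr1 : (1 : ℝ) ≤ (r : ℝ) := by exact_mod_cast hr
  have hpos : 0 < |(j : ℝ) - j1| := by linarith
  have hne : (j : ℝ) - j1 ≠ 0 := abs_pos.1 hpos
  refine ⟨((j : ℝ) - j0) / ((j : ℝ) - j1), fun i => ?_⟩
  have e0 := Int.abs_sub_lt_one_of_floor_eq_floor (congrFun h0 i)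
  have e1 := Int.abs_sub_lt_one_of_floor_eq_floor (congrFun h1 i)
  have e2 := Int.abs_sub_lt_one_of_floor_eq_floor (congrFun h2 i)
  have k1 : (D w' i - D w0 i) - ((j : ℝ) - j0) / ((j : ℝ) - j1) * (D w i - D w0 i) =
      (((j : ℝ) - j1) * (D w' i - D w0 i) - ((j : ℝ) - j0) * (D w i - D w0 i)) /
        ((j : ℝ) - j1) := by
    field_simp
  rw [k1, abs_div]
  have k2 : |((j : ℝ) - j1) * (D w' i - D w0 i) - ((j : ℝ) - j0) * (D w i - D w0 i)| ≤ 3 := by
    rw [abs_lt] at e0 e1 e2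
    rw [abs_le]
    constructor <;> linarith [e0.1, e0.2, e1.1, e1.2, e2.1, e2.2]
  exact div_le_div₀ (by norm_num) k2 (by linarith) hj

end Pool.Agent.H975.FH
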