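import Pool.Agent.H951.FH.Stm

/-!
# A regular part with one class of distances
-/

set_option autoImplicit false

open scoped Classical

namespace Pool.Agent.H282.FH

open Pool.Agent.H951.FH

theorem cl_exists (k : ℕ) (x : ℝ) (hx1 : x ≤ 1) : ∃ a ≤ k, Cl k a x := by
  obtain ⟨a, ha⟩ : ∃ a : ℕ, a = Nat.findGreatest (fun j => x ≤ (1 / 2 : ℝ) ^ j) k := ⟨_, rfl⟩
  have hak : a ≤ k := by rw [ha]; exact Nat.findGreatest_le k
  have hPa : x ≤ (1 / 2 : ℝ) ^ a := by
    rw [ha]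
    exact Nat.findGreatest_spec (P := fun j => x ≤ (1 / 2 : ℝ) ^ j) (Nat.zero_le k)
      (by rw [pow_zero]; exact hx1)
  refine ⟨a, hak, ?_⟩
  unfold Cl
  by_cases h : a = k
  · rw [if_pos h, ← h]
    exact hPa
  · rw [if_neg h]
    refine ⟨?_, hPa⟩
    by_contra h1
    have h2 : x ≤ (1 / 2 : ℝ) ^ (a + 1) := not_lt.1 h1
    have h3 : a + 1 ≤ Nat.findGreatest (fun j => x ≤ (1 / 2 : ℝ) ^ j) k :=
      Nat.le_findGreatest (by omega) h2
    omega

theorem pair_class (ζ : Type) (V : Finset ζ) (Δ : ζ → ζ → ℝ) (k : ℕ)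
    (hΔ : ∀ z z', 0 ≤ Δ z z' ∧ Δ z z' ≤ 1) :
    ∃ a ≤ k, (V.card : ℝ) ^ 2 / ((k : ℝ) + 1) ≤
      (((V ×ˢ V).filter fun p => Cl k a (Δ p.1 p.2)).card : ℝ) := by
  by_contra hcon
  push Not at hcon
  have hK : (0 : ℝ) < (k : ℝ) + 1 := by positivity
  have h1 : ((V ×ˢ V).card : ℝ) ≤
      ∑ a ∈ Finset.range (k + 1), (((V ×ˢ V).filter fun p => Cl k a (Δ p.1 p.2)).card : ℝ) := by
    have h2 : V ×ˢ V ⊆ (Finset.range (k + 1)).biUnion
        (fun a => (V ×ˢ V).filter fun p => Cl k a (Δ p.1 p.2)) := by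
      intro p hp
      obtain ⟨a, ha, hc⟩ := cl_exists k (Δ p.1 p.2) (hΔ p.1 p.2).2
      exact Finset.mem_biUnion.2 ⟨a, Finset.mem_range.2 (by omega), Finset.mem_filter.2 ⟨hp, hc⟩⟩
    have h3 := (Finset.card_le_card h2).trans Finset.card_biUnion_le
    exact_mod_cast h3
  have h4 : ∑ a ∈ Finset.range (k + 1),
      (((V ×ˢ V).filter fun p => Cl k a (Δ p.1 p.2)).card : ℝ) <
      ∑ a ∈ Finset.range (k + 1), (V.card : ℝ) ^ 2 / ((k : ℝ) + 1) := by
    refine Finset.sum_lt_sum_of_nonempty ⟨0, Finset.mem_range.2 (by omega)⟩ (fun a ha => ?_)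
    exact hcon a (by have := Finset.mem_range.1 ha; omega)
  rw [Finset.sum_const, Finset.card_range, nsmul_eq_mul] at h4
  push_cast at h4
  rw [mul_div_cancel₀ _ hK.ne', Finset.card_product] at *
  push_cast at h1
  nlinarith only [h1, h4]

theorem t_STR : S_MD → S_STR := by
  intro hMD ζ B E β Δ k hsym hΔ hE
  obtain ⟨K, hKdef⟩ : ∃ K : ℝ, K = (k : ℝ) + 1 := ⟨_, rfl⟩
  have hK : 0 < K := by rw [hKdef]; positivity
  obtain ⟨V, hV⟩ : ∃ V : B → Finset ζ, V = fun b => E.filter fun z => β z = b := ⟨_, rfl⟩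
  have hVm : ∀ b z, z ∈ V b ↔ z ∈ E ∧ β z = b := by
    intro b z
    rw [hV]
    exact Finset.mem_filter
  have hSpos : 0 < (E.image β).card := Finset.card_pos.2 (hE.image β)
  have hSr : (0 : ℝ) < ((E.image β).card : ℝ) := by exact_mod_cast hSpos
  have hEr : (0 : ℝ) < (E.card : ℝ) := by exact_mod_cast Finset.card_pos.2 hE
  -- the total
  have htot : (E.card : ℝ) = ∑ b ∈ E.image β, ((V b).card : ℝ) := by
    have h1 : E.card = ∑ b ∈ E.image β, (E.filter fun z => β z = b).card :=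
      Finset.card_eq_sum_card_image β E
    rw [h1, hV]
    push_cast
    rfl
  -- the heavy values
  obtain ⟨Hv, hHv⟩ : ∃ Hv : Finset B, Hv = (E.image β).filter fun b =>
      (E.card : ℝ) / (2 * (E.image β).card) ≤ ((V b).card : ℝ) := ⟨_, rfl⟩
  have hheavy : (E.card : ℝ) / 2 ≤ ∑ b ∈ Hv, ((V b).card : ℝ) := by
    have h1 := Finset.sum_filter_add_sum_filter_not (E.image β)
      (fun b => (E.card : ℝ) / (2 * (E.image β).card) ≤ ((V b).card : ℝ))
      (fun b => ((V b).card : ℝ))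
    rw [← htot, ← hHv] at h1
    have h2 : ∑ b ∈ (E.image β).filter (fun b =>
        ¬ (E.card : ℝ) / (2 * (E.image β).card) ≤ ((V b).card : ℝ)), ((V b).card : ℝ) ≤
        (E.card : ℝ) / 2 := by
      have h3 : ∀ b ∈ (E.image β).filter (fun b =>
          ¬ (E.card : ℝ) / (2 * (E.image β).card) ≤ ((V b).card : ℝ)),
          ((V b).card : ℝ) ≤ (E.card : ℝ) / (2 * (E.image β).card) :=
        fun b hb => (not_le.1 (Finset.mem_filter.1 hb).2).le
      refine (Finset.sum_le_card_nsmul _ _ _ h3).trans ?_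
      rw [nsmul_eq_mul]
      have h4 : (((E.image β).filter (fun b =>
          ¬ (E.card : ℝ) / (2 * (E.image β).card) ≤ ((V b).card : ℝ))).card : ℝ) ≤
          ((E.image β).card : ℝ) := by
        exact_mod_cast Finset.card_filter_le _ _
      refine (mul_le_mul_of_nonneg_right h4 (by positivity)).trans_eq ?_
      field_simp
    linarith only [h1, h2]
  -- the classes
  have hcl : ∀ b, ∃ a, a ≤ k ∧ ((V b).card : ℝ) ^ 2 / K ≤
      (((V b ×ˢ V b).filter fun p => Cl k a (Δ p.1 p.2)).card : ℝ) := by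
    intro b
    rw [hKdef]
    exact pair_class ζ (V b) Δ k hΔ
  choose a ha hac using hcl
  -- one class
  obtain ⟨a₀, ha₀, hsum⟩ : ∃ a₀ ≤ k, (E.card : ℝ) / (2 * K) ≤
      ∑ b ∈ Hv.filter (fun b => a b = a₀), ((V b).card : ℝ) := by
    by_contra hcon
    push Not at hcon
    have h1 : ∑ a₀ ∈ Finset.range (k + 1), ∑ b ∈ Hv.filter (fun b => a b = a₀),
        ((V b).card : ℝ) = ∑ b ∈ Hv, ((V b).card : ℝ) :=
      Finset.sum_fiberwise_of_maps_to (fun b _ => Finset.mem_range.2 (by have := ha b; omega)) _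
    have h2 : ∑ a₀ ∈ Finset.range (k + 1), ∑ b ∈ Hv.filter (fun b => a b = a₀),
        ((V b).card : ℝ) < ∑ a₀ ∈ Finset.range (k + 1), (E.card : ℝ) / (2 * K) := by
      refine Finset.sum_lt_sum_of_nonempty ⟨0, Finset.mem_range.2 (by omega)⟩ (fun j hj => ?_)
      exact hcon j (by have := Finset.mem_range.1 hj; omega)
    rw [Finset.sum_const, Finset.card_range, nsmul_eq_mul] at h2
    have h3 : ((k + 1 : ℕ) : ℝ) * ((E.card : ℝ) / (2 * K)) = (E.card : ℝ) / 2 := by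
      push_cast
      rw [← hKdef]
      field_simp
    rw [h1, h3] at h2
    linarith only [h2, hheavy]
  -- the subsets of large degree
  have hex : ∀ b, ∃ H : Finset ζ, b ∈ Hv.filter (fun b => a b = a₀) →
      (H ⊆ V b ∧ ((V b).card : ℝ) / (2 * K) ≤ H.card ∧
      ∀ x ∈ H, ((V b).card : ℝ) / (4 * K) ≤ ((H.filter fun y => Cl k a₀ (Δ x y)).card : ℝ)) := by
    intro b
    by_cases hb : b ∈ Hv.filter (fun b => a b = a₀)
    · have hb1 := (Finset.mem_filter.1 hb).1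
      have hb2 := (Finset.mem_filter.1 hb).2
      rw [hHv] at hb1
      have hb3 := (Finset.mem_filter.1 hb1).1
      have hne : (V b).Nonempty := by
        obtain ⟨z, hz, hzb⟩ := Finset.mem_image.1 hb3
        exact ⟨z, (hVm b z).2 ⟨hz, hzb⟩⟩
      have h1 := hac b
      rw [hb2] at h1
      obtain ⟨H, h2, h3, h4⟩ := hMD ζ (V b) (fun x y => Cl k a₀ (Δ x y)) K
        (fun x y h => by rw [hsym y x]; exact h) hK hne h1
      exact ⟨H, fun _ => ⟨h2, h3, h4⟩⟩
    · exact ⟨∅, fun h => absurd h hb⟩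
  choose H hH using hex
  obtain ⟨E3, hE3⟩ : ∃ E3 : Finset ζ, E3 = (Hv.filter (fun b => a b = a₀)).biUnion H := ⟨_, rfl⟩
  have hβ : ∀ b ∈ Hv.filter (fun b => a b = a₀), ∀ z ∈ H b, z ∈ E ∧ β z = b :=
    fun b hb z hz => (hVm b z).1 ((hH b hb).1 hz)
  refine ⟨a₀, ha₀, E3, ?_, ?_, ?_⟩
  · intro z hz
    rw [hE3] at hz
    obtain ⟨b, hb, hzb⟩ := Finset.mem_biUnion.1 hz
    exact (hβ b hb z hzb).1
  · have hdisj : (E3.card : ℝ) = ∑ b ∈ Hv.filter (fun b => a b = a₀), ((H b).card : ℝ) := by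
      rw [hE3, Finset.card_biUnion]
      · push_cast
        rfl
      · intro b hb b' hb' hbb
        refine Finset.disjoint_left.2 (fun z hz hz' => ?_)
        exact hbb ((hβ b (Finset.mem_coe.1 hb) z hz).2.symm.trans
          (hβ b' (Finset.mem_coe.1 hb') z hz').2)
    rw [hdisj, ← hKdef]
    have h1 : ∑ b ∈ Hv.filter (fun b => a b = a₀), ((V b).card : ℝ) / (2 * K) ≤
        ∑ b ∈ Hv.filter (fun b => a b = a₀), ((H b).card : ℝ) :=
      Finset.sum_le_sum (fun b hb => (hH b hb).2.1)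
    refine le_trans ?_ h1
    rw [← Finset.sum_div]
    have h2 : (E.card : ℝ) / (4 * K ^ 2) = (E.card : ℝ) / (2 * K) / (2 * K) := by
      rw [div_div]
      congr 1
      ring
    rw [h2]
    exact div_le_div_of_nonneg_right hsum (by positivity)
  · intro z hz
    rw [hE3] at hz
    obtain ⟨b, hb, hzb⟩ := Finset.mem_biUnion.1 hz
    have hzβ := (hβ b hb z hzb).2
    have hVb : (E.filter fun z' => β z' = β z) = V b := by
      rw [hV, hzβ]
    rw [hVb]
    have hb1 := (Finset.mem_filter.1 hb).1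
    rw [hHv] at hb1
    refine ⟨(Finset.mem_filter.1 hb1).2, ?_⟩
    rw [← hKdef]
    refine ((hH b hb).2.2 z hzb).trans ?_
    have h1 : (H b).filter (fun y => Cl k a₀ (Δ z y)) ⊆
        E3.filter (fun z' => β z' = β z ∧ Cl k a₀ (Δ z z')) := by
      intro y hy
      obtain ⟨hy1, hy2⟩ := Finset.mem_filter.1 hy
      refine Finset.mem_filter.2 ⟨?_, ?_, hy2⟩
      · rw [hE3]
        exact Finset.mem_biUnion.2 ⟨b, hb, hy1⟩
      · rw [(hβ b hb y hy1).2, hzβ]
    exact_mod_cast Finset.card_le_card h1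

end Pool.Agent.H282.FH
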