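import Pool.Agent.H951.FH.CNT
import Pool.Agent.H951.FH.MULT
import Pool.Agent.H951.FH.PLANE
import Pool.Agent.H951.FH.TUBE
import Pool.Agent.H951.FH.HARM
import Pool.Agent.H951.FH.XB
import Pool.Agent.H951.FH.MD
import Pool.Agent.H951.FH.STR
import Pool.Agent.H951.FH.GOOD
import Pool.Agent.H951.FH.CS
import Pool.Agent.H951.FH.NUM
import Pool.Agent.H951.FH.SUM
import Pool.Agent.H951.FH.BIG
import Pool.Agent.H951.FH.DH

/-!
# Project FH: the discrete inequality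
-/

set_option autoImplicit false

namespace Pool.Agent.H951.FH

theorem mult : S_MULT := Pool.Agent.H75.FH.t_MULT

theorem cnt : S_CNT := Pool.Agent.H307.FH.t_CNT

theorem xb : S_XB := Pool.Agent.H71.FH.t_XB mult (Pool.Agent.H725.FH.t_TUBE cnt)
  Pool.Agent.H772.FH.t_HARM

theorem dh : S_DH := Pool.Agent.H981.FH.t_DH (Pool.Agent.H282.FH.t_STR Pool.Agent.H142.FH.t_MD)
  (Pool.Agent.H299.FH.t_NUM Pool.Agent.H351.FH.t_GOOD mult)
  (Pool.Agent.H703.FH.t_BIG Pool.Agent.H695.FH.t_CS Pool.Agent.H975.FH.t_PLANE xb)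
  (Pool.Agent.H271.FH.t_SUM cnt) cnt

end Pool.Agent.H951.FH
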