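import Pool.Agent.H951.FH.Stm2
import Pool.Graph.R_seed8.W605.HD.Cov

/-!
# `S_COV`: covers of a set of small dimension by cubes
-/

set_option autoImplicit false

open MeasureTheory
open scoped Classical ENNReal NNReal

namespace Pool.Agent.H484.FH

open Pool.Agent.H951.FH

theorem t_COV : S_COV := by
  intro m A α k0 hα h
  obtain ⟨t, κ, ht1, ht2, ht3, ht4⟩ := Pool.Agent.W605.HD.cover A α.toNNReal h k0
  have hc : ((α.toNNReal : ℝ≥0) : ℝ) = α := Real.coe_toNNReal α hα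
  rw [hc] at ht4
  have hfin : ∀ k, {i | κ i = k}.Finite := by
    intro k
    by_contra hinf
    obtain ⟨S, hS1, hS2⟩ := Set.Infinite.exists_subset_card_eq hinf
      (⌊(2 : ℝ) ^ (α * ((k : ℝ) + 1))⌋₊ + 1)
    have h1 := ht4 k S (fun i hi => hS1 hi)
    rw [hS2] at h1
    push_cast at h1
    have h2 := Nat.lt_floor_add_one ((2 : ℝ) ^ (α * ((k : ℝ) + 1)))
    linarith
  let x : ℕ → Fin m → ℝ := fun i => if h : (t i).Nonempty then h.some else 0
  have hx : ∀ i, (t i).Nonempty → x i ∈ t i := by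
    intro i h
    simp only [x, dif_pos h]
    exact h.some_mem
  refine ⟨fun k => (hfin k).toFinset.image (fun i l => ⌊(2 : ℝ) ^ k * x i l⌋), fun k => ?_, ?_⟩
  · have h1 := ht4 k (hfin k).toFinset (fun i hi => by
      rw [Set.Finite.mem_toFinset] at hi
      exact hi)
    refine le_trans ?_ h1
    exact_mod_cast Finset.card_image_le
  · intro y hy
    obtain ⟨i, hi⟩ := Set.mem_iUnion.1 (ht1 hy)
    refine ⟨κ i, ht2 i, fun l => ⌊(2 : ℝ) ^ κ i * x i l⌋, ?_, ?_⟩
    · refine Finset.mem_image.2 ⟨i, ?_, rfl⟩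
      rw [Set.Finite.mem_toFinset]
      rfl
    · intro l
      have h1 := hx i ⟨y, hi⟩
      have h2 := ht3 i _ hi _ h1
      have h3 : |y l - x i l| ≤ (1 / 2 : ℝ) ^ κ i := by
        rw [← Real.dist_eq]
        exact (dist_le_pi_dist y (x i) l).trans h2
      have hp : (0 : ℝ) < (2 : ℝ) ^ κ i := by positivity
      have h4 : |(2 : ℝ) ^ κ i * (y l - x i l)| ≤ 1 := by
        rw [abs_mul, abs_of_pos hp]
        calc (2 : ℝ) ^ κ i * |y l - x i l| ≤ (2 : ℝ) ^ κ i * (1 / 2 : ℝ) ^ κ i :=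
              mul_le_mul_of_nonneg_left h3 hp.le
          _ = 1 := by rw [← mul_pow]; norm_num
      have h5 := Int.floor_le ((2 : ℝ) ^ κ i * x i l)
      have h6 := Int.lt_floor_add_one ((2 : ℝ) ^ κ i * x i l)
      have h7 := abs_le.1 h4
      show |(2 : ℝ) ^ κ i * y l - ((⌊(2 : ℝ) ^ κ i * x i l⌋ : ℤ) : ℝ)| < 3
      rw [abs_lt]
      constructor <;> linarith [h7.1, h7.2]

end Pool.Agent.H484.FH
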