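import Pool.Agent.H951.FH.Stm2

/-!
# Project FH, part FD: the theorem for directions
-/

set_option autoImplicit false

open MeasureTheory Filter Topology
open scoped Classical ENNReal NNReal

namespace Pool.Agent.H120.FH

open Pool.Agent.H951.FH

/-- the cone over a null set of slopes is null -/
theorem cone_null (d : ℕ) (S : Set (Fin d → ℝ)) (hS : MeasurableSet S) (h0 : volume S = 0) :
    volume {e : Fin (d + 1) → ℝ | e 0 ≠ 0 ∧ (fun i : Fin d => e i.succ / e 0) ∈ S} = 0 := by
  set A : Set (ℝ × (Fin d → ℝ)) := {z | z.1 ≠ 0 ∧ (fun i : Fin d => z.2 i / z.1) ∈ S} with hA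
  have hAm : MeasurableSet A := by
    have h1 : Measurable fun z : ℝ × (Fin d → ℝ) => (fun i : Fin d => z.2 i / z.1) := by
      refine measurable_pi_lambda _ fun i => ?_
      exact ((measurable_pi_apply i).comp measurable_snd).div measurable_fst
    exact ((measurableSet_singleton (0 : ℝ)).compl.preimage measurable_fst).inter (h1 hS)
  have hA0 : (volume : Measure (ℝ × (Fin d → ℝ))) A = 0 := by
    rw [Measure.volume_eq_prod, Measure.measure_prod_null hAm]
    filter_upwards with t
    by_cases ht : t = 0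
    · have h2 : Prod.mk t ⁻¹' A = ∅ := by
        ext w
        simp [hA, ht]
      rw [h2]
      simp
    · have h2 : Prod.mk t ⁻¹' A = (fun w : Fin d → ℝ => t⁻¹ • w) ⁻¹' S := by
        ext w
        have h3 : (fun i : Fin d => w i / t) = t⁻¹ • w := by
          funext i
          rw [Pi.smul_apply, smul_eq_mul, div_eq_inv_mul]
        simp only [hA, Set.mem_preimage, Set.mem_ofPred_eq, ne_eq, ht, not_false_eq_true, true_and, h3]
      rw [h2, Measure.addHaar_preimage_smul _ (inv_ne_zero ht), h0, mul_zero]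
      rfl
  have hP := volume_preserving_piFinSuccAbove (fun _ : Fin (d + 1) => ℝ) 0
  have h4 : {e : Fin (d + 1) → ℝ | e 0 ≠ 0 ∧ (fun i : Fin d => e i.succ / e 0) ∈ S} =
      (MeasurableEquiv.piFinSuccAbove (fun _ : Fin (d + 1) => ℝ) 0) ⁻¹' A := by
    ext e
    rfl
  rw [h4, hP.measure_preimage_equiv]
  exact hA0

theorem zero_null (d : ℕ) : volume {e : Fin (d + 1) → ℝ | e 0 = 0} = 0 := by
  have h1 := Measure.pi_hyperplane (fun _ : Fin (d + 1) => (volume : Measure ℝ)) 0 0
  exact h1

theorem t_FD : S_FW → S_FD := by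
  intro hFW d K N α hd hα hN hK
  set φ : EuclideanSpace ℝ (Fin (d + 1)) ≃L[ℝ] (Fin (d + 1) → ℝ) := EuclideanSpace.equiv (Fin (d + 1)) ℝ with hφ
  have hφa : ∀ (x : EuclideanSpace ℝ (Fin (d + 1))) i, φ x i = x i := fun _ _ => rfl
  set V : Set (Fin d → ℝ) := {v | ∃ e ∈ N, e 0 ≠ 0 ∧ v = fun i : Fin d => e i.succ / e 0} with hV
  have hVn : volume V ≠ 0 := by
    intro h0
    have h1 : volume (toMeasurable volume V) = 0 := by rw [measure_toMeasurable]; exact h0
    have h2 := cone_null d _ (measurableSet_toMeasurable volume V) h1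
    have h3 := measure_union_null (zero_null d) h2
    have h4 := (EuclideanSpace.volume_preserving_symm_measurableEquiv_toLp (Fin (d + 1))).measure_preimage_equiv
      ({e : Fin (d + 1) → ℝ | e 0 = 0} ∪
        {e : Fin (d + 1) → ℝ | e 0 ≠ 0 ∧ (fun i : Fin d => e i.succ / e 0) ∈ toMeasurable volume V})
    rw [h3] at h4
    apply hN
    refine measure_mono_null ?_ h4
    intro e he
    by_cases he0 : e 0 = 0
    · left
      exact he0
    · right
      exact ⟨he0, subset_toMeasurable volume V ⟨e, he, he0, rfl⟩⟩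
  have hch : ∀ v : Fin d → ℝ, ∃ b : Fin d → ℝ, v ∈ V →
      ENNReal.ofReal α ≤ dimH {t : ℝ | (Fin.cons t (fun i => b i + t * v i) : Fin (d + 1) → ℝ) ∈ φ '' K} := by
    intro v
    by_cases hv : v ∈ V
    swap
    · exact ⟨0, fun h => absurd h hv⟩
    obtain ⟨e, he, he0, rfl⟩ := hv
    obtain ⟨a, ha⟩ := hK e he
    refine ⟨fun i => a i.succ - a 0 * (e i.succ / e 0), fun _ => ha.trans ?_⟩
    set v : Fin d → ℝ := fun i => e i.succ / e 0 with hv
    set T : Set ℝ := {t : ℝ | (Fin.cons t (fun i => a i.succ - a 0 * (e i.succ / e 0) + t * v i) :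
      Fin (d + 1) → ℝ) ∈ φ '' K} with hT
    set u0 : EuclideanSpace ℝ (Fin (d + 1)) := φ.symm (Fin.cons 0 (fun i => a i.succ - a 0 * (e i.succ / e 0))) with hu0
    set u1 : EuclideanSpace ℝ (Fin (d + 1)) := φ.symm (Fin.cons 1 v) with hu1
    have hlip : LipschitzWith ‖u1‖₊ (fun t : ℝ => u0 + t • u1) := by
      refine LipschitzWith.of_dist_le_mul fun s t => ?_
      rw [dist_add_left, dist_eq_norm, ← sub_smul, norm_smul, dist_eq_norm, mul_comm]
      rfl
    refine (dimH_mono ?_).trans (hlip.dimH_image_le T)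
    rintro x ⟨hxK, r, hx⟩
    have hx0 : x 0 = a 0 + r * e 0 := by rw [hx]; rfl
    have hxs : ∀ i : Fin d, x i.succ = a i.succ + r * e i.succ := fun i => by rw [hx]; rfl
    have hcons : (Fin.cons (x 0) (fun i => a i.succ - a 0 * (e i.succ / e 0) + x 0 * v i) :
        Fin (d + 1) → ℝ) = φ x := by
      funext i
      refine Fin.cases ?_ (fun i => ?_) i
      · rfl
      · rw [Fin.cons_succ, hφa, hxs, hx0, hv]
        field_simp
        ring
    refine ⟨x 0, ?_, ?_⟩
    · show _ ∈ φ '' K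
      rw [hcons]
      exact ⟨x, hxK, rfl⟩
    · show u0 + x 0 • u1 = x
      apply φ.injective
      rw [map_add, map_smul, hu0, hu1, ContinuousLinearEquiv.apply_symm_apply,
        ContinuousLinearEquiv.apply_symm_apply, ← hcons]
      funext i
      refine Fin.cases ?_ (fun i => ?_) i
      · simp
      · simp
  choose B hB using hch
  have hVne : V.Nonempty := by
    rw [Set.nonempty_iff_ne_empty]
    intro h
    rw [h] at hVn
    simp at hVn
  obtain ⟨v0, hv0⟩ := hVne
  have hα1 : α ≤ 1 := by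
    have h1 := (hB v0 hv0).trans ((dimH_mono (Set.subset_univ _)).trans_eq Real.dimH_univ)
    exact (ENNReal.ofReal_le_one).mp h1
  rw [← ContinuousLinearEquiv.dimH_image φ K]
  have hlim : Tendsto (fun τ : ℝ => ENNReal.ofReal (2 * τ + ((d : ℝ) - 1) / 2)) (𝓝[<] α)
      (𝓝 (ENNReal.ofReal (2 * α + ((d : ℝ) - 1) / 2))) := by
    have hc : Continuous fun τ : ℝ => ENNReal.ofReal (2 * τ + ((d : ℝ) - 1) / 2) :=
      ENNReal.continuous_ofReal.comp (by fun_prop)
    exact (hc.tendsto α).mono_left nhdsWithin_le_nhds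
  refine le_of_tendsto hlim ?_
  filter_upwards [Ioo_mem_nhdsLT hα] with τ hτ
  exact hFW d (φ '' K) V B τ hd hτ.1 (hτ.2.le.trans hα1) hVn fun v hv =>
    lt_of_lt_of_le ((ENNReal.ofReal_lt_ofReal_iff hα).mpr hτ.2) (hB v hv)

end Pool.Agent.H120.FH
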