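import Pool.Agent.H951.FH.Stm

/-!
# FRO: a discrete Frostman lemma (helper233 for helper951)
-/

set_option autoImplicit false

open scoped Classical

namespace Pool.Agent.H233.FH

open Pool.Agent.H951.FH

/-- the number of points in a dyadic interval -/
noncomputable def cnt (P : Finset ℝ) (l p : ℕ) : ℕ :=
  (P.filter fun t => (p : ℝ) / 2 ^ l ≤ t ∧ t < ((p : ℝ) + 1) / 2 ^ l).card

theorem cnt_le (P : Finset ℝ) (l p : ℕ) : cnt P l p ≤ P.card := Finset.card_filter_le _ _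

theorem cnt_mono {P P' : Finset ℝ} (h : P ⊆ P') (l p : ℕ) : cnt P l p ≤ cnt P' l p :=
  Finset.card_le_card (Finset.filter_subset_filter _ h)

/-- a dyadic interval of a finer level does not contain the midpoint in its interior -/
theorem no_both {l l' p p' : ℕ} (hl : l + 1 ≤ l') {t0 t1 : ℝ}
    (h0 : t0 < (2 * (p : ℝ) + 1) / 2 ^ (l + 1)) (h1 : (2 * (p : ℝ) + 1) / 2 ^ (l + 1) ≤ t1)
    (h2 : (p' : ℝ) / 2 ^ l' ≤ t0) (h3 : t1 < ((p' : ℝ) + 1) / 2 ^ l') : False := by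
  obtain ⟨e, rfl⟩ := Nat.exists_eq_add_of_le hl
  have hp1 : (0 : ℝ) < 2 ^ (l + 1) := by positivity
  have hp2 : (0 : ℝ) < 2 ^ (l + 1 + e) := by positivity
  have h4 : (p' : ℝ) / 2 ^ (l + 1 + e) < (2 * (p : ℝ) + 1) / 2 ^ (l + 1) := lt_of_le_of_lt h2 h0
  have h5 : (2 * (p : ℝ) + 1) / 2 ^ (l + 1) < ((p' : ℝ) + 1) / 2 ^ (l + 1 + e) :=
    lt_of_le_of_lt h1 h3
  have h6 : (2 * (p : ℝ) + 1) / 2 ^ (l + 1) = ((2 * (p : ℝ) + 1) * 2 ^ e) / 2 ^ (l + 1 + e) := by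
    rw [pow_add 2 (l + 1) e]
    field_simp
  rw [h6] at h4 h5
  rw [div_lt_div_iff_of_pos_right hp2] at h4 h5
  have h7 : p' < (2 * p + 1) * 2 ^ e := by exact_mod_cast h4
  have h8 : (2 * p + 1) * 2 ^ e < p' + 1 := by exact_mod_cast h5
  omega

theorem cnt_union {l l' p : ℕ} (hl : l + 1 ≤ l') (P0 P1 : Finset ℝ)
    (h0 : ∀ t ∈ P0, t < (2 * (p : ℝ) + 1) / 2 ^ (l + 1))
    (h1 : ∀ t ∈ P1, (2 * (p : ℝ) + 1) / 2 ^ (l + 1) ≤ t) (p' : ℕ) :
    cnt (P0 ∪ P1) l' p' ≤ cnt P0 l' p' ∨ cnt (P0 ∪ P1) l' p' ≤ cnt P1 l' p' := by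
  by_cases h : ∃ t ∈ P0, (p' : ℝ) / 2 ^ l' ≤ t ∧ t < ((p' : ℝ) + 1) / 2 ^ l'
  · left
    obtain ⟨t0, ht0, h2, h3⟩ := h
    apply Finset.card_le_card
    intro t ht
    rw [Finset.mem_filter, Finset.mem_union] at ht
    rw [Finset.mem_filter]
    obtain ⟨ht1 | ht1, ht2, ht3⟩ := ht
    · exact ⟨ht1, ht2, ht3⟩
    · exact (no_both hl (h0 t0 ht0) (h1 t ht1) h2 ht3).elim
  · right
    apply Finset.card_le_card
    intro t ht
    rw [Finset.mem_filter, Finset.mem_union] at ht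
    rw [Finset.mem_filter]
    obtain ⟨ht1 | ht1, ht2, ht3⟩ := ht
    · exact (h ⟨t, ht1, ht2, ht3⟩).elim
    · exact ⟨ht1, ht2, ht3⟩

theorem step (τ : ℝ) (k : ℕ) (h0 : 0 < τ) : ∀ (i l p : ℕ), l + i = k → ∀ G : Set ℝ,
    (∀ t ∈ G, (p : ℝ) / 2 ^ l ≤ t ∧ t < ((p : ℝ) + 1) / 2 ^ l) →
    ∃ (P : Finset ℝ) (C : Finset (ℕ × ℕ)), (P : Set ℝ) ⊆ G ∧
      (∀ l', l ≤ l' → l' ≤ k → ∀ p' : ℕ, (cnt P l' p' : ℝ) ≤ ((2 : ℝ) ^ (k - l')) ^ τ) ∧
      (∀ c ∈ C, c.1 ≤ k) ∧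
      (∀ t ∈ G, ∃ c ∈ C, (c.2 : ℝ) / 2 ^ c.1 ≤ t ∧ t < ((c.2 : ℝ) + 1) / 2 ^ c.1) ∧
      ∑ c ∈ C, (1 / (2 : ℝ) ^ c.1) ^ τ ≤ 2 * P.card / ((2 : ℝ) ^ k) ^ τ := by
  have hX1 : ∀ m : ℕ, (1 : ℝ) ≤ ((2 : ℝ) ^ m) ^ τ := fun m =>
    Real.one_le_rpow (one_le_pow₀ one_le_two) h0.le
  have hkpos : (0 : ℝ) < ((2 : ℝ) ^ k) ^ τ := by positivity
  intro i
  induction i with
  | zero =>
    intro l p hl G hG
    have hlk : l = k := by omega
    subst hlk
    rcases G.eq_empty_or_nonempty with rfl | ⟨t, ht⟩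
    · refine ⟨∅, ∅, by simp, fun l' _ _ p' => ?_, by simp, by simp, by simp⟩
      have : cnt (∅ : Finset ℝ) l' p' = 0 := by simp [cnt]
      rw [this]
      exact le_trans (by norm_num) (hX1 _)
    · refine ⟨{t}, {(l, p)}, by simpa using ht, fun l' _ _ p' => ?_, by simp, fun s hs => ?_, ?_⟩
      · refine le_trans ?_ (hX1 _)
        have h1 : cnt ({t} : Finset ℝ) l' p' ≤ 1 := (cnt_le _ _ _).trans (by simp)
        exact_mod_cast h1
      · exact ⟨(l, p), by simp, hG s hs⟩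
      · rw [Finset.sum_singleton, Finset.card_singleton, one_div, Real.inv_rpow (by positivity)]
        rw [div_eq_mul_inv]
        have h1 : 0 ≤ (((2 : ℝ) ^ l) ^ τ)⁻¹ := by positivity
        push_cast
        linarith
  | succ i ih =>
    intro l p hl G hG
    have hpl : (0 : ℝ) < 2 ^ l := by positivity
    have e0 : (p : ℝ) / 2 ^ l = ((2 * p : ℕ) : ℝ) / 2 ^ (l + 1) := by
      push_cast
      rw [pow_succ]
      field_simp
    have e1 : ((p : ℝ) + 1) / 2 ^ l = (((2 * p + 1 : ℕ) : ℝ) + 1) / 2 ^ (l + 1) := by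
      push_cast
      rw [pow_succ]
      field_simp
      ring
    obtain ⟨P0, C0, a0, b0, c0, d0, s0⟩ := ih (l + 1) (2 * p) (by omega)
      (G ∩ {t | t < (2 * (p : ℝ) + 1) / 2 ^ (l + 1)}) (fun t ht => by
        refine ⟨by rw [← e0]; exact (hG t ht.1).1, ?_⟩
        have := ht.2
        push_cast
        exact this)
    obtain ⟨P1, C1, a1, b1, c1, d1, s1⟩ := ih (l + 1) (2 * p + 1) (by omega)
      (G ∩ {t | (2 * (p : ℝ) + 1) / 2 ^ (l + 1) ≤ t}) (fun t ht => by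
        refine ⟨?_, by rw [← e1]; exact (hG t ht.1).2⟩
        have := ht.2
        push_cast
        exact this)
    have q0 : ∀ t ∈ P0, t < (2 * (p : ℝ) + 1) / 2 ^ (l + 1) := fun t ht => (a0 ht).2
    have q1 : ∀ t ∈ P1, (2 * (p : ℝ) + 1) / 2 ^ (l + 1) ≤ t := fun t ht => (a1 ht).2
    have hPG : ((P0 ∪ P1 : Finset ℝ) : Set ℝ) ⊆ G := by
      intro t ht
      rw [Finset.coe_union] at ht
      rcases ht with ht | ht
      · exact (a0 ht).1
      · exact (a1 ht).1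
    have hfine : ∀ l', l + 1 ≤ l' → l' ≤ k → ∀ p' : ℕ,
        (cnt (P0 ∪ P1) l' p' : ℝ) ≤ ((2 : ℝ) ^ (k - l')) ^ τ := by
      intro l' hl1 hl2 p'
      rcases cnt_union hl1 P0 P1 q0 q1 p' with h1 | h1
      · exact le_trans (by exact_mod_cast h1) (b0 l' hl1 hl2 p')
      · exact le_trans (by exact_mod_cast h1) (b1 l' hl1 hl2 p')
    by_cases hcase : ((P0 ∪ P1).card : ℝ) ≤ ((2 : ℝ) ^ (k - l)) ^ τ
    · refine ⟨P0 ∪ P1, C0 ∪ C1, hPG, fun l' hl1 hl2 p' => ?_, ?_, ?_, ?_⟩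
      · rcases Nat.eq_or_lt_of_le hl1 with h1 | h1
        · subst h1
          exact le_trans (by exact_mod_cast cnt_le _ _ _) hcase
        · exact hfine l' h1 hl2 p'
      · intro c hc
        rcases Finset.mem_union.1 hc with h1 | h1
        · exact c0 c h1
        · exact c1 c h1
      · intro t ht
        rcases lt_or_ge t ((2 * (p : ℝ) + 1) / 2 ^ (l + 1)) with h1 | h1
        · obtain ⟨c, hc, hc2⟩ := d0 t ⟨ht, h1⟩
          exact ⟨c, Finset.mem_union_left _ hc, hc2⟩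
        · obtain ⟨c, hc, hc2⟩ := d1 t ⟨ht, h1⟩
          exact ⟨c, Finset.mem_union_right _ hc, hc2⟩
      · have hdisj : Disjoint P0 P1 := by
          rw [Finset.disjoint_left]
          intro t h1 h2
          exact absurd (q0 t h1) (not_lt.2 (q1 t h2))
        have hs : ∑ c ∈ C0 ∪ C1, (1 / (2 : ℝ) ^ c.1) ^ τ ≤
            ∑ c ∈ C0, (1 / (2 : ℝ) ^ c.1) ^ τ + ∑ c ∈ C1, (1 / (2 : ℝ) ^ c.1) ^ τ := by
          rw [← Finset.sum_union_inter]
          have : 0 ≤ ∑ c ∈ C0 ∩ C1, (1 / (2 : ℝ) ^ c.1) ^ τ :=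
            Finset.sum_nonneg fun c _ => by positivity
          linarith
        refine hs.trans ?_
        rw [Finset.card_union_of_disjoint hdisj]
        push_cast
        have e2 : 2 * ((P0.card : ℝ) + P1.card) / ((2 : ℝ) ^ k) ^ τ =
            2 * (P0.card : ℝ) / ((2 : ℝ) ^ k) ^ τ + 2 * (P1.card : ℝ) / ((2 : ℝ) ^ k) ^ τ := by
          ring
        rw [e2]
        exact add_le_add s0 s1
    · have hX := not_le.1 hcase
      set X : ℝ := ((2 : ℝ) ^ (k - l)) ^ τ with hXd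
      have hXge : 1 ≤ X := hX1 _
      have hm1 : 1 ≤ ⌊X⌋₊ := (Nat.one_le_floor_iff _).2 hXge
      have hm2 : (⌊X⌋₊ : ℝ) ≤ X := Nat.floor_le (by linarith)
      have hm3 : X < (⌊X⌋₊ : ℝ) + 1 := Nat.lt_floor_add_one X
      have hm4 : ⌊X⌋₊ ≤ (P0 ∪ P1).card := by
        have : (⌊X⌋₊ : ℝ) ≤ ((P0 ∪ P1).card : ℝ) := hm2.trans hX.le
        exact_mod_cast this
      obtain ⟨P', hP', hP'c⟩ := Finset.exists_subset_card_eq hm4
      refine ⟨P', {(l, p)}, fun t ht => hPG (hP' ht), fun l' hl1 hl2 p' => ?_, ?_, ?_, ?_⟩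
      · rcases Nat.eq_or_lt_of_le hl1 with h1 | h1
        · subst h1
          refine le_trans ?_ hm2
          rw [← hP'c]
          exact_mod_cast cnt_le _ _ _
        · exact le_trans (by exact_mod_cast cnt_mono hP' _ _) (hfine l' h1 hl2 p')
      · intro c hc
        rw [Finset.mem_singleton] at hc
        subst hc
        show l ≤ k
        omega
      · intro t ht
        exact ⟨(l, p), Finset.mem_singleton_self _, hG t ht⟩
      · rw [Finset.sum_singleton, hP'c, le_div_iff₀ hkpos, ← Real.mul_rpow (by positivity)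
          (by positivity)]
        have e2 : 1 / (2 : ℝ) ^ l * 2 ^ k = 2 ^ (k - l) := by
          have hk : k = l + (k - l) := by omega
          conv_lhs => rw [hk, pow_add]
          field_simp
        show (1 / (2 : ℝ) ^ l * 2 ^ k) ^ τ ≤ 2 * (⌊X⌋₊ : ℝ)
        rw [e2, ← hXd]
        have hm5 : (1 : ℝ) ≤ (⌊X⌋₊ : ℝ) := by exact_mod_cast hm1
        linarith

theorem t_FRO : S_FRO := by
  intro τ k G h0 _ hG
  obtain ⟨P, C, a, b, c, d, s⟩ := step τ k h0 k 0 0 (by omega) G (fun t ht => by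
    have := hG ht
    simp only [Nat.cast_zero, pow_zero, zero_add, div_one]
    exact this)
  exact ⟨P, C, a, fun l hl p => b l (Nat.zero_le _) hl p, c, d, s⟩

end Pool.Agent.H233.FH
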