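import Pool.Agent.H951.FH.Stm2

set_option autoImplicit false

/-!
# FW: all slopes and heights (by helper261)
-/

open MeasureTheory
open scoped Classical ENNReal NNReal

namespace Pool.Agent.H261.FH

open Pool.Agent.H951.FH

/-- the inverse of the affine map -/
noncomputable def Psi (d : ℕ) (m : ℤ) (g : Fin d → ℤ) (p : Fin (d + 1) → ℝ) : Fin (d + 1) → ℝ :=
  Fin.cons (p 0 - m) (fun i => p i.succ - (p 0 - m) * g i)

/-- the affine map -/
noncomputable def Phi (d : ℕ) (m : ℤ) (g : Fin d → ℤ) (p : Fin (d + 1) → ℝ) : Fin (d + 1) → ℝ :=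
  Fin.cons (p 0 + m) (fun i => p i.succ + p 0 * g i)

theorem Psi_Phi (d : ℕ) (m : ℤ) (g : Fin d → ℤ) (p : Fin (d + 1) → ℝ) :
    Psi d m g (Phi d m g p) = p := by
  funext i
  refine Fin.cases ?_ (fun j => ?_) i
  · unfold Psi Phi
    rw [Fin.cons_zero, Fin.cons_zero]
    ring
  · unfold Psi Phi
    rw [Fin.cons_succ, Fin.cons_succ, Fin.cons_zero]
    ring

theorem Psi_contDiff (d : ℕ) (m : ℤ) (g : Fin d → ℤ) : ContDiff ℝ 1 (Psi d m g) := by
  rw [contDiff_pi]
  intro i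
  refine Fin.cases ?_ (fun j => ?_) i
  · have e : (fun p : Fin (d + 1) → ℝ => Psi d m g p 0) =
        fun p : Fin (d + 1) → ℝ => p 0 - m := by
      funext p
      unfold Psi
      rw [Fin.cons_zero]
    rw [e]
    fun_prop
  · have e : (fun p : Fin (d + 1) → ℝ => Psi d m g p j.succ)
        = fun p : Fin (d + 1) → ℝ => p j.succ - (p 0 - m) * g j := by
      funext p
      unfold Psi
      rw [Fin.cons_succ]
    rw [e]
    fun_prop

theorem t_FW : S_FV → S_FW := by
  intro hFV d K V B τ hd hτ hτ1 hV hdim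
  -- the pieces
  let W : ℤ × (Fin d → ℤ) → Set (Fin d → ℝ) := fun z => {v | v ∈ V ∧
    ENNReal.ofReal τ < dimH {t : ℝ | t ∈ Set.Ico (z.1 : ℝ) (z.1 + 1) ∧
      (Fin.cons t (fun i => B v i + t * v i) : Fin (d + 1) → ℝ) ∈ K} ∧
    ∀ i, (z.2 i : ℝ) ≤ v i ∧ v i < z.2 i + 1}
  have hcov : V ⊆ ⋃ z, W z := by
    intro v hv
    have h1 := hdim v hv
    have h2 : {t : ℝ | (Fin.cons t (fun i => B v i + t * v i) : Fin (d + 1) → ℝ) ∈ K}
        = ⋃ m : ℤ, {t : ℝ | t ∈ Set.Ico (m : ℝ) (m + 1) ∧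
          (Fin.cons t (fun i => B v i + t * v i) : Fin (d + 1) → ℝ) ∈ K} := by
      ext t
      rw [Set.mem_iUnion]
      constructor
      · intro ht
        exact ⟨⌊t⌋, ⟨Int.floor_le t, Int.lt_floor_add_one t⟩, ht⟩
      · rintro ⟨m, _, ht⟩
        exact ht
    rw [h2, dimH_iUnion, lt_iSup_iff] at h1
    obtain ⟨m, hm⟩ := h1
    rw [Set.mem_iUnion]
    exact ⟨(m, fun i => ⌊v i⌋), hv, hm, fun i => ⟨Int.floor_le _, Int.lt_floor_add_one _⟩⟩
  obtain ⟨⟨m, g⟩, hW⟩ : ∃ z, volume (W z) ≠ 0 := by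
    by_contra hcon
    push Not at hcon
    exact hV (measure_mono_null hcov (measure_iUnion_null hcon))
  have key := hFV d (Phi d m g ⁻¹' K) ((fun v' => v' + fun i => (g i : ℝ)) ⁻¹' (W (m, g)))
    (fun v' i => B (v' + fun i => (g i : ℝ)) i + m * (v' i + g i)) τ hd hτ hτ1 ?_ ?_ ?_
  · refine key.trans ?_
    have hsub : Phi d m g ⁻¹' K ⊆ Psi d m g '' K := by
      intro p hp
      exact ⟨Phi d m g p, hp, Psi_Phi d m g p⟩
    refine (dimH_mono hsub).trans ?_
    exact (Psi_contDiff d m g).contDiffOn.dimH_image_le convex_univ (Set.subset_univ K)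
  · intro v' hv' i
    obtain ⟨_, _, h3⟩ := hv'
    have h4 := h3 i
    simp only [Pi.add_apply] at h4
    constructor
    · linarith [h4.1]
    · linarith [h4.2]
  · rw [measure_preimage_add_right]
    exact hW
  · intro v' hv'
    obtain ⟨_, h2, _⟩ := hv'
    have e : {t : ℝ | t ∈ Set.Ico (0 : ℝ) 1 ∧
        (Fin.cons t (fun i => (B (v' + fun i => (g i : ℝ)) i + m * (v' i + g i)) + t * v' i) :
          Fin (d + 1) → ℝ) ∈ Phi d m g ⁻¹' K}
        = (IsometryEquiv.addRight (m : ℝ)) ⁻¹' {t : ℝ | t ∈ Set.Ico (m : ℝ) (m + 1) ∧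
          (Fin.cons t (fun i => B (v' + fun i => (g i : ℝ)) i + t * (v' + fun i => (g i : ℝ)) i) :
            Fin (d + 1) → ℝ) ∈ K} := by
      ext t
      rw [Set.mem_preimage, IsometryEquiv.addRight_apply, Set.mem_setOf_eq, Set.mem_setOf_eq,
        Set.mem_preimage, Set.mem_Ico, Set.mem_Ico]
      have e1 : Phi d m g (Fin.cons t (fun i => (B (v' + fun i => (g i : ℝ)) i
          + m * (v' i + g i)) + t * v' i))
          = Fin.cons (t + m) (fun i => B (v' + fun i => (g i : ℝ)) i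
            + (t + m) * (v' + fun i => (g i : ℝ)) i) := by
        unfold Phi
        rw [Fin.cons_zero]
        congr 1
        funext i
        rw [Fin.cons_succ, Pi.add_apply]
        ring
      rw [e1]
      constructor
      · rintro ⟨⟨h3, h4⟩, h5⟩
        exact ⟨⟨by linarith, by linarith⟩, h5⟩
      · rintro ⟨⟨h3, h4⟩, h5⟩
        exact ⟨⟨by linarith, by linarith⟩, h5⟩
    rw [e, IsometryEquiv.dimH_preimage]
    exact h2

end Pool.Agent.H261.FH
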