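import Pool.Agent.H951.FH.Stm2

/-!
# Project FH, KAP: a set of large dimension has positive content
-/

set_option autoImplicit false

open MeasureTheory Filter Topology
open scoped Classical ENNReal NNReal

namespace Pool.Agent.H113.FH

open Pool.Agent.H951.FH

theorem t_KAP : S_KAP := by
  intro T τ _ hτ hdim
  by_contra hno
  push Not at hno
  have hm : ∀ m : ℕ, ∃ C : ℕ → Finset (ℕ × ℕ), (∀ t ∈ T, ∃ k, Cv (C k) {t}) ∧
      ∃ a : ℕ → ℝ, Summable a ∧ (∀ k, Sm τ (C k) ≤ a k) ∧ ∑' k, a k < 1 / ((m : ℝ) + 1) := by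
    intro m
    obtain ⟨C, h1, a, h2, h3, h4⟩ := hno (1 / ((m : ℝ) + 1)) (by positivity)
    exact ⟨C, h1, a, h2, h3, h4⟩
  choose C hC a ha1 ha2 ha3 using hm
  have hterm : ∀ c : ℕ × ℕ, 0 ≤ (1 / (2 : ℝ) ^ c.1) ^ τ := fun c => by positivity
  have hSm0 : ∀ D : Finset (ℕ × ℕ), 0 ≤ Sm τ D := fun D => Finset.sum_nonneg fun c _ => hterm c
  have ha0 : ∀ m k, 0 ≤ a m k := fun m k => (hSm0 _).trans (ha2 m k)
  have hlen : ∀ m k, ∀ c ∈ C m k, 1 / (2 : ℝ) ^ c.1 ≤ (1 / ((m : ℝ) + 1)) ^ (1 / τ) := by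
    intro m k c hc
    have h1 : (1 / (2 : ℝ) ^ c.1) ^ τ ≤ 1 / ((m : ℝ) + 1) := by
      have h2 : (1 / (2 : ℝ) ^ c.1) ^ τ ≤ Sm τ (C m k) :=
        Finset.single_le_sum (f := fun c : ℕ × ℕ => (1 / (2 : ℝ) ^ c.1) ^ τ) (fun c _ => hterm c) hc
      have h3 : a m k ≤ ∑' k, a m k := (ha1 m).le_tsum k fun j _ => ha0 m j
      exact h2.trans ((ha2 m k).trans (h3.trans (ha3 m).le))
    have h4 : 1 / (2 : ℝ) ^ c.1 = ((1 / (2 : ℝ) ^ c.1) ^ τ) ^ (1 / τ) := by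
      rw [← Real.rpow_mul (by positivity), mul_one_div_cancel hτ.ne', Real.rpow_one]
    rw [h4]
    exact Real.rpow_le_rpow (hterm c) h1 (by positivity)
  have hdi : ∀ c : ℕ × ℕ, Metric.ediam (Set.Ico ((c.2 : ℝ) / 2 ^ c.1) (((c.2 : ℝ) + 1) / 2 ^ c.1)) ≤
      ENNReal.ofReal (1 / (2 : ℝ) ^ c.1) := by
    intro c
    refine Metric.ediam_le fun x hx y hy => ?_
    rw [edist_dist]
    refine ENNReal.ofReal_le_ofReal ?_
    have h1 : ((c.2 : ℝ) + 1) / 2 ^ c.1 = (c.2 : ℝ) / 2 ^ c.1 + 1 / 2 ^ c.1 := add_div _ _ _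
    rw [Real.dist_eq, abs_le]
    obtain ⟨hx1, hx2⟩ := hx
    obtain ⟨hy1, hy2⟩ := hy
    constructor <;> linarith
  have hmain : μH[((⟨τ, hτ.le⟩ : ℝ≥0) : ℝ)] T ≠ ⊤ := by
    have h1 := Measure.hausdorffMeasure_le_liminf_tsum (X := ℝ) τ T (l := atTop)
      (fun m : ℕ => ENNReal.ofReal ((1 / ((m : ℝ) + 1)) ^ (1 / τ))) (by
        have h2 : Tendsto (fun m : ℕ => (1 / ((m : ℝ) + 1)) ^ (1 / τ)) atTop (𝓝 ((0 : ℝ) ^ (1 / τ))) :=
          (tendsto_one_div_add_atTop_nhds_zero_nat (𝕜 := ℝ)).rpow_const (Or.inr (by positivity))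
        rw [Real.zero_rpow (by positivity)] at h2
        have h3 := ENNReal.tendsto_ofReal h2
        rwa [ENNReal.ofReal_zero] at h3)
      (fun (m : ℕ) (i : Σ k : ℕ, {c // c ∈ C m k}) =>
        Set.Ico (((i.2 : ℕ × ℕ).2 : ℝ) / 2 ^ (i.2 : ℕ × ℕ).1) ((((i.2 : ℕ × ℕ).2 : ℝ) + 1) / 2 ^ (i.2 : ℕ × ℕ).1))
      (Eventually.of_forall fun m i =>
        (hdi (i.2 : ℕ × ℕ)).trans (ENNReal.ofReal_le_ofReal (hlen m i.1 _ i.2.2)))
      (Eventually.of_forall fun m t ht => by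
        obtain ⟨k, hk⟩ := hC m t ht
        obtain ⟨c, hc, h2, h3⟩ := hk t rfl
        exact Set.mem_iUnion.2 ⟨⟨k, c, hc⟩, h2, h3⟩)
    refine ne_top_of_le_ne_top (b := 1) ENNReal.one_ne_top (h1.trans ?_)
    refine (liminf_le_liminf (v := fun _ => (1 : ℝ≥0∞)) (Eventually.of_forall fun m => ?_)).trans ?_
    · rw [ENNReal.tsum_sigma']
      have h2 : ∀ k : ℕ, ∑' c : {c // c ∈ C m k},
          (Metric.ediam (Set.Ico (((c : ℕ × ℕ).2 : ℝ) / 2 ^ (c : ℕ × ℕ).1)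
            ((((c : ℕ × ℕ).2 : ℝ) + 1) / 2 ^ (c : ℕ × ℕ).1))) ^ τ ≤ ENNReal.ofReal (a m k) := by
        intro k
        rw [tsum_fintype]
        calc ∑ c : {c // c ∈ C m k}, (Metric.ediam (Set.Ico (((c : ℕ × ℕ).2 : ℝ) / 2 ^ (c : ℕ × ℕ).1)
              ((((c : ℕ × ℕ).2 : ℝ) + 1) / 2 ^ (c : ℕ × ℕ).1))) ^ τ
            ≤ ∑ c : {c // c ∈ C m k}, ENNReal.ofReal ((1 / (2 : ℝ) ^ (c : ℕ × ℕ).1) ^ τ) := by
              refine Finset.sum_le_sum fun c _ => ?_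
              rw [← ENNReal.ofReal_rpow_of_nonneg (by positivity) hτ.le]
              exact ENNReal.rpow_le_rpow (hdi (c : ℕ × ℕ)) hτ.le
          _ = ENNReal.ofReal (Sm τ (C m k)) := by
              unfold Sm
              rw [ENNReal.ofReal_sum_of_nonneg (fun c _ => hterm c)]
              exact Finset.sum_coe_sort (C m k) (fun c : ℕ × ℕ => ENNReal.ofReal ((1 / (2 : ℝ) ^ c.1) ^ τ))
          _ ≤ ENNReal.ofReal (a m k) := ENNReal.ofReal_le_ofReal (ha2 m k)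
      refine (ENNReal.tsum_le_tsum h2).trans ?_
      rw [← ENNReal.ofReal_tsum_of_nonneg (ha0 m) (ha1 m), ← ENNReal.ofReal_one]
      refine ENNReal.ofReal_le_ofReal ((ha3 m).le.trans ?_)
      rw [div_le_one (by positivity)]
      have : (0 : ℝ) ≤ m := Nat.cast_nonneg m
      linarith
    · rw [liminf_const]
  have h2 := dimH_le_of_hausdorffMeasure_ne_top hmain
  refine absurd hdim (not_lt.2 (h2.trans (le_of_eq ?_)))
  rw [ENNReal.ofReal, Real.toNNReal_of_nonneg hτ.le]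
  rfl

end Pool.Agent.H113.FH
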