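import Pool.Agent.H951.FH.Stm2

/-!
The numbers (project FH, part 2).
-/

set_option autoImplicit false

open Filter Topology

namespace Pool.Agent.H876.FH

open Pool.Agent.H951.FH

/-- exponentials beat powers -/
lemma beat (m : ℕ) (r K : ℝ) (h0 : 0 < r) (h1 : r < 1) :
    ∀ᶠ k : ℕ in atTop, K * ((k : ℝ) + 1) ^ m * r ^ k < 1 := by
  have h2 := tendsto_pow_const_mul_const_pow_of_abs_lt_one m (r := r) (by rw [abs_of_pos h0]; exact h1)
  have h3 := (tendsto_add_atTop_iff_nat 1).2 h2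
  have h4 := h3.const_mul (K * r⁻¹)
  rw [mul_zero] at h4
  have h5 := h4.eventually (gt_mem_nhds (show (0 : ℝ) < 1 by norm_num))
  filter_upwards [h5] with k hk
  have e : K * r⁻¹ * (((k + 1 : ℕ) : ℝ) ^ m * r ^ (k + 1)) = K * ((k : ℝ) + 1) ^ m * r ^ k := by
    rw [pow_succ]
    push_cast
    field_simp
  rw [← e]
  exact hk

theorem t_NB : S_NB := by
  intro d τ s hd hτ hτ1 hs hs2
  set L : ℝ := Real.log 2 with hL
  have hL0 : 0 < L := Real.log_pos (by norm_num)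
  have h2L : Real.exp L = 2 := Real.exp_log (by norm_num)
  set g : ℝ := 4 * τ + d - 1 - 2 * s with hg
  have hg0 : 0 < g := by rw [hg]; linarith
  have hd1 : (1 : ℝ) ≤ d := by exact_mod_cast hd
  -- the small number
  obtain ⟨ε, hε0, hε1, hε2⟩ : ∃ ε : ℝ, 0 < ε ∧ 2 * ε / τ ≤ L ∧ (6 + 2 * d / τ) * ε < g * L := by
    have hq : 0 < 6 + 2 * d / τ := by positivity
    refine ⟨min (L * τ / 2) (g * L / (6 + 2 * d / τ) / 2), ?_, ?_, ?_⟩
    · apply lt_min <;> positivity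
    · rw [div_le_iff₀ hτ]
      have := min_le_left (L * τ / 2) (g * L / (6 + 2 * d / τ) / 2)
      linarith
    · have h1 := min_le_right (L * τ / 2) (g * L / (6 + 2 * d / τ) / 2)
      have h2 : 0 < g * L := by positivity
      calc (6 + 2 * d / τ) * min (L * τ / 2) (g * L / (6 + 2 * d / τ) / 2)
          ≤ (6 + 2 * d / τ) * (g * L / (6 + 2 * d / τ) / 2) := mul_le_mul_of_nonneg_left h1 hq.le
        _ = g * L / 2 := by field_simp
        _ < g * L := by linarith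
  set b : ℝ := Real.exp (-ε) with hb
  have hb0 : 0 < b := Real.exp_pos _
  have hb1 : b < 1 := by rw [hb, Real.exp_lt_one_iff]; linarith
  set T : ℝ := Real.exp (τ * L) with hT
  have hT0 : 0 < T := Real.exp_pos _
  set Y : ℝ := Real.exp (L - 2 * ε / τ) with hY
  have hY0 : 0 < Y := Real.exp_pos _
  have hY1 : 1 ≤ Y := by rw [hY, Real.one_le_exp_iff]; linarith
  have hY2 : Y ≤ 2 := by
    rw [← h2L, hY, Real.exp_le_exp]
    have : 0 < 2 * ε / τ := by positivity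
    linarith
  set S : ℝ := Real.exp (s * L) with hS
  have hS0 : 0 < S := Real.exp_pos _
  have hTk : ∀ k : ℕ, ((2 : ℝ) ^ k) ^ τ = T ^ k := by
    intro k
    rw [← h2L, ← Real.exp_nat_mul, ← Real.exp_mul, hT, ← Real.exp_nat_mul]
    congr 1
    ring
  have hSk : ∀ k : ℕ, (2 : ℝ) ^ (s * ((k : ℝ) + 1)) = S ^ (k + 1) := by
    intro k
    rw [← h2L, ← Real.exp_mul, hS, ← Real.exp_nat_mul]
    congr 1
    push_cast
    ring
  have hYτ : Y ^ τ = T * b ^ 2 := by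
    rw [hY, hT, hb, ← Real.exp_mul, ← Real.exp_nat_mul, ← Real.exp_add]
    congr 1
    push_cast
    field_simp
    ring
  set Λ : ℝ := Real.exp (g * L - (6 + 2 * d / τ) * ε) with hΛ
  have hΛ0 : 0 < Λ := Real.exp_pos _
  have hΛ1 : 1 < Λ := by rw [hΛ, Real.one_lt_exp_iff]; linarith
  have hΛe : b ^ 6 * T ^ 4 * Y ^ d = Λ * (2 * S ^ 2) := by
    have e2 : (2 : ℝ) * S ^ 2 = Real.exp (L + 2 * s * L) := by
      rw [hS, ← Real.exp_nat_mul, Real.exp_add, h2L]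
      congr 2
      push_cast
      ring
    rw [e2, hb, hT, hY, hΛ, ← Real.exp_nat_mul, ← Real.exp_nat_mul, ← Real.exp_nat_mul,
      ← Real.exp_add, ← Real.exp_add, ← Real.exp_add]
    congr 1
    rw [hg]
    push_cast
    ring
  refine ⟨b, b, hb0, hb1, hb0, hb1, ?_⟩
  intro x C hx hC
  set K : ℝ := C * S ^ 2 * (16 * 2 ^ d) / x ^ 2 with hK
  have hK0 : 0 < K := by positivity
  have E1 := beat 3 b 768 hb0 hb1
  have E2 := beat 11 Λ⁻¹ K (by positivity) (inv_lt_one_of_one_lt₀ hΛ1)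
  obtain ⟨k1, hk1⟩ := eventually_atTop.1 (E1.and E2)
  refine ⟨k1, ?_⟩
  intro k hk
  obtain ⟨F1, F2⟩ := hk1 k hk
  have hYk : 1 ≤ Y ^ k := one_le_pow₀ hY1
  have hr1 : 1 ≤ ⌊Y ^ k⌋₊ := by
    rw [Nat.one_le_floor_iff]; exact hYk
  have hrle : (⌊Y ^ k⌋₊ : ℝ) ≤ Y ^ k := Nat.floor_le (by positivity)
  have hrge : Y ^ k / 2 ≤ (⌊Y ^ k⌋₊ : ℝ) := by
    have h1 := Nat.lt_floor_add_one (Y ^ k)
    have h2 : (1 : ℝ) ≤ (⌊Y ^ k⌋₊ : ℝ) := by exact_mod_cast hr1
    linarith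
  refine ⟨⌊Y ^ k⌋₊, hr1, ?_, ?_, ?_⟩
  · have h1 : (⌊Y ^ k⌋₊ : ℝ) ≤ ((2 ^ k : ℕ) : ℝ) := by
      push_cast
      exact hrle.trans (pow_le_pow_left₀ hY0.le hY2 k)
    exact_mod_cast h1
  · rw [hTk]
    have h1 : (2 * (⌊Y ^ k⌋₊ : ℝ)) ^ τ ≤ 2 * (T ^ k * (b ^ k) ^ 2) := by
      calc (2 * (⌊Y ^ k⌋₊ : ℝ)) ^ τ ≤ (2 * Y ^ k) ^ τ :=
            Real.rpow_le_rpow (by positivity) (by linarith) hτ.le
        _ = 2 ^ τ * (Y ^ τ) ^ k := by
            rw [Real.mul_rpow (by norm_num) (by positivity)]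
            congr 1
            rw [← Real.rpow_natCast, ← Real.rpow_mul hY0.le, ← Real.rpow_natCast,
              ← Real.rpow_mul hY0.le, mul_comm]
        _ = 2 ^ τ * (T ^ k * (b ^ k) ^ 2) := by
            rw [hYτ, mul_pow]
            congr 2
            rw [← pow_mul, ← pow_mul, mul_comm]
        _ ≤ 2 * (T ^ k * (b ^ k) ^ 2) := by
            apply mul_le_mul_of_nonneg_right _ (by positivity)
            calc (2 : ℝ) ^ τ ≤ 2 ^ (1 : ℝ) := Real.rpow_le_rpow_of_exponent_le (by norm_num) hτ1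
              _ = 2 := Real.rpow_one 2
    have h2 : (0 : ℝ) < 64 * ((k : ℝ) + 1) ^ 3 := by positivity
    rw [le_div_iff₀ h2]
    have h3 : 0 < T ^ k * b ^ k := by positivity
    calc 3 * (2 * (⌊Y ^ k⌋₊ : ℝ)) ^ τ * (64 * ((k : ℝ) + 1) ^ 3)
        ≤ 3 * (2 * (T ^ k * (b ^ k) ^ 2)) * (64 * ((k : ℝ) + 1) ^ 3) := by
          apply mul_le_mul_of_nonneg_right _ h2.le
          linarith
      _ = (T ^ k * b ^ k) / 2 * (768 * ((k : ℝ) + 1) ^ 3 * b ^ k) := by ring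
      _ ≤ (T ^ k * b ^ k) / 2 * 1 := by
          apply mul_le_mul_of_nonneg_left F1.le
          positivity
      _ = b ^ k * T ^ k / 2 := by ring
  · rw [hTk, hSk]
    have hP : 0 < x ^ 2 / (16 * 2 ^ d) * (Λ * (2 * S ^ 2)) ^ k := by positivity
    calc C * ((k : ℝ) + 1) ^ 11 * 2 ^ k * (S ^ (k + 1)) ^ 2
        = x ^ 2 / (16 * 2 ^ d) * (Λ * (2 * S ^ 2)) ^ k * (K * ((k : ℝ) + 1) ^ 11 * Λ⁻¹ ^ k) := by
          have e1 : (S ^ (k + 1)) ^ 2 = (S ^ 2) ^ k * S ^ 2 := by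
            rw [← pow_mul, ← pow_mul, ← pow_add]
            congr 1
            ring
          have e2 : (Λ * (2 * S ^ 2)) ^ k * Λ⁻¹ ^ k = (2 : ℝ) ^ k * (S ^ 2) ^ k := by
            rw [← mul_pow, ← mul_pow]
            congr 1
            field_simp
          have e3 : x ^ 2 / (16 * 2 ^ d) * (Λ * (2 * S ^ 2)) ^ k * (K * ((k : ℝ) + 1) ^ 11 * Λ⁻¹ ^ k)
              = (x ^ 2 / (16 * 2 ^ d) * K) * ((k : ℝ) + 1) ^ 11 *
                ((Λ * (2 * S ^ 2)) ^ k * Λ⁻¹ ^ k) := by ring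
          have e4 : x ^ 2 / (16 * 2 ^ d) * K = C * S ^ 2 := by
            rw [hK]
            field_simp
          rw [e1, e3, e2, e4]
          ring
      _ < x ^ 2 / (16 * 2 ^ d) * (Λ * (2 * S ^ 2)) ^ k * 1 := mul_lt_mul_of_pos_left F2 hP
      _ = (x * b ^ k) ^ 2 * (b ^ k * T ^ k / 2) ^ 4 * (Y ^ k / 2) ^ d := by
          rw [← hΛe]
          rw [mul_pow, mul_pow, mul_pow, div_pow, div_pow, mul_pow]
          rw [← pow_mul b 6 k, ← pow_mul T 4 k, ← pow_mul Y d k, ← pow_mul b k 2, ← pow_mul b k 4,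
            ← pow_mul T k 4, ← pow_mul Y k d]
          rw [mul_comm d k, mul_comm k 2, mul_comm k 4, mul_comm 6 k]
          have e5 : b ^ (k * 6) = b ^ (2 * k) * b ^ (4 * k) := by
            rw [← pow_add]; congr 1; ring
          rw [e5]
          field_simp
          ring
      _ ≤ (x * b ^ k) ^ 2 * (b ^ k * T ^ k / 2) ^ 4 * (⌊Y ^ k⌋₊ : ℝ) ^ d := by
          apply mul_le_mul_of_nonneg_left _ (by positivity)
          exact pow_le_pow_left₀ (by positivity) hrge d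

end Pool.Agent.H876.FH
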