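import Pool.Agent.H951.FH.Stm2

/-!
# Project FH, part 2: the inequality at one scale
-/

set_option autoImplicit false

open MeasureTheory
open scoped Classical ENNReal NNReal

namespace Pool.Agent.H17.FH

open Pool.Agent.H951.FH

theorem vol_cube (d n : ℕ) (hn : 1 ≤ n) (g : Fin d → ℤ) :
    volume {v : Fin d → ℝ | ∀ i, ⌊(n : ℝ) * v i⌋ = g i} ≤ ENNReal.ofReal ((1 / (n : ℝ)) ^ d) := by
  have hn0 : (0 : ℝ) < n := by exact_mod_cast hn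
  have hsub : {v : Fin d → ℝ | ∀ i, ⌊(n : ℝ) * v i⌋ = g i} ⊆
      Set.Icc (fun i => (g i : ℝ) / n) (fun i => ((g i : ℝ) + 1) / n) := by
    intro v hv
    have hv' : ∀ i, ⌊(n : ℝ) * v i⌋ = g i := hv
    constructor
    · intro i
      have h1 : (g i : ℝ) ≤ (n : ℝ) * v i := by rw [← hv' i]; exact Int.floor_le _
      show (g i : ℝ) / n ≤ v i
      rw [div_le_iff₀ hn0]
      linarith
    · intro i
      have h1 : (n : ℝ) * v i < (g i : ℝ) + 1 := by rw [← hv' i]; exact Int.lt_floor_add_one _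
      show v i ≤ ((g i : ℝ) + 1) / n
      rw [le_div_iff₀ hn0]
      linarith
  refine (measure_mono hsub).trans ?_
  rw [Real.volume_Icc_pi]
  have e : ∀ i : Fin d, ENNReal.ofReal (((g i : ℝ) + 1) / n - (g i : ℝ) / n) = ENNReal.ofReal (1 / n) := by
    intro i
    congr 1
    ring
  rw [Finset.prod_congr rfl (fun i _ => e i), Finset.prod_const, Finset.card_univ, Fintype.card_fin,
    ENNReal.ofReal_pow (by positivity)]

/-- representatives of the grid cubes which meet `W` -/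
theorem disc (d k : ℕ) (W : Set (Fin d → ℝ)) (hW : ∀ v ∈ W, ∀ i, 0 ≤ v i ∧ v i ≤ 1) (x1 : ℝ)
    (h1 : ENNReal.ofReal x1 ≤ volume W) :
    ∃ (Ω : Type) (_ : Fintype Ω) (D : Ω → Fin d → ℝ), (∀ ω, D ω ∈ W) ∧ Fam (2 ^ k) D ∧
      x1 * ((2 : ℝ) ^ k) ^ d ≤ (Fintype.card Ω : ℝ) := by
  obtain ⟨n, hn⟩ : ∃ n : ℕ, n = 2 ^ k := ⟨_, rfl⟩
  have hn1 : 1 ≤ n := by rw [hn]; exact Nat.one_le_two_pow
  have hn0 : (0 : ℝ) < n := by exact_mod_cast hn1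
  have hnR : (n : ℝ) = (2 : ℝ) ^ k := by rw [hn]; push_cast; rfl
  rw [← hn, ← hnR]
  let fl : (Fin d → ℝ) → Fin d → ℤ := fun v i => ⌊(n : ℝ) * v i⌋
  have hfin : (fl '' W).Finite := by
    apply Set.Finite.subset (Fintype.piFinset (fun _ : Fin d => Finset.Icc (0 : ℤ) n)).finite_toSet
    rintro g ⟨v, hv, rfl⟩
    rw [Finset.mem_coe, Fintype.mem_piFinset]
    intro i
    rw [Finset.mem_Icc]
    have h3 := hW v hv i
    constructor
    · exact Int.floor_nonneg.2 (mul_nonneg hn0.le h3.1)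
    · have h4 : (n : ℝ) * v i ≤ (n : ℤ) := by
        push_cast
        nlinarith
      exact Int.cast_le.1 ((Int.floor_le _).trans h4)
  obtain ⟨G, hG⟩ : ∃ G : Finset (Fin d → ℤ), G = hfin.toFinset := ⟨_, rfl⟩
  have hmemG : ∀ g, g ∈ G ↔ ∃ v ∈ W, fl v = g := by
    intro g
    rw [hG, Set.Finite.mem_toFinset]
    rfl
  have hex : ∀ ω : {g // g ∈ G}, ∃ v ∈ W, fl v = ω.1 := fun ω => (hmemG ω.1).1 ω.2
  choose D hDW hDfl using hex
  have hfam : Fam n D := ⟨hn1, fun ω i => (hW _ (hDW ω) i).1, fun ω i => (hW _ (hDW ω) i).2,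
    fun ω ω' h => by
      apply Subtype.ext
      rw [← hDfl ω, ← hDfl ω']
      exact funext h⟩
  have hcardG : x1 * (n : ℝ) ^ d ≤ (Fintype.card {g // g ∈ G} : ℝ) := by
    have hsub : W ⊆ ⋃ g ∈ G, {v : Fin d → ℝ | ∀ i, ⌊(n : ℝ) * v i⌋ = g i} := by
      intro v hv
      rw [Set.mem_iUnion₂]
      exact ⟨fl v, (hmemG _).2 ⟨v, hv, rfl⟩, fun i => rfl⟩
    have h3 : ENNReal.ofReal x1 ≤ ENNReal.ofReal ((G.card : ℝ) * (1 / (n : ℝ)) ^ d) := by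
      calc ENNReal.ofReal x1 ≤ volume W := h1
        _ ≤ volume (⋃ g ∈ G, {v : Fin d → ℝ | ∀ i, ⌊(n : ℝ) * v i⌋ = g i}) := measure_mono hsub
        _ ≤ ∑ g ∈ G, volume {v : Fin d → ℝ | ∀ i, ⌊(n : ℝ) * v i⌋ = g i} :=
            measure_biUnion_finset_le _ _
        _ ≤ ∑ _g ∈ G, ENNReal.ofReal ((1 / (n : ℝ)) ^ d) :=
            Finset.sum_le_sum fun g _ => vol_cube d n hn1 g
        _ = _ := by
            rw [Finset.sum_const, nsmul_eq_mul, ENNReal.ofReal_mul (by positivity),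
              ENNReal.ofReal_natCast]
    have h4 := (ENNReal.ofReal_le_ofReal_iff (by positivity)).1 h3
    rw [Fintype.card_coe]
    calc x1 * (n : ℝ) ^ d ≤ ((G.card : ℝ) * (1 / (n : ℝ)) ^ d) * (n : ℝ) ^ d :=
          mul_le_mul_of_nonneg_right h4 (by positivity)
      _ = (G.card : ℝ) * ((1 / (n : ℝ)) * n) ^ d := by rw [mul_pow]; ring
      _ = G.card := by
          rw [one_div, inv_mul_cancel₀ hn0.ne', one_pow, mul_one]
  exact ⟨{g // g ∈ G}, inferInstance, D, hDW, hfam, hcardG⟩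

/-- the shading -/
noncomputable def EE {Λ : Type} [Fintype Λ] (k : ℕ) (P : Λ → Finset ℝ) : Finset (Λ × ℕ) :=
  (Finset.univ ×ˢ Finset.range (2 ^ k)).filter (fun z => ∃ t ∈ P z.1, ⌊(2 : ℝ) ^ k * t⌋₊ = z.2)

section

variable {Λ : Type} [Fintype Λ] (k : ℕ) (P : Λ → Finset ℝ)

theorem mem_EE (z : Λ × ℕ) : z ∈ EE k P ↔ z.2 < 2 ^ k ∧ ∃ t ∈ P z.1, ⌊(2 : ℝ) ^ k * t⌋₊ = z.2 := by
  unfold EE
  rw [Finset.mem_filter, Finset.mem_product, Finset.mem_range]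
  simp

/-- a dyadic interval in terms of the floor -/
theorem dy (l s p : ℕ) (hls : l + s = k) (t : ℝ) (ht : 0 ≤ t)
    (h1 : p * 2 ^ s ≤ ⌊(2 : ℝ) ^ k * t⌋₊) (h2 : ⌊(2 : ℝ) ^ k * t⌋₊ < (p + 1) * 2 ^ s) :
    (p : ℝ) / 2 ^ l ≤ t ∧ t < ((p : ℝ) + 1) / 2 ^ l := by
  have h0 : 0 ≤ (2 : ℝ) ^ k * t := by positivity
  have e : (2 : ℝ) ^ k = 2 ^ l * 2 ^ s := by rw [← hls, pow_add]
  have hs : (0 : ℝ) < 2 ^ s := by positivity
  have hl : (0 : ℝ) < 2 ^ l := by positivity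
  constructor
  · have h3 : ((p * 2 ^ s : ℕ) : ℝ) ≤ (2 : ℝ) ^ k * t := (Nat.cast_le.2 h1).trans (Nat.floor_le h0)
    push_cast at h3
    rw [e] at h3
    rw [div_le_iff₀ hl]
    have : (p : ℝ) * 2 ^ s ≤ (t * 2 ^ l) * 2 ^ s := by linarith
    exact le_of_mul_le_mul_right this hs
  · have h3 : (2 : ℝ) ^ k * t < (((p + 1) * 2 ^ s : ℕ) : ℝ) := by
      have h4 : (2 : ℝ) ^ k * t < (⌊(2 : ℝ) ^ k * t⌋₊ : ℝ) + 1 := Nat.lt_floor_add_one _
      have h5 : ((⌊(2 : ℝ) ^ k * t⌋₊ : ℕ) : ℝ) + 1 ≤ (((p + 1) * 2 ^ s : ℕ) : ℝ) := by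
        exact_mod_cast h2
      linarith
    push_cast at h3
    rw [e] at h3
    rw [lt_div_iff₀ hl]
    have : (t * 2 ^ l) * 2 ^ s < ((p : ℝ) + 1) * 2 ^ s := by linarith
    exact lt_of_mul_lt_mul_right this hs.le

variable (τ : ℝ) (h01 : ∀ w, (P w : Set ℝ) ⊆ Set.Ico 0 1)
  (hfr : ∀ w, ∀ l ≤ k, ∀ p : ℕ, (((P w).filter fun t => (p : ℝ) / 2 ^ l ≤ t ∧
      t < ((p : ℝ) + 1) / 2 ^ l).card : ℝ) ≤ ((2 : ℝ) ^ (k - l)) ^ τ)

include h01 hfr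

set_option linter.unusedSectionVars false

theorem inj_floor (w : Λ) : Set.InjOn (fun t : ℝ => ⌊(2 : ℝ) ^ k * t⌋₊) (P w : Set ℝ) := by
  intro t ht t' ht' he
  have he' : ⌊(2 : ℝ) ^ k * t⌋₊ = ⌊(2 : ℝ) ^ k * t'⌋₊ := he
  have h := hfr w k le_rfl ⌊(2 : ℝ) ^ k * t⌋₊
  rw [Nat.sub_self, pow_zero, Real.one_rpow] at h
  have h' : ((P w).filter fun s => ((⌊(2 : ℝ) ^ k * t⌋₊ : ℕ) : ℝ) / 2 ^ k ≤ s ∧
      s < (((⌊(2 : ℝ) ^ k * t⌋₊ : ℕ) : ℝ) + 1) / 2 ^ k).card ≤ 1 := by exact_mod_cast h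
  rw [Finset.card_le_one] at h'
  apply h'
  · rw [Finset.mem_filter]
    refine ⟨ht, dy k k 0 _ (by omega) t (h01 w ht).1 (by simp) (by simp)⟩
  · rw [Finset.mem_filter]
    refine ⟨ht', dy k k 0 _ (by omega) t' (h01 w ht').1 (by rw [he']; simp) (by rw [he']; simp)⟩

theorem card_fib (w : Λ) : (P w).card ≤ ((EE k P).filter fun z => z.1 = w).card := by
  apply Finset.card_le_card_of_injOn (fun t => (w, ⌊(2 : ℝ) ^ k * t⌋₊))
  · intro t ht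
    rw [Finset.mem_coe, Finset.mem_filter, mem_EE]
    refine ⟨⟨?_, t, ht, rfl⟩, rfl⟩
    have h := h01 w ht
    show ⌊(2 : ℝ) ^ k * t⌋₊ < 2 ^ k
    rw [Nat.floor_lt (mul_nonneg (by positivity) h.1)]
    push_cast
    have := h.2
    have h2 : (0 : ℝ) < 2 ^ k := by positivity
    nlinarith
  · intro t ht t' ht' he
    exact inj_floor k P τ h01 hfr w ht ht' (congrArg Prod.snd he)

theorem card_EE (σ : ℝ) (hσ : ∀ w, σ ≤ (P w).card) : (Fintype.card Λ : ℝ) * σ ≤ (EE k P).card := by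
  have e : (EE k P).card = ∑ w : Λ, ((EE k P).filter fun z => z.1 = w).card :=
    Finset.card_eq_sum_card_fiberwise (f := Prod.fst) (t := Finset.univ) (fun z _ => Finset.mem_coe.2 (Finset.mem_univ _))
  rw [e]
  push_cast
  calc (Fintype.card Λ : ℝ) * σ = ∑ _w : Λ, σ := by
        rw [Finset.sum_const, nsmul_eq_mul, Finset.card_univ]
    _ ≤ _ := Finset.sum_le_sum fun w _ => (hσ w).trans (by exact_mod_cast card_fib k P τ h01 hfr w)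

theorem shd (hτ : 0 < τ) : Shd (2 ^ k) 3 τ (EE k P) := by
  refine ⟨fun z hz => ((mem_EE k P z).1 hz).1, fun w a m hm => ?_⟩
  have hsub : ((EE k P).filter fun z => z.1 = w ∧ a ≤ z.2 ∧ z.2 < a + m) ⊆
      ((P w).filter fun t => a ≤ ⌊(2 : ℝ) ^ k * t⌋₊ ∧ ⌊(2 : ℝ) ^ k * t⌋₊ < a + m).image
        (fun t => (w, ⌊(2 : ℝ) ^ k * t⌋₊)) := by
    intro z hz
    rw [Finset.mem_filter, mem_EE] at hz
    obtain ⟨⟨_, t, ht, he⟩, rfl, h3, h4⟩ := hz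
    rw [Finset.mem_image]
    refine ⟨t, ?_, ?_⟩
    · rw [Finset.mem_filter]
      exact ⟨ht, by rw [he]; exact h3, by rw [he]; exact h4⟩
    · rw [he]
  have hc1 : (((EE k P).filter fun z => z.1 = w ∧ a ≤ z.2 ∧ z.2 < a + m).card : ℝ) ≤
      ((P w).filter fun t => a ≤ ⌊(2 : ℝ) ^ k * t⌋₊ ∧ ⌊(2 : ℝ) ^ k * t⌋₊ < a + m).card := by
    exact_mod_cast (Finset.card_le_card hsub).trans Finset.card_image_le
  refine hc1.trans ?_
  have hm0 : (0 : ℝ) < m := by exact_mod_cast hm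
  have hmτ : 0 < (m : ℝ) ^ τ := Real.rpow_pos_of_pos hm0 _
  rcases le_or_gt m (2 ^ k) with hmk | hmk
  · -- blocks of length `2 ^ s`
    obtain ⟨s, hs⟩ : ∃ s : ℕ, s = Nat.log 2 m := ⟨_, rfl⟩
    have hs1 : 2 ^ s ≤ m := by rw [hs]; exact Nat.pow_log_le_self 2 (by omega)
    have hs2 : m < 2 ^ (s + 1) := by rw [hs]; exact Nat.lt_pow_succ_log_self (by norm_num) m
    have hsk : s ≤ k := (Nat.pow_le_pow_iff_right (by norm_num)).1 (hs1.trans hmk)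
    have hls : (k - s) + s = k := by omega
    have h2s : 0 < 2 ^ s := by positivity
    have hcov : ((P w).filter fun t => a ≤ ⌊(2 : ℝ) ^ k * t⌋₊ ∧ ⌊(2 : ℝ) ^ k * t⌋₊ < a + m) ⊆
        (Finset.range 3).biUnion fun i => ((P w).filter fun t =>
          ((a / 2 ^ s + i : ℕ) : ℝ) / 2 ^ (k - s) ≤ t ∧ t < (((a / 2 ^ s + i : ℕ) : ℝ) + 1) / 2 ^ (k - s)) := by
      intro t ht
      rw [Finset.mem_filter] at ht
      obtain ⟨ht, h3, h4⟩ := ht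
      rw [Finset.mem_biUnion]
      have hlo : a / 2 ^ s * 2 ^ s ≤ a := Nat.div_mul_le_self _ _
      have hhi : a < (a / 2 ^ s + 1) * 2 ^ s := by
        rw [mul_comm]; exact Nat.lt_mul_div_succ a h2s
      have hJ : ⌊(2 : ℝ) ^ k * t⌋₊ < (a / 2 ^ s + 3) * 2 ^ s := by
        have : 2 ^ (s + 1) = 2 * 2 ^ s := by ring
        nlinarith
      have hJ2 : a / 2 ^ s * 2 ^ s ≤ ⌊(2 : ℝ) ^ k * t⌋₊ := hlo.trans h3
      have hq1 : a / 2 ^ s ≤ ⌊(2 : ℝ) ^ k * t⌋₊ / 2 ^ s := (Nat.le_div_iff_mul_le h2s).2 hJ2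
      have hq2 : ⌊(2 : ℝ) ^ k * t⌋₊ / 2 ^ s < a / 2 ^ s + 3 := (Nat.div_lt_iff_lt_mul h2s).2 hJ
      have hqi : a / 2 ^ s + (⌊(2 : ℝ) ^ k * t⌋₊ / 2 ^ s - a / 2 ^ s) = ⌊(2 : ℝ) ^ k * t⌋₊ / 2 ^ s := by
        omega
      refine ⟨⌊(2 : ℝ) ^ k * t⌋₊ / 2 ^ s - a / 2 ^ s, Finset.mem_range.2 (by omega), ?_⟩
      rw [Finset.mem_filter]
      refine ⟨ht, dy k (k - s) s _ hls t (h01 w ht).1 ?_ ?_⟩
      · rw [hqi]; exact Nat.div_mul_le_self _ _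
      · rw [hqi, mul_comm (⌊(2 : ℝ) ^ k * t⌋₊ / 2 ^ s + 1)]; exact Nat.lt_mul_div_succ _ h2s
    have h5 : (((P w).filter fun t => a ≤ ⌊(2 : ℝ) ^ k * t⌋₊ ∧ ⌊(2 : ℝ) ^ k * t⌋₊ < a + m).card : ℝ) ≤
        ∑ i ∈ Finset.range 3, (((P w).filter fun t =>
          ((a / 2 ^ s + i : ℕ) : ℝ) / 2 ^ (k - s) ≤ t ∧
            t < (((a / 2 ^ s + i : ℕ) : ℝ) + 1) / 2 ^ (k - s)).card : ℝ) := by
      exact_mod_cast (Finset.card_le_card hcov).trans Finset.card_biUnion_le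
    refine h5.trans ?_
    have h6 : ∀ i ∈ Finset.range 3, (((P w).filter fun t =>
          ((a / 2 ^ s + i : ℕ) : ℝ) / 2 ^ (k - s) ≤ t ∧
            t < (((a / 2 ^ s + i : ℕ) : ℝ) + 1) / 2 ^ (k - s)).card : ℝ) ≤ (m : ℝ) ^ τ := by
      intro i _
      refine (hfr w (k - s) (Nat.sub_le _ _) (a / 2 ^ s + i)).trans ?_
      have e : k - (k - s) = s := by omega
      rw [e]
      refine Real.rpow_le_rpow (by positivity) ?_ hτ.le
      exact_mod_cast hs1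
    refine (Finset.sum_le_sum h6).trans ?_
    rw [Finset.sum_const, Finset.card_range, nsmul_eq_mul]
    norm_num
  · have hcov : ((P w).filter fun t => a ≤ ⌊(2 : ℝ) ^ k * t⌋₊ ∧ ⌊(2 : ℝ) ^ k * t⌋₊ < a + m) ⊆
        ((P w).filter fun t => ((0 : ℕ) : ℝ) / 2 ^ 0 ≤ t ∧ t < (((0 : ℕ) : ℝ) + 1) / 2 ^ 0) := by
      intro t ht
      rw [Finset.mem_filter] at ht ⊢
      refine ⟨ht.1, ?_, ?_⟩
      · have := (h01 w ht.1).1
        simpa using this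
      · have := (h01 w ht.1).2
        simpa using this
    have h5 := hfr w 0 (Nat.zero_le _) 0
    have h6 : (((P w).filter fun t => a ≤ ⌊(2 : ℝ) ^ k * t⌋₊ ∧ ⌊(2 : ℝ) ^ k * t⌋₊ < a + m).card : ℝ) ≤
        (((P w).filter fun t => ((0 : ℕ) : ℝ) / 2 ^ 0 ≤ t ∧ t < (((0 : ℕ) : ℝ) + 1) / 2 ^ 0).card : ℝ) := by
      exact_mod_cast Finset.card_le_card hcov
    refine (h6.trans h5).trans ?_
    have h7 : ((2 : ℝ) ^ (k - 0)) ^ τ ≤ (m : ℝ) ^ τ := by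
      refine Real.rpow_le_rpow (by positivity) ?_ hτ.le
      rw [Nat.sub_zero]
      exact_mod_cast hmk.le
    linarith

end

/-- the number of cells -/
theorem cells {Λ : Type} [Fintype Λ] (d k : ℕ) (D B : Λ → Fin d → ℝ) (P : Λ → Finset ℝ)
    (Q : Finset (Fin (d + 1) → ℤ)) (hD : ∀ w i, 0 ≤ D w i ∧ D w i ≤ 1)
    (h01 : ∀ w, (P w : Set ℝ) ⊆ Set.Ico 0 1)
    (hQ : ∀ w, ∀ t ∈ P w, ∃ q ∈ Q, |(2 : ℝ) ^ k * t - q 0| < 3 ∧
      ∀ i : Fin d, |(2 : ℝ) ^ k * (B w i + t * D w i) - q i.succ| < 3) :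
    (((EE k P).image fun z => (z.2, cel (fun w i => (2 : ℝ) ^ k * B w i) D z.2 z.1)).card : ℝ) ≤
      8 ^ (d + 1) * Q.card := by
  have hsub : ((EE k P).image fun z => (z.2, cel (fun w i => (2 : ℝ) ^ k * B w i) D z.2 z.1)) ⊆
      (Q ×ˢ Fintype.piFinset (fun _ : Fin (d + 1) => Finset.Icc (-4 : ℤ) 3)).image
        (fun x => ((x.1 0 + x.2 0).toNat, fun i : Fin d => x.1 i.succ + x.2 i.succ)) := by
    intro y hy
    rw [Finset.mem_image] at hy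
    obtain ⟨z, hz, rfl⟩ := hy
    rw [mem_EE] at hz
    obtain ⟨_, t, ht, he⟩ := hz
    obtain ⟨q, hq, hq0, hqi⟩ := hQ z.1 t ht
    have ht01 := h01 z.1 ht
    have hpos : 0 ≤ (2 : ℝ) ^ k * t := mul_nonneg (by positivity) ht01.1
    have hj1 : (z.2 : ℝ) ≤ (2 : ℝ) ^ k * t := by rw [← he]; exact Nat.floor_le hpos
    have hj2 : (2 : ℝ) ^ k * t < (z.2 : ℝ) + 1 := by rw [← he]; exact Nat.lt_floor_add_one _
    rw [abs_lt] at hq0
    have hcel : ∀ i : Fin d, -4 ≤ cel (fun w i => (2 : ℝ) ^ k * B w i) D z.2 z.1 i - q i.succ ∧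
        cel (fun w i => (2 : ℝ) ^ k * B w i) D z.2 z.1 i - q i.succ ≤ 3 := by
      intro i
      have h1 := hqi i
      rw [abs_lt] at h1
      have hDi := hD z.1 i
      have e : (2 : ℝ) ^ k * B z.1 i + (z.2 : ℝ) * D z.1 i =
          (2 : ℝ) ^ k * (B z.1 i + t * D z.1 i) - ((2 : ℝ) ^ k * t - z.2) * D z.1 i := by ring
      have h2 : 0 ≤ ((2 : ℝ) ^ k * t - z.2) * D z.1 i := mul_nonneg (by linarith) hDi.1
      have h3 : ((2 : ℝ) ^ k * t - z.2) * D z.1 i ≤ 1 := by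
        have : ((2 : ℝ) ^ k * t - z.2) ≤ 1 := by linarith
        nlinarith [hDi.2]
      show -4 ≤ ⌊(2 : ℝ) ^ k * B z.1 i + (z.2 : ℝ) * D z.1 i⌋ - q i.succ ∧
        ⌊(2 : ℝ) ^ k * B z.1 i + (z.2 : ℝ) * D z.1 i⌋ - q i.succ ≤ 3
      constructor
      · have h4 : q i.succ - 4 ≤ ⌊(2 : ℝ) ^ k * B z.1 i + (z.2 : ℝ) * D z.1 i⌋ := by
          apply Int.le_floor.2
          push_cast
          linarith
        linarith
      · have h4 : ⌊(2 : ℝ) ^ k * B z.1 i + (z.2 : ℝ) * D z.1 i⌋ < q i.succ + 3 := by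
          apply Int.floor_lt.2
          push_cast
          linarith
        linarith
    have hj : -4 ≤ (z.2 : ℤ) - q 0 ∧ (z.2 : ℤ) - q 0 ≤ 3 := by
      constructor
      · have h4 : ((q 0 : ℤ) : ℝ) < (((z.2 : ℤ) + 4 : ℤ) : ℝ) := by push_cast; linarith
        have h5 : q 0 < (z.2 : ℤ) + 4 := by exact_mod_cast h4
        linarith
      · have h4 : (((z.2 : ℤ) : ℤ) : ℝ) < ((q 0 + 3 : ℤ) : ℝ) := by push_cast; linarith
        have h5 : (z.2 : ℤ) < q 0 + 3 := by exact_mod_cast h4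
        linarith
    rw [Finset.mem_image]
    refine ⟨(q, Fin.cons ((z.2 : ℤ) - q 0)
      (fun i => cel (fun w i => (2 : ℝ) ^ k * B w i) D z.2 z.1 i - q i.succ)), ?_, ?_⟩
    · rw [Finset.mem_product]
      refine ⟨hq, ?_⟩
      rw [Fintype.mem_piFinset]
      intro i
      rw [Finset.mem_Icc]
      refine Fin.cases ?_ (fun i => ?_) i
      · simp only [Fin.cons_zero]; exact hj
      · simp only [Fin.cons_succ]; exact hcel i
    · apply Prod.ext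
      · simp only [Fin.cons_zero]
        rw [add_sub_cancel, Int.toNat_natCast]
      · funext i
        simp only [Fin.cons_succ]
        ring
  have h1 := (Finset.card_le_card hsub).trans Finset.card_image_le
  have h2 : (Q ×ˢ Fintype.piFinset (fun _ : Fin (d + 1) => Finset.Icc (-4 : ℤ) 3)).card =
      8 ^ (d + 1) * Q.card := by
    rw [Finset.card_product, Fintype.card_piFinset, Finset.prod_const, Finset.card_univ, Fintype.card_fin,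
      Int.card_Icc]
    have : ((3 : ℤ) + 1 - -4).toNat = 8 := by decide
    rw [this, mul_comm]
  rw [h2] at h1
  exact_mod_cast h1

theorem t_ONE : S_DH → S_ONE := by
  intro hDH d k r W B P Q x σ τ hd hτ hτ1 hx hσ hW hW01 hP hr hrk hfar
  obtain ⟨Λ, hΛ, D, hDW, hfam, hcard⟩ := disc d k W hW01 x hW
  obtain ⟨E, hE⟩ : ∃ E, E = EE k (fun w => P (D w)) := ⟨_, rfl⟩
  have h01 : ∀ w, ((P (D w) : Finset ℝ) : Set ℝ) ⊆ Set.Ico 0 1 := fun w => (hP _ (hDW w)).1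
  have hfr : ∀ w, ∀ l ≤ k, ∀ p : ℕ, (((P (D w)).filter fun t => (p : ℝ) / 2 ^ l ≤ t ∧
      t < ((p : ℝ) + 1) / 2 ^ l).card : ℝ) ≤ ((2 : ℝ) ^ (k - l)) ^ τ := fun w => (hP _ (hDW w)).2.2.1
  have hcE : (Fintype.card Λ : ℝ) * σ ≤ E.card := by
    rw [hE]
    exact card_EE k _ τ h01 hfr σ (fun w => (hP _ (hDW w)).2.1)
  have hshd : Shd (2 ^ k) 3 τ E := by rw [hE]; exact shd k _ τ h01 hfr hτ
  have hcell : ((E.image fun z => (z.2, cel (fun w i => (2 : ℝ) ^ k * B (D w) i) D z.2 z.1)).card : ℝ) ≤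
      8 ^ (d + 1) * Q.card := by
    rw [hE]
    exact cells d k D (fun w => B (D w)) _ Q (fun w i => hW01 _ (hDW w) i) h01
      (fun w => (hP _ (hDW w)).2.2.2)
  have hn0 : (0 : ℝ) < (2 : ℝ) ^ k := by positivity
  have hL : 0 < (Fintype.card Λ : ℝ) := lt_of_lt_of_le (by positivity) hcard
  have hEc : 0 < (E.card : ℝ) := lt_of_lt_of_le (by positivity) hcE
  have hne : E.Nonempty := by
    rw [← Finset.card_pos]
    exact_mod_cast hEc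
  have hK : (0 : ℝ) < (k : ℝ) + 1 := by positivity
  have hmain := hDH Λ d (2 ^ k) k r 3 τ (fun w i => (2 : ℝ) ^ k * B (D w) i) D E hd hfam hshd hτ hτ1
    (by norm_num) le_rfl (by omega) hne hr hrk (by
      refine hfar.trans ?_
      rw [div_le_div_iff₀ (by positivity) (by positivity)]
      calc σ * (64 * ((k : ℝ) + 1) ^ 3 * Fintype.card Λ) =
            (Fintype.card Λ : ℝ) * σ * (64 * ((k : ℝ) + 1) ^ 3) := by ring
        _ ≤ _ := mul_le_mul_of_nonneg_right hcE (by positivity))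
  obtain ⟨S, hS⟩ : ∃ S : ℝ, S =
    ((E.image fun z => (z.2, cel (fun w i => (2 : ℝ) ^ k * B (D w) i) D z.2 z.1)).card : ℝ) := ⟨_, rfl⟩
  rw [← hS] at hmain hcell
  have hS0 : 0 ≤ S := by rw [hS]; positivity
  obtain ⟨L, hLd⟩ : ∃ L : ℝ, L = (Fintype.card Λ : ℝ) := ⟨_, rfl⟩
  rw [← hLd] at hmain hcE hcard hL
  obtain ⟨n, hn⟩ : ∃ n : ℝ, n = (2 : ℝ) ^ k := ⟨_, rfl⟩
  have hcast : ((2 ^ k : ℕ) : ℝ) = n := by rw [hn]; push_cast; rfl
  rw [hcast] at hmain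
  rw [← hn] at hcard hn0 ⊢
  have h4 : (L * σ) ^ 4 ≤ (E.card : ℝ) ^ 4 := pow_le_pow_left₀ (by positivity) hcE 4
  have hrd : (0 : ℝ) ≤ (r : ℝ) ^ d := by positivity
  have h5 : (L * σ) ^ 4 * (r : ℝ) ^ d ≤ 200000000 * 96 ^ d * ((k : ℝ) + 1) ^ 11 * 3 ^ 2 *
      n ^ (1 + 2 * d) * L ^ 2 * (8 ^ (d + 1) * Q.card) ^ 2 := by
    calc (L * σ) ^ 4 * (r : ℝ) ^ d ≤ (E.card : ℝ) ^ 4 * (r : ℝ) ^ d := mul_le_mul_of_nonneg_right h4 hrd
      _ ≤ _ := hmain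
      _ ≤ _ := by
        apply mul_le_mul_of_nonneg_left _ (by positivity)
        exact pow_le_pow_left₀ hS0 hcell 2
  have h6 : L ^ 2 * σ ^ 4 * (r : ℝ) ^ d ≤ 1800000000 * 96 ^ d * 64 ^ (d + 1) * ((k : ℝ) + 1) ^ 11 *
      n ^ (1 + 2 * d) * (Q.card : ℝ) ^ 2 := by
    have e64 : ((8 : ℝ) ^ (d + 1) * Q.card) ^ 2 = 64 ^ (d + 1) * (Q.card : ℝ) ^ 2 := by
      rw [mul_pow, ← pow_mul, mul_comm (d + 1) 2, pow_mul]; norm_num
    rw [e64] at h5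
    have h7 : L ^ 2 * (L ^ 2 * σ ^ 4 * (r : ℝ) ^ d) ≤ L ^ 2 * (1800000000 * 96 ^ d * 64 ^ (d + 1) *
        ((k : ℝ) + 1) ^ 11 * n ^ (1 + 2 * d) * (Q.card : ℝ) ^ 2) := by
      calc L ^ 2 * (L ^ 2 * σ ^ 4 * (r : ℝ) ^ d) = (L * σ) ^ 4 * (r : ℝ) ^ d := by ring
        _ ≤ _ := h5
        _ = _ := by ring
    exact le_of_mul_le_mul_left h7 (by positivity)
  have h8 : (x * n ^ d) ^ 2 ≤ L ^ 2 := pow_le_pow_left₀ (by positivity) hcard 2
  have h9 : n ^ (2 * d) * (x ^ 2 * σ ^ 4 * (r : ℝ) ^ d) ≤ n ^ (2 * d) * (1800000000 * 96 ^ d *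
      64 ^ (d + 1) * ((k : ℝ) + 1) ^ 11 * n * (Q.card : ℝ) ^ 2) := by
    calc n ^ (2 * d) * (x ^ 2 * σ ^ 4 * (r : ℝ) ^ d) = (x * n ^ d) ^ 2 * (σ ^ 4 * (r : ℝ) ^ d) := by
          rw [mul_pow, ← pow_mul, mul_comm d 2]; ring
      _ ≤ L ^ 2 * (σ ^ 4 * (r : ℝ) ^ d) := mul_le_mul_of_nonneg_right h8 (by positivity)
      _ = L ^ 2 * σ ^ 4 * (r : ℝ) ^ d := by ring
      _ ≤ _ := h6
      _ = _ := by rw [pow_add, pow_one]; ring
  exact le_of_mul_le_mul_left h9 (by positivity)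

end Pool.Agent.H17.FH
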