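import Pool.Agent.H951.FH.Stm2

set_option autoImplicit false

open MeasureTheory
open scoped Classical ENNReal NNReal

namespace Pool.Agent.H787.FH

open Pool.Agent.H951.FH

theorem t_SEL : S_KAP → S_SEL := by
  intro KAP d V T τ b ρ hτ hb0 hb1 hρ0 hρ1 hV hT
  have h1 : ∀ v, ∃ κ : ℝ, v ∈ V → 0 < κ ∧ ∀ C : ℕ → Finset (ℕ × ℕ),
      (∀ t ∈ T v, ∃ k, Cv (C k) {t}) → ∀ a : ℕ → ℝ, Summable a → (∀ k, Sm τ (C k) ≤ a k) →
      κ ≤ ∑' k, a k := by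
    intro v
    by_cases hv : v ∈ V
    · obtain ⟨κ, hκ⟩ := KAP (T v) τ (hT v hv).1 hτ (hT v hv).2
      exact ⟨κ, fun _ => hκ⟩
    · exact ⟨0, fun h => absurd h hv⟩
  choose κ hκ using h1
  have h2 : ∃ m : ℕ, volume {v | v ∈ V ∧ 1 / ((m : ℝ) + 1) ≤ κ v} ≠ 0 := by
    by_contra hcon
    push Not at hcon
    apply hV
    refine measure_mono_null ?_ (measure_iUnion_null hcon)
    intro v hv
    obtain ⟨n, hn⟩ := exists_nat_one_div_lt (hκ v hv).1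
    exact Set.mem_iUnion.2 ⟨n, hv, hn.le⟩
  obtain ⟨m, hm⟩ := h2
  obtain ⟨r, hr0, hr1⟩ := ENNReal.lt_iff_exists_nnreal_btwn.1 (pos_iff_ne_zero.2 hm)
  have hr0' : (0 : ℝ) < (r : ℝ) := by
    have : (0 : ℝ≥0) < r := by exact_mod_cast hr0
    exact_mod_cast this
  have hρ' : 0 < 1 - ρ := by linarith
  have hb' : 0 < 1 - b := by linarith
  have hm1 : (0 : ℝ) < 1 / ((m : ℝ) + 1) := by positivity
  obtain ⟨k1, hk1⟩ := exists_pow_lt_of_lt_one (mul_pos hb' hm1) hb1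
  refine ⟨r * (1 - ρ), k1, mul_pos hr0' hρ', ?_⟩
  intro k0 hk0 U hU
  by_contra hcon
  push Not at hcon
  have hsumb : HasSum (fun j : ℕ => b ^ (k0 + j)) (b ^ k0 * (1 - b)⁻¹) := by
    have := (hasSum_geometric_of_lt_one hb0.le hb1).mul_left (b ^ k0)
    simpa [pow_add] using this
  have hsumρ : HasSum (fun j : ℕ => r * (1 - ρ) * ρ ^ (k0 + j))
      (r * (1 - ρ) * ρ ^ k0 * (1 - ρ)⁻¹) := by
    have := (hasSum_geometric_of_lt_one hρ0.le hρ1).mul_left (r * (1 - ρ) * ρ ^ k0)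
    simpa [pow_add, mul_assoc] using this
  have hbk : b ^ k0 * (1 - b)⁻¹ < 1 / ((m : ℝ) + 1) := by
    have h3 : b ^ k0 ≤ b ^ k1 := pow_le_pow_of_le_one hb0.le hb1.le hk0
    have h4 : b ^ k0 < (1 - b) * (1 / ((m : ℝ) + 1)) := lt_of_le_of_lt h3 hk1
    rw [← div_eq_mul_inv, div_lt_iff₀ hb']
    linarith
  have hsub : {v | v ∈ V ∧ 1 / ((m : ℝ) + 1) ≤ κ v} ⊆
      ⋃ j : ℕ, {v | v ∈ V ∧ ∀ C : Finset (ℕ × ℕ), Cv C (T v ∩ U v (k0 + j)) →
        b ^ (k0 + j) < Sm τ C} := by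
    rintro v ⟨hv, hvm⟩
    by_contra hno
    have hno' : ∀ j : ℕ, ∃ C : Finset (ℕ × ℕ), Cv C (T v ∩ U v (k0 + j)) ∧
        Sm τ C ≤ b ^ (k0 + j) := by
      intro j
      by_contra hj
      push Not at hj
      exact hno (Set.mem_iUnion.2 ⟨j, hv, hj⟩)
    choose C hC hS using hno'
    have h5 := (hκ v hv).2 C (by
      intro t ht
      obtain ⟨k, hk, htk⟩ := hU v hv t ht
      refine ⟨k - k0, ?_⟩
      intro s hs
      rw [Set.mem_singleton_iff] at hs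
      rw [hs]
      apply hC (k - k0) t
      refine ⟨ht, ?_⟩
      rw [Nat.add_sub_cancel' hk]
      exact htk) (fun j => b ^ (k0 + j)) hsumb.summable hS
    rw [hsumb.tsum_eq] at h5
    linarith
  have hfin : volume {v | v ∈ V ∧ 1 / ((m : ℝ) + 1) ≤ κ v} ≤ (r : ℝ≥0∞) := by
    calc volume {v | v ∈ V ∧ 1 / ((m : ℝ) + 1) ≤ κ v}
        ≤ volume (⋃ j : ℕ, {v | v ∈ V ∧ ∀ C : Finset (ℕ × ℕ), Cv C (T v ∩ U v (k0 + j)) →
          b ^ (k0 + j) < Sm τ C}) := measure_mono hsub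
      _ ≤ ∑' j : ℕ, volume {v | v ∈ V ∧ ∀ C : Finset (ℕ × ℕ), Cv C (T v ∩ U v (k0 + j)) →
          b ^ (k0 + j) < Sm τ C} := measure_iUnion_le _
      _ ≤ ∑' j : ℕ, ENNReal.ofReal (r * (1 - ρ) * ρ ^ (k0 + j)) :=
          ENNReal.tsum_le_tsum fun j => (hcon (k0 + j) (Nat.le_add_right _ _)).le
      _ = ENNReal.ofReal (∑' j : ℕ, r * (1 - ρ) * ρ ^ (k0 + j)) :=
          (ENNReal.ofReal_tsum_of_nonneg (fun j => by positivity) hsumρ.summable).symm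
      _ ≤ ENNReal.ofReal r := by
          apply ENNReal.ofReal_le_ofReal
          rw [hsumρ.tsum_eq]
          have h6 : ρ ^ k0 ≤ 1 := pow_le_one₀ hρ0.le hρ1.le
          have h7 : (r : ℝ) * (1 - ρ) * ρ ^ k0 * (1 - ρ)⁻¹ = r * ρ ^ k0 := by
            field_simp
          rw [h7]
          nlinarith
      _ = (r : ℝ≥0∞) := ENNReal.ofReal_coe_nnreal
  exact absurd hr1 (not_lt.2 hfin)

end Pool.Agent.H787.FH
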