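import Pool.Agent.H951.FH.Asm
import Pool.Agent.H951.FH.FRO
import Pool.Agent.H951.FH.COV
import Pool.Agent.H951.FH.KAP
import Pool.Agent.H951.FH.SEL
import Pool.Agent.H951.FH.ONE
import Pool.Agent.H951.FH.NB
import Pool.Agent.H951.FH.FV
import Pool.Agent.H951.FH.FW
import Pool.Agent.H951.FH.FD

/-!
# Project FH: sets of directions of positive measure
-/

set_option autoImplicit false

namespace Pool.Agent.H951.FH

theorem fd : S_FD := Pool.Agent.H120.FH.t_FD (Pool.Agent.H261.FH.t_FW (Pool.Agent.H379.FH.t_FV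
  Pool.Agent.H484.FH.t_COV (Pool.Agent.H787.FH.t_SEL Pool.Agent.H113.FH.t_KAP)
  Pool.Agent.H233.FH.t_FRO (Pool.Agent.H17.FH.t_ONE dh) Pool.Agent.H876.FH.t_NB))

end Pool.Agent.H951.FH
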