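import Pool.Agent.H951.FH.Stm3

/-!
# Project FH of helper951, part 3: assembly of the discrete inequality (helper225, after helper981)
-/

set_option autoImplicit false

open scoped Classical
open Pool.Agent.H951.FH

namespace Pool.Agent.H225.FHB

theorem str_inst (h : S_STR) {ζ B : Type} [dB : DecidableEq B] (E : Finset ζ) (β : ζ → B)
    (Δ : ζ → ζ → ℝ) (k : ℕ) (h1 : ∀ z z', Δ z z' = Δ z' z)
    (h2 : ∀ z z', 0 ≤ Δ z z' ∧ Δ z z' ≤ 1) (h3 : E.Nonempty) :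
    ∃ a ≤ k, ∃ E3 ⊆ E, (E.card : ℝ) / (4 * ((k : ℝ) + 1) ^ 2) ≤ E3.card ∧
    ∀ z ∈ E3, (E.card : ℝ) / (2 * (E.image β).card) ≤ ((E.filter fun z' => β z' = β z).card : ℝ) ∧
      ((E.filter fun z' => β z' = β z).card : ℝ) / (4 * ((k : ℝ) + 1)) ≤
        ((E3.filter fun z' => β z' = β z ∧ Cl k a (Δ z z')).card : ℝ) := by
  have hdB : dB = fun a b => Classical.propDecidable (a = b) := Subsingleton.elim _ _
  subst hdB
  exact h ζ B E β Δ k h1 h2 h3

theorem alg1 (e K S L F G n r τ β : ℝ) (he : 0 ≤ e) (hK : 1 ≤ K) (hS : 0 ≤ S)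
    (hL : 0 ≤ L) (hF : 1 ≤ F) (hG : 1 ≤ G) (hn : 1 ≤ n) (hr : 0 ≤ r) (hrn : r ≤ n) (hβ : 0 < β)
    (hτ : 2 * τ ≤ 1 + β) (h1 : e ≤ 8 * K * G * S) (h2 : e ≤ L * F * n ^ τ) :
    e ^ 4 * r ^ β ≤ 200000000 * 14 ^ β * K ^ 11 * G ^ 2 * F ^ 2 * n ^ (1 + 2 * β) * L ^ 2 *
      S ^ 2 := by
  have a1 : (1 : ℝ) ≤ 14 ^ β := Real.one_le_rpow (by norm_num) hβ.le
  have a2 : K ^ 2 ≤ K ^ 11 := pow_le_pow_right₀ hK (by norm_num)
  have hF0 : 0 ≤ F := by linarith
  have hG0 : 0 ≤ G := by linarith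
  have hK0 : 0 ≤ K := by linarith
  have hn0 : 0 < n := by linarith
  have hp : 0 ≤ n ^ τ := Real.rpow_nonneg hn0.le _
  have a3 : (n ^ τ) ^ 2 * n ^ β ≤ n ^ (1 + 2 * β) := by
    have b1 : (n ^ τ) ^ 2 = n ^ (τ * 2) := by
      rw [Real.rpow_mul hn0.le, Real.rpow_two]
    rw [b1, ← Real.rpow_add hn0]
    exact Real.rpow_le_rpow_of_exponent_le hn (by linarith)
  have a4 : r ^ β ≤ n ^ β := Real.rpow_le_rpow hr hrn hβ.le
  have a5 : 0 ≤ n ^ β := Real.rpow_nonneg hn0.le _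
  have a6 : 0 ≤ r ^ β := Real.rpow_nonneg hr _
  have a7 : (0 : ℝ) < n ^ (1 + 2 * β) := Real.rpow_pos_of_pos hn0 _
  have a8 : (64 : ℝ) * 1 ≤ 200000000 * 14 ^ β := by linarith
  calc e ^ 4 * r ^ β = (e ^ 2) * (e ^ 2) * r ^ β := by ring
    _ ≤ (8 * K * G * S) ^ 2 * (L * F * n ^ τ) ^ 2 * n ^ β := by gcongr
    _ = 64 * 1 * K ^ 2 * G ^ 2 * F ^ 2 * ((n ^ τ) ^ 2 * n ^ β) * L ^ 2 * S ^ 2 := by ring
    _ ≤ 200000000 * 14 ^ β * K ^ 11 * G ^ 2 * F ^ 2 * n ^ (1 + 2 * β) * L ^ 2 * S ^ 2 := by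
        gcongr

theorem alg2 (e e3 K S L F G n r T u θ H β : ℝ) (he : 0 < e) (hK : 1 ≤ K) (hS : 0 < S)
    (hL : 0 < L) (hF : 1 ≤ F) (hG : 1 ≤ G) (hn : 1 ≤ n) (hr : 1 ≤ r) (hT : 0 < T) (hu : 0 < u)
    (hθ : 0 < θ) (hTu : T * u * θ ^ β ≤ 1) (h3 : e / (4 * K ^ 2) ≤ e3)
    (h1 : e / (2 * S) * e3 / (8 * K) ≤ 6 * F * T * H)
    (h2 : H * (e3 / (8 * K * L)) ^ 2 ≤
      4 * (28 * K * (G * (7 * n / r) ^ β) * F * n * u) * (S * (4 * K * (G * (2 * θ * n) ^ β)))) :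
    e ^ 4 * r ^ β ≤ 200000000 * 14 ^ β * K ^ 11 * G ^ 2 * F ^ 2 * n ^ (1 + 2 * β) * L ^ 2 *
      S ^ 2 := by
  have hK0 : 0 < K := by linarith
  have hF0 : 0 < F := by linarith
  have hG0 : 0 < G := by linarith
  have hn0 : 0 < n := by linarith
  have hr0 : 0 < r := by linarith
  have he3 : 0 < e3 := lt_of_lt_of_le (by positivity) h3
  have b1 : e ≤ 4 * K ^ 2 * e3 := by
    rw [div_le_iff₀ (by positivity)] at h3
    linarith
  have b2 : e ^ 3 ≤ 64 * K ^ 6 * e3 ^ 3 := by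
    calc e ^ 3 ≤ (4 * K ^ 2 * e3) ^ 3 := by gcongr
      _ = 64 * K ^ 6 * e3 ^ 3 := by ring
  have c2 : (7 * n / r) ^ β * (2 * θ * n) ^ β * r ^ β = 14 ^ β * n ^ (2 * β) * θ ^ β := by
    have d1 : n ^ (2 * β) = (n * n) ^ β := by
      rw [Real.rpow_mul hn0.le, Real.rpow_two, sq]
    rw [d1, ← Real.mul_rpow (by positivity) (by positivity),
      ← Real.mul_rpow (by positivity) (by positivity),
      ← Real.mul_rpow (by norm_num) (by positivity),
      ← Real.mul_rpow (by positivity) (by positivity)]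
    have d2 : 7 * n / r * (2 * θ * n) * r = 14 * (n * n) * θ := by
      field_simp
      ring
    rw [d2]
  have c8 : n ^ (1 + 2 * β) = n * n ^ (2 * β) := by
    rw [Real.rpow_add hn0, Real.rpow_one]
  rw [c8]
  obtain ⟨P, hP⟩ : ∃ P : ℝ, P = (7 * n / r) ^ β := ⟨_, rfl⟩
  obtain ⟨Q, hQ⟩ : ∃ Q : ℝ, Q = (2 * θ * n) ^ β := ⟨_, rfl⟩
  obtain ⟨R, hR⟩ : ∃ R : ℝ, R = r ^ β := ⟨_, rfl⟩
  obtain ⟨N, hN⟩ : ∃ N : ℝ, N = n ^ (2 * β) := ⟨_, rfl⟩
  obtain ⟨M, hM⟩ : ∃ M : ℝ, M = (14 : ℝ) ^ β := ⟨_, rfl⟩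
  obtain ⟨t, ht⟩ : ∃ t : ℝ, t = θ ^ β := ⟨_, rfl⟩
  have hP0 : 0 < P := by rw [hP]; positivity
  have hQ0 : 0 < Q := by rw [hQ]; positivity
  have hR0 : 0 < R := by rw [hR]; positivity
  have hN0 : 0 < N := by rw [hN]; positivity
  have hM0 : 0 < M := by rw [hM]; positivity
  have ht0 : 0 < t := by rw [ht]; positivity
  rw [← hP, ← hQ, ← hR, ← hM, ← hN, ← ht] at c2
  rw [← hP, ← hQ] at h2
  rw [← ht] at hTu
  rw [← hR, ← hM, ← hN]
  clear hP hQ hR hN hM ht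
  -- the product of the inequalities
  have c1 : e / (2 * S) * e3 / (8 * K) * (e3 / (8 * K * L)) ^ 2 ≤
      6 * F * T * (4 * (28 * K * (G * P) * F * n * u) *
        (S * (4 * K * (G * Q)))) := by
    calc e / (2 * S) * e3 / (8 * K) * (e3 / (8 * K * L)) ^ 2
        ≤ 6 * F * T * H * (e3 / (8 * K * L)) ^ 2 := by
          apply mul_le_mul_of_nonneg_right h1 (by positivity)
      _ = 6 * F * T * (H * (e3 / (8 * K * L)) ^ 2) := by ring
      _ ≤ _ := by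
          apply mul_le_mul_of_nonneg_left h2 (by positivity)
  have c3 : e * e3 ^ 3 * R ≤ 2752512 * K ^ 5 * L ^ 2 * F ^ 2 * G ^ 2 * n * S ^ 2 *
      (M * N * (T * u * t)) := by
    have c4 := mul_le_mul_of_nonneg_right c1
      (show 0 ≤ 1024 * K ^ 3 * L ^ 2 * S * R by positivity)
    have c5 : e / (2 * S) * e3 / (8 * K) * (e3 / (8 * K * L)) ^ 2 *
        (1024 * K ^ 3 * L ^ 2 * S * R) = e * e3 ^ 3 * R := by
      field_simp
      ring
    have c6 : 6 * F * T * (4 * (28 * K * (G * P) * F * n * u) *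
        (S * (4 * K * (G * Q)))) * (1024 * K ^ 3 * L ^ 2 * S * R) =
        2752512 * K ^ 5 * L ^ 2 * F ^ 2 * G ^ 2 * n * S ^ 2 *
          ((P * Q * R) * (T * u)) := by
      ring
    rw [c5, c6, c2] at c4
    refine c4.trans (le_of_eq ?_)
    ring
  have c7 : e * e3 ^ 3 * R ≤ 2752512 * K ^ 5 * L ^ 2 * F ^ 2 * G ^ 2 * n * S ^ 2 *
      (M * N) := by
    refine c3.trans ?_
    apply mul_le_mul_of_nonneg_left _ (by positivity)
    calc M * N * (T * u * t) ≤ M * N * 1 := by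
          apply mul_le_mul_of_nonneg_left hTu (by positivity)
      _ = M * N := mul_one _
  calc e ^ 4 * R = e ^ 3 * (e * R) := by ring
    _ ≤ 64 * K ^ 6 * e3 ^ 3 * (e * R) := by
        apply mul_le_mul_of_nonneg_right b2 (by positivity)
    _ = 64 * K ^ 6 * (e * e3 ^ 3 * R) := by ring
    _ ≤ 64 * K ^ 6 * (2752512 * K ^ 5 * L ^ 2 * F ^ 2 * G ^ 2 * n * S ^ 2 * (M * N)) := by
        apply mul_le_mul_of_nonneg_left c7 (by positivity)
    _ = 176160768 * (M * K ^ 11 * G ^ 2 * F ^ 2 * (n * N) * L ^ 2 * S ^ 2) := by ring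
    _ ≤ 200000000 * (M * K ^ 11 * G ^ 2 * F ^ 2 * (n * N) * L ^ 2 * S ^ 2) := by
        apply mul_le_mul_of_nonneg_right (by norm_num) (by positivity)
    _ = 200000000 * M * K ^ 11 * G ^ 2 * F ^ 2 * (n * N) * L ^ 2 * S ^ 2 := by ring

theorem powers (a : ℕ) (τ β : ℝ) (h : 2 * τ ≤ 1 + β) :
    ((2 : ℝ) ^ a) ^ τ * ((1 / 2 : ℝ) ^ a) ^ (1 - τ) * ((1 / 2 : ℝ) ^ a) ^ β ≤ 1 := by
  have h2 : (2 : ℝ) ^ a = ((1 / 2 : ℝ) ^ a)⁻¹ := by
    rw [one_div, inv_pow, inv_inv]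
  obtain ⟨w, hw⟩ : ∃ w : ℝ, w = (1 / 2 : ℝ) ^ a := ⟨_, rfl⟩
  have hw0 : 0 < w := by rw [hw]; positivity
  have hw1 : w ≤ 1 := by rw [hw]; exact pow_le_one₀ (by norm_num) (by norm_num)
  rw [h2, ← hw, Real.inv_rpow hw0.le, ← Real.rpow_neg hw0.le, ← Real.rpow_add hw0,
    ← Real.rpow_add hw0]
  exact Real.rpow_le_one hw0.le hw1 (by linarith)

theorem card_le (Λ : Type) [Fintype Λ] (n : ℕ) (F τ : ℝ)
    (E : Finset (Λ × ℕ)) (hn : 1 ≤ n) (hE : Shd n F τ E) :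
    (E.card : ℝ) ≤ (Fintype.card Λ : ℝ) * F * (n : ℝ) ^ τ := by
  have e1 : E.card = ∑ w : Λ, (E.filter fun z => z.1 = w).card :=
    Finset.card_eq_sum_card_fiberwise (f := Prod.fst) (t := Finset.univ) (fun x _ => by simp)
  have e2 : ∀ w : Λ, ((E.filter fun z => z.1 = w).card : ℝ) ≤ F * (n : ℝ) ^ τ := by
    intro w
    have h2 := hE.fro w 0 n hn
    have h3 : (E.filter fun z => z.1 = w) ⊆
        (E.filter fun z => z.1 = w ∧ 0 ≤ z.2 ∧ z.2 < 0 + n) := by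
      intro z hz
      rw [Finset.mem_filter] at hz ⊢
      refine ⟨hz.1, hz.2, Nat.zero_le _, ?_⟩
      rw [zero_add]
      exact hE.lt z hz.1
    have h4 : ((E.filter fun z => z.1 = w).card : ℝ) ≤
        ((E.filter fun z => z.1 = w ∧ 0 ≤ z.2 ∧ z.2 < 0 + n).card : ℝ) := by
      exact_mod_cast Finset.card_le_card h3
    exact h4.trans h2
  rw [e1]
  push_cast
  calc ∑ w : Λ, ((E.filter fun z => z.1 = w).card : ℝ) ≤ ∑ _w : Λ, F * (n : ℝ) ^ τ :=
        Finset.sum_le_sum (fun w _ => e2 w)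
    _ = (Fintype.card Λ : ℝ) * F * (n : ℝ) ^ τ := by
        rw [Finset.sum_const, Finset.card_univ, nsmul_eq_mul]
        ring

theorem t_DHB : S_STR → S_NUMB → S_BIGB → S_SUMB → S_DHB := by
  intro hSTR hNUM hBIG hSUM Λ _ d n k r β G F τ A D E hβ hG hFam hShd ht0 ht1 hτβ hF hk1 hk2 hE hr
    hrn hfar
  have hn1 : (1 : ℝ) ≤ (n : ℝ) := by exact_mod_cast hFam.pos
  have hΔ : ∀ z z' : Λ × ℕ, 0 ≤ dist (D z.1) (D z'.1) ∧ dist (D z.1) (D z'.1) ≤ 1 := by
    intro z z'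
    refine ⟨dist_nonneg, ?_⟩
    rw [dist_pi_le_iff zero_le_one]
    intro i
    rw [Real.dist_eq, abs_le]
    have a1 := hFam.lo z.1 i
    have a2 := hFam.hi z.1 i
    have a3 := hFam.lo z'.1 i
    have a4 := hFam.hi z'.1 i
    constructor <;> linarith
  obtain ⟨a, hak, E3, hsub, hbig, hz⟩ := str_inst hSTR E
    (fun z : Λ × ℕ => (z.2, cel A D z.2 z.1)) (fun z z' => dist (D z.1) (D z'.1)) k
    (fun z z' => dist_comm _ _) hΔ hE
  obtain ⟨z₀, hz₀⟩ := id hE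
  have hL : (0 : ℝ) < (Fintype.card Λ : ℝ) := by
    have : Nonempty Λ := ⟨z₀.1⟩
    exact_mod_cast Fintype.card_pos
  have he : (0 : ℝ) < (E.card : ℝ) := by exact_mod_cast hE.card_pos
  have hS : (0 : ℝ) < ((E.image fun z => (z.2, cel A D z.2 z.1)).card : ℝ) := by
    exact_mod_cast (hE.image _).card_pos
  have hK : (1 : ℝ) ≤ (k : ℝ) + 1 := by
    have : (0 : ℝ) ≤ (k : ℝ) := Nat.cast_nonneg k
    linarith
  have hr0 : (1 : ℝ) ≤ (r : ℝ) := by exact_mod_cast hr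
  have hrn' : (r : ℝ) ≤ (n : ℝ) := by exact_mod_cast hrn
  have he3 : (0 : ℝ) < (E3.card : ℝ) := lt_of_lt_of_le (by positivity) hbig
  rcases Nat.lt_or_ge a k with hlt | hge
  · -- the main case
    have hdat : DatB n k a r β G F τ A D E E3 :=
      { b0 := hβ
        G1 := hG
        fam := hFam
        shd := hShd
        t0 := ht0
        t1 := ht1
        F1 := hF
        k1 := hk1
        k2 := hk2
        ne := hE
        r1 := hr
        rn := hrn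
        ak := hlt
        sub := hsub
        big := hbig
        hea := fun z hz' => (hz z hz').1
        deg := fun z hz' => (hz z hz').2
        far := by
          refine hfar.trans ?_
          have e1 : (E.card : ℝ) / (64 * ((k : ℝ) + 1) ^ 3 * (Fintype.card Λ : ℝ)) =
              ((E.card : ℝ) / (4 * ((k : ℝ) + 1) ^ 2)) /
                (16 * ((k : ℝ) + 1) * (Fintype.card Λ : ℝ)) := by
            field_simp
            ring
          rw [e1]
          exact div_le_div_of_nonneg_right hbig (by positivity) }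
    have h1 := hNUM Λ d n k a r β G F τ A D E E3 hdat
    have h2 := hBIG Λ d n k a r β G F τ A D E E3 hdat
    have h3 := hSUM Λ d n k a r β G F τ A D E E3 hdat
    rw [← Finset.mul_sum] at h1
    refine alg2 (E.card : ℝ) (E3.card : ℝ) ((k : ℝ) + 1) _ (Fintype.card Λ : ℝ) F G n r
      (((2 : ℝ) ^ a) ^ τ) (((1 / 2 : ℝ) ^ a) ^ (1 - τ)) ((1 / 2 : ℝ) ^ a)
      (∑ w0 : Λ, ((HB k a A D E3 w0).card : ℝ)) β he hK hS hL hF hG hn1 hr0
      (Real.rpow_pos_of_pos (by positivity) _) (Real.rpow_pos_of_pos (by positivity) _)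
      (by positivity) (powers a τ β hτβ) hbig h1 ?_
    rw [Finset.sum_mul]
    refine (Finset.sum_le_sum (fun w _ => h2 w)).trans ?_
    rw [← Finset.mul_sum]
    apply mul_le_mul_of_nonneg_left h3
    have : 0 ≤ ((1 / 2 : ℝ) ^ a) ^ (1 - τ) := Real.rpow_nonneg (by positivity) _
    positivity
  · -- small distances
    have hak' : a = k := le_antisymm hak hge
    subst hak'
    obtain ⟨z, hzE⟩ : E3.Nonempty := by
      rw [← Finset.card_pos]
      exact_mod_cast he3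
    obtain ⟨g1, g2⟩ := hz z hzE
    have hball : ((E3.filter fun z' => (z'.2, cel A D z'.2 z'.1) = (z.2, cel A D z.2 z.1) ∧
        Cl a a (dist (D z.1) (D z'.1))).card : ℝ) ≤ G := by
      have i4 : (n : ℝ) ≤ 2 ^ a := by exact_mod_cast hk1
      have i5 : (1 / 2 : ℝ) ^ a ≤ 1 / n := by
        rw [one_div, inv_pow, one_div]
        exact inv_anti₀ (by linarith) i4
      have i1 : (E3.filter fun z' => (z'.2, cel A D z'.2 z'.1) = (z.2, cel A D z.2 z.1) ∧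
          Cl a a (dist (D z.1) (D z'.1))).card ≤
          (Finset.univ.filter fun w => dist (D w) (D z.1) ≤ 1 / (n : ℝ)).card := by
        apply Finset.card_le_card_of_injOn (fun z' => z'.1)
        · intro z' hz'
          rw [Finset.mem_coe, Finset.mem_filter] at hz'
          rw [Finset.mem_coe, Finset.mem_filter]
          refine ⟨Finset.mem_univ _, ?_⟩
          have h5 := hz'.2.2
          unfold Cl at h5
          rw [if_pos rfl] at h5
          rw [dist_comm]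
          exact h5.trans i5
        · intro z' hz' z'' hz'' h5
          rw [Finset.mem_coe, Finset.mem_filter] at hz' hz''
          have h6 : z'.2 = z.2 := (Prod.mk.inj hz'.2.1).1
          have h7 : z''.2 = z.2 := (Prod.mk.inj hz''.2.1).1
          exact Prod.ext h5 (h6.trans h7.symm)
      have i6 : 1 / (n : ℝ) * n = 1 := by
        field_simp
      have i2 := hFam.cnt (D z.1) (1 / (n : ℝ)) (le_of_eq i6.symm)
      rw [i6, Real.one_rpow, mul_one] at i2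
      have i7 : ((E3.filter fun z' => (z'.2, cel A D z'.2 z'.1) = (z.2, cel A D z.2 z.1) ∧
          Cl a a (dist (D z.1) (D z'.1))).card : ℝ) ≤
          ((Finset.univ.filter fun w => dist (D w) (D z.1) ≤ 1 / (n : ℝ)).card : ℝ) := by
        exact_mod_cast i1
      exact i7.trans i2
    have g3 := (div_le_iff₀ (by positivity)).1 (g2.trans hball)
    have g4 := g1.trans g3
    rw [div_le_iff₀ (by positivity)] at g4
    refine alg1 (E.card : ℝ) ((a : ℝ) + 1) _ (Fintype.card Λ : ℝ) F G n r τ β he.le hK hS.le hL.le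
      hF hG hn1 (by linarith) hrn' hβ hτβ ?_ (card_le Λ n F τ E hFam.pos hShd)
    refine g4.trans (le_of_eq ?_)
    ring

end Pool.Agent.H225.FHB
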