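import Pool.Agent.H951.FH.Stm3

/-!
# FROD: a discrete Frostman lemma for cubes (helper80 for helper951)
-/

set_option autoImplicit false

open scoped Classical

namespace Pool.Agent.H80.FHB

open Pool.Agent.H951.FH

variable {d : ℕ}

/-- a dyadic cube which meets a coarser dyadic cube is contained in it -/
theorem cb_sub {l m : ℕ} (hml : m ≤ l) {p q : Fin d → ℕ} {v w : Fin d → ℝ}
    (hv : v ∈ Cb (l, p)) (hv' : v ∈ Cb (m, q)) (hw : w ∈ Cb (l, p)) : w ∈ Cb (m, q) := by
  intro i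
  have h1 := hv i
  have h2 := hv' i
  have h3 := hw i
  simp only at h1 h2 h3 ⊢
  obtain ⟨e, rfl⟩ := Nat.exists_eq_add_of_le hml
  have hp1 : (0 : ℝ) < 2 ^ m := by positivity
  have hp2 : (0 : ℝ) < 2 ^ (m + e) := by positivity
  have h6 : ∀ a : ℝ, a / 2 ^ m = (a * 2 ^ e) / 2 ^ (m + e) := by
    intro a
    rw [pow_add 2 m e]
    field_simp
  rw [h6 (q i : ℝ), h6 ((q i : ℝ) + 1)] at h2
  rw [h6 (q i : ℝ), h6 ((q i : ℝ) + 1)]
  have h4 := lt_of_le_of_lt h2.1 h1.2
  have h5 := lt_of_le_of_lt h1.1 h2.2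
  rw [div_lt_div_iff_of_pos_right hp2] at h4 h5
  have h7 : q i * 2 ^ e < p i + 1 := by exact_mod_cast h4
  have h8 : p i < (q i + 1) * 2 ^ e := by exact_mod_cast h5
  have h9 : ((q i * 2 ^ e : ℕ) : ℝ) ≤ (p i : ℝ) := by
    exact_mod_cast Nat.lt_succ_iff.1 h7
  have h10 : ((p i + 1 : ℕ) : ℝ) ≤ (((q i + 1) * 2 ^ e : ℕ) : ℝ) := by
    exact_mod_cast h8
  push_cast at h9 h10
  constructor
  · exact le_trans ((div_le_div_iff_of_pos_right hp2).2 h9) h3.1
  · exact lt_of_lt_of_le h3.2 ((div_le_div_iff_of_pos_right hp2).2 h10)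

/-- cubes of the same level are disjoint -/
theorem cb_inj {l : ℕ} {p q : Fin d → ℕ} {v : Fin d → ℝ}
    (hv : v ∈ Cb (l, p)) (hv' : v ∈ Cb (l, q)) : p = q := by
  funext i
  have h1 := hv i
  have h2 := hv' i
  simp only at h1 h2
  have hp2 : (0 : ℝ) < 2 ^ l := by positivity
  have h4 := lt_of_le_of_lt h2.1 h1.2
  have h5 := lt_of_le_of_lt h1.1 h2.2
  rw [div_lt_div_iff_of_pos_right hp2] at h4 h5
  have h7 : q i < p i + 1 := by exact_mod_cast h4
  have h8 : p i < q i + 1 := by exact_mod_cast h5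
  omega

/-- the children -/
def ch (p : Fin d → ℕ) (e : Fin d → Bool) : Fin d → ℕ := fun i => 2 * p i + (if e i then 1 else 0)

theorem ch_inj {p : Fin d → ℕ} {e e' : Fin d → Bool} (h : ch p e = ch p e') : e = e' := by
  funext i
  have h1 := congrFun h i
  unfold ch at h1
  cases h2 : e i <;> cases h3 : e' i <;> simp [h2, h3] at h1 ⊢

theorem ex_child {l : ℕ} {p : Fin d → ℕ} {v : Fin d → ℝ} (hv : v ∈ Cb (l, p)) :
    ∃ e : Fin d → Bool, v ∈ Cb (l + 1, ch p e) := by
  refine ⟨fun i => decide ((2 * (p i : ℝ) + 1) / 2 ^ (l + 1) ≤ v i), fun i => ?_⟩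
  have h1 := hv i
  simp only at h1 ⊢
  have e0 : (p i : ℝ) / 2 ^ l = (2 * (p i : ℝ)) / 2 ^ (l + 1) := by
    rw [pow_succ]
    field_simp
  have e1 : ((p i : ℝ) + 1) / 2 ^ l = (2 * (p i : ℝ) + 2) / 2 ^ (l + 1) := by
    rw [pow_succ]
    field_simp
  rw [e0, e1] at h1
  unfold ch
  by_cases h : (2 * (p i : ℝ) + 1) / 2 ^ (l + 1) ≤ v i
  · simp only [h, decide_true, if_true]
    push_cast
    refine ⟨h, ?_⟩
    have e2 : (2 * (p i : ℝ) + 1 + 1) = 2 * (p i : ℝ) + 2 := by ring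
    rw [e2]
    exact h1.2
  · simp only [h, decide_false]
    push_cast
    have e2 : (2 * (p i : ℝ) + (0 : ℝ)) = 2 * (p i : ℝ) := by ring
    refine ⟨?_, ?_⟩
    · simpa using h1.1
    · simpa using not_le.1 h

theorem sum_bU {ι α : Type} [DecidableEq α] (s : Finset ι) (C : ι → Finset α) (f : α → ℝ) (hf : ∀ a, 0 ≤ f a) :
    ∑ c ∈ s.biUnion C, f c ≤ ∑ i ∈ s, ∑ c ∈ C i, f c := by
  induction s using Finset.induction_on with
  | empty => simp
  | insert a s ha ih =>
    rw [Finset.biUnion_insert, Finset.sum_insert ha]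
    have h1 : ∑ c ∈ C a ∪ s.biUnion C, f c ≤ ∑ c ∈ C a, f c + ∑ c ∈ s.biUnion C, f c := by
      rw [← Finset.sum_union_inter]
      have : 0 ≤ ∑ c ∈ C a ∩ s.biUnion C, f c := Finset.sum_nonneg fun c _ => hf c
      linarith
    linarith

theorem step (β : ℝ) (k : ℕ) (h0 : 0 < β) : ∀ (i l : ℕ) (p : Fin d → ℕ), l + i = k →
    ∀ V : Set (Fin d → ℝ), (∀ v ∈ V, v ∈ Cb (l, p)) →
    ∃ (P : Finset (Fin d → ℝ)) (C : Finset (ℕ × (Fin d → ℕ))), (P : Set (Fin d → ℝ)) ⊆ V ∧
      (∀ l', l ≤ l' → l' ≤ k → ∀ p' : Fin d → ℕ,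
        ((P.filter fun v => v ∈ Cb (l', p')).card : ℝ) ≤ ((2 : ℝ) ^ (k - l')) ^ β) ∧
      CvD C V ∧ SmD β C ≤ 2 * P.card / ((2 : ℝ) ^ k) ^ β := by
  have hX1 : ∀ m : ℕ, (1 : ℝ) ≤ ((2 : ℝ) ^ m) ^ β := fun m =>
    Real.one_le_rpow (one_le_pow₀ one_le_two) h0.le
  have hkpos : (0 : ℝ) < ((2 : ℝ) ^ k) ^ β := by positivity
  intro i
  induction i with
  | zero =>
    intro l p hl V hV
    have hlk : l = k := by omega
    subst hlk
    rcases V.eq_empty_or_nonempty with rfl | ⟨t, ht⟩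
    · refine ⟨∅, ∅, by simp, fun l' _ _ p' => ?_, fun v hv => hv.elim, ?_⟩
      · rw [Finset.filter_empty, Finset.card_empty]
        exact le_trans (by norm_num) (hX1 _)
      · unfold SmD
        simp
    · refine ⟨{t}, {(l, p)}, by simpa using ht, fun l' _ _ p' => ?_, fun s hs => ?_, ?_⟩
      · refine le_trans ?_ (hX1 _)
        have h1 : (({t} : Finset (Fin d → ℝ)).filter fun v => v ∈ Cb (l', p')).card ≤ 1 :=
          (Finset.card_filter_le _ _).trans (by simp)
        exact_mod_cast h1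
      · exact ⟨(l, p), by simp, hV s hs⟩
      · unfold SmD
        rw [Finset.sum_singleton, Finset.card_singleton, one_div, Real.inv_rpow (by positivity)]
        rw [div_eq_mul_inv]
        have h1 : 0 ≤ (((2 : ℝ) ^ l) ^ β)⁻¹ := by positivity
        push_cast
        linarith
  | succ i ih =>
    intro l p hl V hV
    have hex := fun e : Fin d → Bool => ih (l + 1) (ch p e) (by omega)
      (V ∩ Cb (l + 1, ch p e)) (fun v hv => hv.2)
    choose P C a b c s using hex
    set PU : Finset (Fin d → ℝ) := Finset.univ.biUnion P with hPU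
    set CU : Finset (ℕ × (Fin d → ℕ)) := Finset.univ.biUnion C with hCU
    have hmem : ∀ v ∈ PU, ∃ e, v ∈ P e ∧ v ∈ V ∧ v ∈ Cb (l + 1, ch p e) := by
      intro v hv
      obtain ⟨e, -, he⟩ := Finset.mem_biUnion.1 hv
      have h1 := a e he
      exact ⟨e, he, h1.1, h1.2⟩
    have hPG : (PU : Set (Fin d → ℝ)) ⊆ V := by
      intro v hv
      obtain ⟨e, -, h1, -⟩ := hmem v hv
      exact h1
    have hfine : ∀ l', l + 1 ≤ l' → l' ≤ k → ∀ p' : Fin d → ℕ,
        ((PU.filter fun v => v ∈ Cb (l', p')).card : ℝ) ≤ ((2 : ℝ) ^ (k - l')) ^ β := by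
      intro l' hl1 hl2 p'
      rcases (PU.filter fun v => v ∈ Cb (l', p')).eq_empty_or_nonempty with h1 | ⟨v0, hv0⟩
      · rw [h1, Finset.card_empty]
        exact le_trans (by norm_num) (hX1 _)
      · rw [Finset.mem_filter] at hv0
        obtain ⟨e, he1, -, he3⟩ := hmem v0 hv0.1
        refine le_trans ?_ (b e l' hl1 hl2 p')
        have h2 : (PU.filter fun v => v ∈ Cb (l', p')) ⊆ (P e).filter fun v => v ∈ Cb (l', p') := by
          intro v hv
          rw [Finset.mem_filter] at hv ⊢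
          obtain ⟨e', h3, -, h5⟩ := hmem v hv.1
          have h6 : v ∈ Cb (l + 1, ch p e) := cb_sub hl1 hv0.2 he3 hv.2
          have h7 : e' = e := ch_inj (cb_inj h5 h6)
          rw [h7] at h3
          exact ⟨h3, hv.2⟩
        exact_mod_cast Finset.card_le_card h2
    have hcard : PU.card = ∑ e, (P e).card := by
      rw [hPU, Finset.card_biUnion]
      intro e _ e' _ hne
      show Disjoint (P e) (P e')
      rw [Finset.disjoint_left]
      intro v h1 h2
      exact hne (ch_inj (cb_inj (a e h1).2 (a e' h2).2))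
    by_cases hcase : (PU.card : ℝ) ≤ ((2 : ℝ) ^ (k - l)) ^ β
    · refine ⟨PU, CU, hPG, fun l' hl1 hl2 p' => ?_, ?_, ?_⟩
      · rcases Nat.eq_or_lt_of_le hl1 with h1 | h1
        · subst h1
          exact le_trans (by exact_mod_cast Finset.card_filter_le _ _) hcase
        · exact hfine l' h1 hl2 p'
      · intro v hv
        obtain ⟨e, he⟩ := ex_child (hV v hv)
        obtain ⟨q, hq, hq2⟩ := c e v ⟨hv, he⟩
        exact ⟨q, Finset.mem_biUnion.2 ⟨e, Finset.mem_univ _, hq⟩, hq2⟩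
      · have h1 : SmD β CU ≤ ∑ e, SmD β (C e) := by
          unfold SmD
          exact sum_bU Finset.univ C (fun c : ℕ × (Fin d → ℕ) => (1 / (2 : ℝ) ^ c.1) ^ β)
            fun c => by positivity
        refine h1.trans ?_
        have h2 : 2 * (PU.card : ℝ) / ((2 : ℝ) ^ k) ^ β =
            ∑ e, 2 * ((P e).card : ℝ) / ((2 : ℝ) ^ k) ^ β := by
          rw [hcard, ← Finset.sum_div, ← Finset.mul_sum]
          push_cast
          rfl
        rw [h2]
        exact Finset.sum_le_sum fun e _ => s e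
    · have hX := not_le.1 hcase
      set X : ℝ := ((2 : ℝ) ^ (k - l)) ^ β with hXd
      have hXge : 1 ≤ X := hX1 _
      have hm1 : 1 ≤ ⌊X⌋₊ := (Nat.one_le_floor_iff _).2 hXge
      have hm2 : (⌊X⌋₊ : ℝ) ≤ X := Nat.floor_le (by linarith)
      have hm3 : X < (⌊X⌋₊ : ℝ) + 1 := Nat.lt_floor_add_one X
      have hm4 : ⌊X⌋₊ ≤ PU.card := by
        have : (⌊X⌋₊ : ℝ) ≤ (PU.card : ℝ) := hm2.trans hX.le
        exact_mod_cast this
      obtain ⟨P', hP', hP'c⟩ := Finset.exists_subset_card_eq hm4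
      refine ⟨P', {(l, p)}, fun t ht => hPG (hP' ht), fun l' hl1 hl2 p' => ?_, ?_, ?_⟩
      · rcases Nat.eq_or_lt_of_le hl1 with h1 | h1
        · subst h1
          refine le_trans ?_ hm2
          rw [← hP'c]
          exact_mod_cast Finset.card_filter_le _ _
        · refine le_trans ?_ (hfine l' h1 hl2 p')
          exact_mod_cast Finset.card_le_card (Finset.filter_subset_filter _ hP')
      · intro t ht
        exact ⟨(l, p), Finset.mem_singleton_self _, hV t ht⟩
      · unfold SmD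
        rw [Finset.sum_singleton, hP'c, le_div_iff₀ hkpos, ← Real.mul_rpow (by positivity)
          (by positivity)]
        have e2 : 1 / (2 : ℝ) ^ l * 2 ^ k = 2 ^ (k - l) := by
          have hk : k = l + (k - l) := by omega
          conv_lhs => rw [hk, pow_add]
          field_simp
        show (1 / (2 : ℝ) ^ l * 2 ^ k) ^ β ≤ 2 * (⌊X⌋₊ : ℝ)
        rw [e2, ← hXd]
        have hm5 : (1 : ℝ) ≤ (⌊X⌋₊ : ℝ) := by exact_mod_cast hm1
        linarith

theorem t_FROD : S_FROD := by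
  intro d β k V h0 hV
  obtain ⟨P, C, a, b, c, s⟩ := step (d := d) β k h0 k 0 (fun _ => 0) (by omega) V
    (fun v hv i => by
      have := hV v hv i
      simp only [Nat.cast_zero, pow_zero, zero_add, div_one]
      exact this)
  exact ⟨P, C, a, fun l hl p => b l (Nat.zero_le _) hl p, c, s⟩

end Pool.Agent.H80.FHB
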