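import Pool.Agent.H951.FH.Stm3

/-!
# Project FH, part 3: assembly, slopes in the cube (`S_FVB`)
-/

set_option autoImplicit false

open MeasureTheory
open scoped Classical ENNReal NNReal

namespace Pool.Agent.H383.FHB

open Pool.Agent.H951.FH

theorem t_FVB : S_COV → S_SELD → S_FRO → S_FROD → S_ONEB → S_NBB → S_FVB := by
  intro hCOV hSEL hFRO hFROD hONE hNB d K V B β τ hβ hτ hτ1 hτβ hV hV0 hT
  by_contra hcon
  rw [not_le] at hcon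
  -- the exponent `s`
  obtain ⟨y, hy1, hy2⟩ := exists_between hcon
  have hyt : y ≠ ⊤ := (hy2.trans ENNReal.ofReal_lt_top).ne
  set s : ℝ := y.toReal with hs
  have hys : ENNReal.ofReal s = y := ENNReal.ofReal_toReal hyt
  have hs0 : 0 ≤ s := ENNReal.toReal_nonneg
  have hs1 : dimH K < ENNReal.ofReal s := by rw [hys]; exact hy1
  have hs2 : s < 2 * τ + (β - 1) / 2 := by
    rw [← hys] at hy2
    exact (ENNReal.ofReal_lt_ofReal_iff_of_nonneg hs0).1 hy2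
  obtain ⟨ρ, b, hρ0, hρ1, hb0, hb1, hnb⟩ := hNB β τ s hβ hτ hτ1 hs0 hs2
  set T : (Fin d → ℝ) → Set ℝ := fun v => {t : ℝ | t ∈ Set.Ico (0 : ℝ) 1 ∧
    (Fin.cons t (fun i => B v i + t * v i) : Fin (d + 1) → ℝ) ∈ K} with hTdef
  have hTsub : ∀ v, T v ⊆ Set.Ico 0 1 := fun v t ht => ht.1
  obtain ⟨k1, hsel⟩ := hSEL d V T β τ b ρ hβ hτ hb0 hb1 hρ0 hρ1 hV hV0
    (fun v hv => ⟨hTsub v, hT v hv⟩)
  obtain ⟨k1', hnb'⟩ := hnb (1800000000 * 14 ^ β * (3 ^ d * 2 ^ β) ^ 2 * 64 ^ (d + 1))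
    (by positivity)
  obtain ⟨Q, hQ1, hQ2⟩ := hCOV (d + 1) K s (max k1 k1') hs0 hs1
  set U : (Fin d → ℝ) → ℕ → Set ℝ := fun v k => {t : ℝ | ∃ q ∈ Q k, ∀ i : Fin (d + 1),
    |(2 : ℝ) ^ k * (Fin.cons t (fun i => B v i + t * v i) : Fin (d + 1) → ℝ) i - q i| < 3} with hU
  obtain ⟨k, hk, hvol⟩ := hsel (max k1 k1') (le_max_left _ _) U (by
    intro v hv t ht
    obtain ⟨k, hk, q, hq, h3⟩ := hQ2 _ ht.2
    exact ⟨k, hk, q, hq, h3⟩)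
  obtain ⟨r, hr1, hr2, hr3, hr4⟩ := hnb' k ((le_max_right _ _).trans hk)
  set W₀ : Set (Fin d → ℝ) := {v | v ∈ V ∧ ∀ C : Finset (ℕ × ℕ), Cv C (T v ∩ U v k) →
    b ^ k < Sm τ C} with hW₀
  obtain ⟨W, C', hWsub, hWcnt, hWcov, hWsum⟩ := hFROD d β k W₀ hβ (fun v hv => hV v hv.1)
  set σ : ℝ := b ^ k * ((2 : ℝ) ^ k) ^ τ / 2 with hσ
  have h2k : (0 : ℝ) < ((2 : ℝ) ^ k) ^ τ := Real.rpow_pos_of_pos (by positivity) _
  have h2kβ : (0 : ℝ) < ((2 : ℝ) ^ k) ^ β := Real.rpow_pos_of_pos (by positivity) _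
  have hσ0 : 0 < σ := by rw [hσ]; positivity
  have hWcard : ρ ^ k * ((2 : ℝ) ^ k) ^ β / 2 < W.card := by
    have h1 : ρ ^ k < 2 * (W.card : ℝ) / ((2 : ℝ) ^ k) ^ β := (hvol C' hWcov).trans_le hWsum
    rw [lt_div_iff₀ h2kβ] at h1
    linarith
  have hWpos : 0 < ρ ^ k * ((2 : ℝ) ^ k) ^ β / 2 := by positivity
  have hWne : W.Nonempty := by
    rw [← Finset.card_pos]
    have h1 : (0 : ℝ) < W.card := hWpos.trans hWcard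
    exact_mod_cast h1
  -- the finite sets
  have hP : ∀ v, ∃ P : Finset ℝ, v ∈ W₀ → (P : Set ℝ) ⊆ T v ∩ U v k ∧ σ ≤ P.card ∧
      ∀ l ≤ k, ∀ p : ℕ, ((P.filter fun t => (p : ℝ) / 2 ^ l ≤ t ∧ t < ((p : ℝ) + 1) / 2 ^ l).card :
      ℝ) ≤ ((2 : ℝ) ^ (k - l)) ^ τ := by
    intro v
    by_cases hv : v ∈ W₀
    · obtain ⟨P, C, h1, h2, -, h4, h5⟩ := hFRO τ k (T v ∩ U v k) hτ hτ1
        (fun t ht => hTsub v ht.1)
      refine ⟨P, fun _ => ⟨h1, ?_, h2⟩⟩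
      have h6 : b ^ k < Sm τ C := hv.2 C h4
      have h7 : b ^ k < 2 * (P.card : ℝ) / ((2 : ℝ) ^ k) ^ τ := lt_of_lt_of_le h6 h5
      rw [lt_div_iff₀ h2k] at h7
      rw [hσ]
      linarith
    · exact ⟨∅, fun h => absurd h hv⟩
  choose P hP using hP
  have hWmem : ∀ v ∈ W, v ∈ W₀ := fun v hv => hWsub (Finset.mem_coe.2 hv)
  have hone := hONE d k r W B P (Q k) σ β τ hβ hτ hτ1 hτβ hσ0 hWne
    (fun v hv => hV v (hWmem v hv).1) hWcnt (fun v hv => by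
      obtain ⟨h1, h2, h3⟩ := hP v (hWmem v hv)
      refine ⟨fun t ht => hTsub v (h1 ht).1, h2, h3, fun t ht => ?_⟩
      obtain ⟨q, hq, h4⟩ := (h1 ht).2
      refine ⟨q, hq, ?_, fun i => ?_⟩
      · have := h4 0
        rwa [Fin.cons_zero] at this
      · have := h4 i.succ
        rwa [Fin.cons_succ] at this) hr1 hr2 hr3
  have hcard : ((Q k).card : ℝ) ^ 2 ≤ ((2 : ℝ) ^ (s * (k + 1))) ^ 2 :=
    pow_le_pow_left₀ (Nat.cast_nonneg _) (hQ1 k) 2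
  have hfin : 1800000000 * 14 ^ β * (3 ^ d * 2 ^ β) ^ 2 * 64 ^ (d + 1) * ((k : ℝ) + 1) ^ 11 *
      ((2 : ℝ) ^ k) ^ (1 + 2 * β) * ((Q k).card : ℝ) ^ 2 ≤
      1800000000 * 14 ^ β * (3 ^ d * 2 ^ β) ^ 2 * 64 ^ (d + 1) * ((k : ℝ) + 1) ^ 11 *
      ((2 : ℝ) ^ k) ^ (1 + 2 * β) * ((2 : ℝ) ^ (s * (k + 1))) ^ 2 :=
    mul_le_mul_of_nonneg_left hcard (by positivity)
  have hlow : (ρ ^ k * ((2 : ℝ) ^ k) ^ β / 2) ^ 2 * σ ^ 4 * (r : ℝ) ^ β ≤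
      (W.card : ℝ) ^ 2 * σ ^ 4 * (r : ℝ) ^ β := by
    have h1 : (ρ ^ k * ((2 : ℝ) ^ k) ^ β / 2) ^ 2 ≤ (W.card : ℝ) ^ 2 :=
      pow_le_pow_left₀ hWpos.le hWcard.le 2
    have h2 : (0 : ℝ) ≤ (r : ℝ) ^ β := Real.rpow_nonneg (Nat.cast_nonneg _) _
    exact mul_le_mul_of_nonneg_right (mul_le_mul_of_nonneg_right h1 (by positivity)) h2
  exact absurd ((hlow.trans hone).trans hfin) (not_le.2 hr4)

end Pool.Agent.H383.FHB
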