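import Pool.Agent.H951.FH.Stm3

set_option autoImplicit false

open scoped Classical

namespace Pool.Agent.H280.FHB

open Pool.Agent.H951.FH

theorem mf {α : Type} {p : α → Prop} {inst : DecidablePred p} {s : Finset α} {x : α} :
    x ∈ @Finset.filter α p inst s ↔ x ∈ s ∧ p x := @Finset.mem_filter α p inst s x

theorem fiber_bound (hM : S_MULTB) {Λ : Type} [Fintype Λ] {d n k a r : ℕ} {β G F τ : ℝ}
    {A D : Λ → Fin d → ℝ} {E E3 : Finset (Λ × ℕ)} (h : DatB n k a r β G F τ A D E E3)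
    (w0 w : Λ) (hc : Cl k a (dist (D w0) (D w))) :
    ((E.filter fun z => z.1 = w0 ∧ cel A D z.2 w0 = cel A D z.2 w).card : ℝ) ≤
      6 * F * ((2 : ℝ) ^ a) ^ τ := by
  have hak := h.ak
  unfold Cl at hc
  rw [if_neg (by omega)] at hc
  have h1 := hM Λ d n A D F τ E h.fam.lo h.fam.hi h.t0 h.t1 h.F1 h.shd w0 w ((1 / 2) ^ (a + 1)) (by positivity)
    hc.1.le
  refine h1.trans ?_
  have e1 : (1 : ℝ) / (1 / 2) ^ (a + 1) = 2 * 2 ^ a := by
    rw [one_div, ← inv_pow]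
    norm_num
    ring
  have e2 : (2 : ℝ) ^ τ ≤ 2 := by
    calc (2 : ℝ) ^ τ ≤ (2 : ℝ) ^ (1 : ℝ) :=
          Real.rpow_le_rpow_of_exponent_le (by norm_num) h.t1
      _ = 2 := Real.rpow_one 2
  have hF : 0 < F := lt_of_lt_of_le one_pos h.F1
  have e3 : (0 : ℝ) ≤ ((2 : ℝ) ^ a) ^ τ := Real.rpow_nonneg (by positivity) _
  rw [e1, Real.mul_rpow (by norm_num) (by positivity)]
  calc 3 * F * ((2 : ℝ) ^ τ * ((2 : ℝ) ^ a) ^ τ) ≤ 3 * F * (2 * ((2 : ℝ) ^ a) ^ τ) :=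
        mul_le_mul_of_nonneg_left (mul_le_mul_of_nonneg_right e2 e3) (by positivity)
    _ = 6 * F * ((2 : ℝ) ^ a) ^ τ := by ring

theorem count {Λ : Type} [Fintype Λ] {d k a : ℕ} {A D : Λ → Fin d → ℝ}
    {E E3 : Finset (Λ × ℕ)} (hsub : E3 ⊆ E) (B : ℝ) (hB : ∀ w0 w : Λ, Cl k a (dist (D w0) (D w)) →
      ((E.filter fun z => z.1 = w0 ∧ cel A D z.2 w0 = cel A D z.2 w).card : ℝ) ≤ B)
    (Q : Finset ((Λ × ℕ) × (Λ × ℕ))) (hQ : ∀ p ∈ Q, p.1 ∈ E3 ∧ p.2 ∈ E3 ∧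
      (p.2.2, cel A D p.2.2 p.2.1) = (p.1.2, cel A D p.1.2 p.1.1) ∧
      Cl k a (dist (D p.1.1) (D p.2.1)) ∧ Gd k E3 p.2.1) :
    (Q.card : ℝ) ≤ ∑ w0 : Λ, B * (HB k a A D E3 w0).card := by
  have h1 : Q.card = ∑ w0 : Λ, (Q.filter fun p => p.1.1 = w0).card :=
    Finset.card_eq_sum_card_fiberwise (fun p _ => Finset.mem_coe.2 (Finset.mem_univ _))
  rw [h1, Nat.cast_sum]
  refine Finset.sum_le_sum fun w0 _ => ?_
  have h2 : (Q.filter fun p => p.1.1 = w0).card = ∑ w ∈ HB k a A D E3 w0,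
      ((Q.filter fun p => p.1.1 = w0).filter fun p => p.2.1 = w).card := by
    refine Finset.card_eq_sum_card_fiberwise (fun p hp => ?_)
    have hp' := Finset.mem_filter.1 (Finset.mem_coe.1 hp)
    obtain ⟨g1, g2, g3, g4, g5⟩ := hQ p hp'.1
    have g6 : p.2.2 = p.1.2 := congrArg Prod.fst g3
    have g7 : cel A D p.2.2 p.2.1 = cel A D p.1.2 p.1.1 := congrArg Prod.snd g3
    refine Finset.mem_coe.2 ?_
    unfold HB
    refine Finset.mem_filter.2 ⟨Finset.mem_univ _, g5, ?_, p.1.2, ?_, ?_, ?_⟩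
    · rw [← hp'.2]
      exact g4
    · rw [← hp'.2]
      exact g1
    · rw [← g6]
      exact g2
    · rw [← hp'.2, ← g7, g6]
  rw [h2, Nat.cast_sum, mul_comm, ← nsmul_eq_mul]
  refine Finset.sum_le_card_nsmul _ _ _ fun w hw => ?_
  have hc : Cl k a (dist (D w0) (D w)) := by
    unfold HB at hw
    exact (Finset.mem_filter.1 hw).2.2.1
  refine le_trans ?_ (hB w0 w hc)
  have h3 : ((Q.filter fun p => p.1.1 = w0).filter fun p => p.2.1 = w).card ≤
      (E.filter fun z => z.1 = w0 ∧ cel A D z.2 w0 = cel A D z.2 w).card := by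
    refine Finset.card_le_card_of_injOn Prod.fst ?_ ?_
    · intro p hp
      have hp1 := Finset.mem_filter.1 (Finset.mem_coe.1 hp)
      have hp2 := Finset.mem_filter.1 hp1.1
      obtain ⟨g1, g2, g3, g4, g5⟩ := hQ p hp2.1
      have g6 : p.2.2 = p.1.2 := congrArg Prod.fst g3
      have g7 : cel A D p.2.2 p.2.1 = cel A D p.1.2 p.1.1 := congrArg Prod.snd g3
      refine Finset.mem_coe.2 (Finset.mem_filter.2 ⟨hsub g1, hp2.2, ?_⟩)
      rw [← hp2.2, ← hp1.2, ← g7, g6]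
    · intro p hp p' hp' he
      have hp1 := Finset.mem_filter.1 (Finset.mem_coe.1 hp)
      have hp2 := Finset.mem_filter.1 hp1.1
      have hp1' := Finset.mem_filter.1 (Finset.mem_coe.1 hp')
      have hp2' := Finset.mem_filter.1 hp1'.1
      have g3 := (hQ p hp2.1).2.2.1
      have g3' := (hQ p' hp2'.1).2.2.1
      have g6 : p.2.2 = p.1.2 := congrArg Prod.fst g3
      have g6' : p'.2.2 = p'.1.2 := congrArg Prod.fst g3'
      refine Prod.ext he (Prod.ext ?_ ?_)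
      · rw [hp1.2, hp1'.2]
      · rw [g6, g6', he]
  exact_mod_cast h3

theorem t_NUMB : S_GOOD → S_MULTB → S_NUMB := by
  intro hG hM Λ _ d n k a r β G F τ A D E E3 h
  have hK : (0 : ℝ) < (k : ℝ) + 1 := by positivity
  have hE : (0 : ℝ) < E.card := by exact_mod_cast Finset.card_pos.2 h.ne
  have hS : (0 : ℝ) < (E.image fun z => (z.2, cel A D z.2 z.1)).card := by
    exact_mod_cast Finset.card_pos.2 (h.ne.image _)
  have hm0 : 0 < (E.card : ℝ) / (2 * (E.image fun z => (z.2, cel A D z.2 z.1)).card) := by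
    positivity
  have hg := hG (Λ × ℕ) Λ E3 Prod.fst
    (fun z z' => (z'.2, cel A D z'.2 z'.1) = (z.2, cel A D z.2 z.1) ∧
      Cl k a (dist (D z.1) (D z'.1)))
    (fun z => ((E.filter fun z' => (z'.2, cel A D z'.2 z'.1) = (z.2, cel A D z.2 z.1)).card : ℝ))
    ((E.card : ℝ) / (2 * (E.image fun z => (z.2, cel A D z.2 z.1)).card)) ((k : ℝ) + 1) hm0 hK
    (fun x y hxy => ⟨hxy.1.symm, by
      have h2 := hxy.2
      rw [dist_comm] at h2
      exact h2⟩)
    (fun z z' hzz => by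
      have h1 := hzz.1
      simp only [h1])
    (fun z hz => ⟨h.hea z hz, (h.deg z hz).trans (by
      refine Nat.cast_le.2 (Finset.card_le_card fun z' hz' => ?_)
      have h1 := mf.1 hz'
      exact mf.2 h1), by
      refine Nat.cast_le.2 (Finset.card_le_card fun z' hz' => ?_)
      have h1 := mf.1 hz'
      exact mf.2 ⟨h.sub h1.1, h1.2.1⟩⟩)
  refine hg.trans (count h.sub (6 * F * ((2 : ℝ) ^ a) ^ τ)
    (fun w0 w hc => fiber_bound hM h w0 w hc) _ fun p hp => ?_)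
  have hp' := mf.1 hp
  have hp2 := Finset.mem_product.1 hp'.1
  refine ⟨hp2.1, hp2.2, hp'.2.1.1, hp'.2.1.2, ?_⟩
  unfold Gd
  refine hp'.2.2.trans (Nat.cast_le.2 (Finset.card_le_card fun z hz => ?_))
  have h1 := mf.1 hz
  exact mf.2 h1

end Pool.Agent.H280.FHB
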