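import Pool.Agent.H951.FH.Stm3

/-!
# Project FH, part 3: the inequality at one scale (sets of directions of smaller dimension)
-/

set_option autoImplicit false

open MeasureTheory
open scoped Classical ENNReal NNReal

namespace Pool.Agent.H632.FHB

open Pool.Agent.H951.FH

/-- the shading -/
noncomputable def EE {Λ : Type} [Fintype Λ] (k : ℕ) (P : Λ → Finset ℝ) : Finset (Λ × ℕ) :=
  (Finset.univ ×ˢ Finset.range (2 ^ k)).filter (fun z => ∃ t ∈ P z.1, ⌊(2 : ℝ) ^ k * t⌋₊ = z.2)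

section

variable {Λ : Type} [Fintype Λ] (k : ℕ) (P : Λ → Finset ℝ)

theorem mem_EE (z : Λ × ℕ) : z ∈ EE k P ↔ z.2 < 2 ^ k ∧ ∃ t ∈ P z.1, ⌊(2 : ℝ) ^ k * t⌋₊ = z.2 := by
  unfold EE
  rw [Finset.mem_filter, Finset.mem_product, Finset.mem_range]
  simp

/-- a dyadic interval in terms of the floor -/
theorem dy (l s p : ℕ) (hls : l + s = k) (t : ℝ) (ht : 0 ≤ t)
    (h1 : p * 2 ^ s ≤ ⌊(2 : ℝ) ^ k * t⌋₊) (h2 : ⌊(2 : ℝ) ^ k * t⌋₊ < (p + 1) * 2 ^ s) :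
    (p : ℝ) / 2 ^ l ≤ t ∧ t < ((p : ℝ) + 1) / 2 ^ l := by
  have h0 : 0 ≤ (2 : ℝ) ^ k * t := by positivity
  have e : (2 : ℝ) ^ k = 2 ^ l * 2 ^ s := by rw [← hls, pow_add]
  have hs : (0 : ℝ) < 2 ^ s := by positivity
  have hl : (0 : ℝ) < 2 ^ l := by positivity
  constructor
  · have h3 : ((p * 2 ^ s : ℕ) : ℝ) ≤ (2 : ℝ) ^ k * t := (Nat.cast_le.2 h1).trans (Nat.floor_le h0)
    push_cast at h3
    rw [e] at h3
    rw [div_le_iff₀ hl]
    have : (p : ℝ) * 2 ^ s ≤ (t * 2 ^ l) * 2 ^ s := by linarith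
    exact le_of_mul_le_mul_right this hs
  · have h3 : (2 : ℝ) ^ k * t < (((p + 1) * 2 ^ s : ℕ) : ℝ) := by
      have h4 : (2 : ℝ) ^ k * t < (⌊(2 : ℝ) ^ k * t⌋₊ : ℝ) + 1 := Nat.lt_floor_add_one _
      have h5 : ((⌊(2 : ℝ) ^ k * t⌋₊ : ℕ) : ℝ) + 1 ≤ (((p + 1) * 2 ^ s : ℕ) : ℝ) := by
        exact_mod_cast h2
      linarith
    push_cast at h3
    rw [e] at h3
    rw [lt_div_iff₀ hl]
    have : (t * 2 ^ l) * 2 ^ s < ((p : ℝ) + 1) * 2 ^ s := by linarith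
    exact lt_of_mul_lt_mul_right this hs.le

variable (τ : ℝ) (h01 : ∀ w, (P w : Set ℝ) ⊆ Set.Ico 0 1)
  (hfr : ∀ w, ∀ l ≤ k, ∀ p : ℕ, (((P w).filter fun t => (p : ℝ) / 2 ^ l ≤ t ∧
      t < ((p : ℝ) + 1) / 2 ^ l).card : ℝ) ≤ ((2 : ℝ) ^ (k - l)) ^ τ)

include h01 hfr

set_option linter.unusedSectionVars false

theorem inj_floor (w : Λ) : Set.InjOn (fun t : ℝ => ⌊(2 : ℝ) ^ k * t⌋₊) (P w : Set ℝ) := by
  intro t ht t' ht' he
  have he' : ⌊(2 : ℝ) ^ k * t⌋₊ = ⌊(2 : ℝ) ^ k * t'⌋₊ := he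
  have h := hfr w k le_rfl ⌊(2 : ℝ) ^ k * t⌋₊
  rw [Nat.sub_self, pow_zero, Real.one_rpow] at h
  have h' : ((P w).filter fun s => ((⌊(2 : ℝ) ^ k * t⌋₊ : ℕ) : ℝ) / 2 ^ k ≤ s ∧
      s < (((⌊(2 : ℝ) ^ k * t⌋₊ : ℕ) : ℝ) + 1) / 2 ^ k).card ≤ 1 := by exact_mod_cast h
  rw [Finset.card_le_one] at h'
  apply h'
  · rw [Finset.mem_filter]
    refine ⟨ht, dy k k 0 _ (by omega) t (h01 w ht).1 (by simp) (by simp)⟩
  · rw [Finset.mem_filter]
    refine ⟨ht', dy k k 0 _ (by omega) t' (h01 w ht').1 (by rw [he']; simp) (by rw [he']; simp)⟩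

theorem card_fib (w : Λ) : (P w).card ≤ ((EE k P).filter fun z => z.1 = w).card := by
  apply Finset.card_le_card_of_injOn (fun t => (w, ⌊(2 : ℝ) ^ k * t⌋₊))
  · intro t ht
    rw [Finset.mem_coe, Finset.mem_filter, mem_EE]
    refine ⟨⟨?_, t, ht, rfl⟩, rfl⟩
    have h := h01 w ht
    show ⌊(2 : ℝ) ^ k * t⌋₊ < 2 ^ k
    rw [Nat.floor_lt (mul_nonneg (by positivity) h.1)]
    push_cast
    have := h.2
    have h2 : (0 : ℝ) < 2 ^ k := by positivity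
    nlinarith
  · intro t ht t' ht' he
    exact inj_floor k P τ h01 hfr w ht ht' (congrArg Prod.snd he)

theorem card_EE (σ : ℝ) (hσ : ∀ w, σ ≤ (P w).card) : (Fintype.card Λ : ℝ) * σ ≤ (EE k P).card := by
  have e : (EE k P).card = ∑ w : Λ, ((EE k P).filter fun z => z.1 = w).card :=
    Finset.card_eq_sum_card_fiberwise (f := Prod.fst) (t := Finset.univ) (fun z _ => Finset.mem_coe.2 (Finset.mem_univ _))
  rw [e]
  push_cast
  calc (Fintype.card Λ : ℝ) * σ = ∑ _w : Λ, σ := by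
        rw [Finset.sum_const, nsmul_eq_mul, Finset.card_univ]
    _ ≤ _ := Finset.sum_le_sum fun w _ => (hσ w).trans (by exact_mod_cast card_fib k P τ h01 hfr w)

theorem shd (hτ : 0 < τ) : Shd (2 ^ k) 3 τ (EE k P) := by
  refine ⟨fun z hz => ((mem_EE k P z).1 hz).1, fun w a m hm => ?_⟩
  have hsub : ((EE k P).filter fun z => z.1 = w ∧ a ≤ z.2 ∧ z.2 < a + m) ⊆
      ((P w).filter fun t => a ≤ ⌊(2 : ℝ) ^ k * t⌋₊ ∧ ⌊(2 : ℝ) ^ k * t⌋₊ < a + m).image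
        (fun t => (w, ⌊(2 : ℝ) ^ k * t⌋₊)) := by
    intro z hz
    rw [Finset.mem_filter, mem_EE] at hz
    obtain ⟨⟨_, t, ht, he⟩, rfl, h3, h4⟩ := hz
    rw [Finset.mem_image]
    refine ⟨t, ?_, ?_⟩
    · rw [Finset.mem_filter]
      exact ⟨ht, by rw [he]; exact h3, by rw [he]; exact h4⟩
    · rw [he]
  have hc1 : (((EE k P).filter fun z => z.1 = w ∧ a ≤ z.2 ∧ z.2 < a + m).card : ℝ) ≤
      ((P w).filter fun t => a ≤ ⌊(2 : ℝ) ^ k * t⌋₊ ∧ ⌊(2 : ℝ) ^ k * t⌋₊ < a + m).card := by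
    exact_mod_cast (Finset.card_le_card hsub).trans Finset.card_image_le
  refine hc1.trans ?_
  have hm0 : (0 : ℝ) < m := by exact_mod_cast hm
  have hmτ : 0 < (m : ℝ) ^ τ := Real.rpow_pos_of_pos hm0 _
  rcases le_or_gt m (2 ^ k) with hmk | hmk
  · -- blocks of length `2 ^ s`
    obtain ⟨s, hs⟩ : ∃ s : ℕ, s = Nat.log 2 m := ⟨_, rfl⟩
    have hs1 : 2 ^ s ≤ m := by rw [hs]; exact Nat.pow_log_le_self 2 (by omega)
    have hs2 : m < 2 ^ (s + 1) := by rw [hs]; exact Nat.lt_pow_succ_log_self (by norm_num) m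
    have hsk : s ≤ k := (Nat.pow_le_pow_iff_right (by norm_num)).1 (hs1.trans hmk)
    have hls : (k - s) + s = k := by omega
    have h2s : 0 < 2 ^ s := by positivity
    have hcov : ((P w).filter fun t => a ≤ ⌊(2 : ℝ) ^ k * t⌋₊ ∧ ⌊(2 : ℝ) ^ k * t⌋₊ < a + m) ⊆
        (Finset.range 3).biUnion fun i => ((P w).filter fun t =>
          ((a / 2 ^ s + i : ℕ) : ℝ) / 2 ^ (k - s) ≤ t ∧ t < (((a / 2 ^ s + i : ℕ) : ℝ) + 1) / 2 ^ (k - s)) := by
      intro t ht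
      rw [Finset.mem_filter] at ht
      obtain ⟨ht, h3, h4⟩ := ht
      rw [Finset.mem_biUnion]
      have hlo : a / 2 ^ s * 2 ^ s ≤ a := Nat.div_mul_le_self _ _
      have hhi : a < (a / 2 ^ s + 1) * 2 ^ s := by
        rw [mul_comm]; exact Nat.lt_mul_div_succ a h2s
      have hJ : ⌊(2 : ℝ) ^ k * t⌋₊ < (a / 2 ^ s + 3) * 2 ^ s := by
        have : 2 ^ (s + 1) = 2 * 2 ^ s := by ring
        nlinarith
      have hJ2 : a / 2 ^ s * 2 ^ s ≤ ⌊(2 : ℝ) ^ k * t⌋₊ := hlo.trans h3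
      have hq1 : a / 2 ^ s ≤ ⌊(2 : ℝ) ^ k * t⌋₊ / 2 ^ s := (Nat.le_div_iff_mul_le h2s).2 hJ2
      have hq2 : ⌊(2 : ℝ) ^ k * t⌋₊ / 2 ^ s < a / 2 ^ s + 3 := (Nat.div_lt_iff_lt_mul h2s).2 hJ
      have hqi : a / 2 ^ s + (⌊(2 : ℝ) ^ k * t⌋₊ / 2 ^ s - a / 2 ^ s) = ⌊(2 : ℝ) ^ k * t⌋₊ / 2 ^ s := by
        omega
      refine ⟨⌊(2 : ℝ) ^ k * t⌋₊ / 2 ^ s - a / 2 ^ s, Finset.mem_range.2 (by omega), ?_⟩
      rw [Finset.mem_filter]
      refine ⟨ht, dy k (k - s) s _ hls t (h01 w ht).1 ?_ ?_⟩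
      · rw [hqi]; exact Nat.div_mul_le_self _ _
      · rw [hqi, mul_comm (⌊(2 : ℝ) ^ k * t⌋₊ / 2 ^ s + 1)]; exact Nat.lt_mul_div_succ _ h2s
    have h5 : (((P w).filter fun t => a ≤ ⌊(2 : ℝ) ^ k * t⌋₊ ∧ ⌊(2 : ℝ) ^ k * t⌋₊ < a + m).card : ℝ) ≤
        ∑ i ∈ Finset.range 3, (((P w).filter fun t =>
          ((a / 2 ^ s + i : ℕ) : ℝ) / 2 ^ (k - s) ≤ t ∧
            t < (((a / 2 ^ s + i : ℕ) : ℝ) + 1) / 2 ^ (k - s)).card : ℝ) := by
      exact_mod_cast (Finset.card_le_card hcov).trans Finset.card_biUnion_le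
    refine h5.trans ?_
    have h6 : ∀ i ∈ Finset.range 3, (((P w).filter fun t =>
          ((a / 2 ^ s + i : ℕ) : ℝ) / 2 ^ (k - s) ≤ t ∧
            t < (((a / 2 ^ s + i : ℕ) : ℝ) + 1) / 2 ^ (k - s)).card : ℝ) ≤ (m : ℝ) ^ τ := by
      intro i _
      refine (hfr w (k - s) (Nat.sub_le _ _) (a / 2 ^ s + i)).trans ?_
      have e : k - (k - s) = s := by omega
      rw [e]
      refine Real.rpow_le_rpow (by positivity) ?_ hτ.le
      exact_mod_cast hs1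
    refine (Finset.sum_le_sum h6).trans ?_
    rw [Finset.sum_const, Finset.card_range, nsmul_eq_mul]
    norm_num
  · have hcov : ((P w).filter fun t => a ≤ ⌊(2 : ℝ) ^ k * t⌋₊ ∧ ⌊(2 : ℝ) ^ k * t⌋₊ < a + m) ⊆
        ((P w).filter fun t => ((0 : ℕ) : ℝ) / 2 ^ 0 ≤ t ∧ t < (((0 : ℕ) : ℝ) + 1) / 2 ^ 0) := by
      intro t ht
      rw [Finset.mem_filter] at ht ⊢
      refine ⟨ht.1, ?_, ?_⟩
      · have := (h01 w ht.1).1
        simpa using this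
      · have := (h01 w ht.1).2
        simpa using this
    have h5 := hfr w 0 (Nat.zero_le _) 0
    have h6 : (((P w).filter fun t => a ≤ ⌊(2 : ℝ) ^ k * t⌋₊ ∧ ⌊(2 : ℝ) ^ k * t⌋₊ < a + m).card : ℝ) ≤
        (((P w).filter fun t => ((0 : ℕ) : ℝ) / 2 ^ 0 ≤ t ∧ t < (((0 : ℕ) : ℝ) + 1) / 2 ^ 0).card : ℝ) := by
      exact_mod_cast Finset.card_le_card hcov
    refine (h6.trans h5).trans ?_
    have h7 : ((2 : ℝ) ^ (k - 0)) ^ τ ≤ (m : ℝ) ^ τ := by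
      refine Real.rpow_le_rpow (by positivity) ?_ hτ.le
      rw [Nat.sub_zero]
      exact_mod_cast hmk.le
    linarith

end

/-- the number of cells -/
theorem cells {Λ : Type} [Fintype Λ] (d k : ℕ) (D B : Λ → Fin d → ℝ) (P : Λ → Finset ℝ)
    (Q : Finset (Fin (d + 1) → ℤ)) (hD : ∀ w i, 0 ≤ D w i ∧ D w i ≤ 1)
    (h01 : ∀ w, (P w : Set ℝ) ⊆ Set.Ico 0 1)
    (hQ : ∀ w, ∀ t ∈ P w, ∃ q ∈ Q, |(2 : ℝ) ^ k * t - q 0| < 3 ∧
      ∀ i : Fin d, |(2 : ℝ) ^ k * (B w i + t * D w i) - q i.succ| < 3) :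
    (((EE k P).image fun z => (z.2, cel (fun w i => (2 : ℝ) ^ k * B w i) D z.2 z.1)).card : ℝ) ≤
      8 ^ (d + 1) * Q.card := by
  have hsub : ((EE k P).image fun z => (z.2, cel (fun w i => (2 : ℝ) ^ k * B w i) D z.2 z.1)) ⊆
      (Q ×ˢ Fintype.piFinset (fun _ : Fin (d + 1) => Finset.Icc (-4 : ℤ) 3)).image
        (fun x => ((x.1 0 + x.2 0).toNat, fun i : Fin d => x.1 i.succ + x.2 i.succ)) := by
    intro y hy
    rw [Finset.mem_image] at hy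
    obtain ⟨z, hz, rfl⟩ := hy
    rw [mem_EE] at hz
    obtain ⟨_, t, ht, he⟩ := hz
    obtain ⟨q, hq, hq0, hqi⟩ := hQ z.1 t ht
    have ht01 := h01 z.1 ht
    have hpos : 0 ≤ (2 : ℝ) ^ k * t := mul_nonneg (by positivity) ht01.1
    have hj1 : (z.2 : ℝ) ≤ (2 : ℝ) ^ k * t := by rw [← he]; exact Nat.floor_le hpos
    have hj2 : (2 : ℝ) ^ k * t < (z.2 : ℝ) + 1 := by rw [← he]; exact Nat.lt_floor_add_one _
    rw [abs_lt] at hq0
    have hcel : ∀ i : Fin d, -4 ≤ cel (fun w i => (2 : ℝ) ^ k * B w i) D z.2 z.1 i - q i.succ ∧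
        cel (fun w i => (2 : ℝ) ^ k * B w i) D z.2 z.1 i - q i.succ ≤ 3 := by
      intro i
      have h1 := hqi i
      rw [abs_lt] at h1
      have hDi := hD z.1 i
      have e : (2 : ℝ) ^ k * B z.1 i + (z.2 : ℝ) * D z.1 i =
          (2 : ℝ) ^ k * (B z.1 i + t * D z.1 i) - ((2 : ℝ) ^ k * t - z.2) * D z.1 i := by ring
      have h2 : 0 ≤ ((2 : ℝ) ^ k * t - z.2) * D z.1 i := mul_nonneg (by linarith) hDi.1
      have h3 : ((2 : ℝ) ^ k * t - z.2) * D z.1 i ≤ 1 := by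
        have : ((2 : ℝ) ^ k * t - z.2) ≤ 1 := by linarith
        nlinarith [hDi.2]
      show -4 ≤ ⌊(2 : ℝ) ^ k * B z.1 i + (z.2 : ℝ) * D z.1 i⌋ - q i.succ ∧
        ⌊(2 : ℝ) ^ k * B z.1 i + (z.2 : ℝ) * D z.1 i⌋ - q i.succ ≤ 3
      constructor
      · have h4 : q i.succ - 4 ≤ ⌊(2 : ℝ) ^ k * B z.1 i + (z.2 : ℝ) * D z.1 i⌋ := by
          apply Int.le_floor.2
          push_cast
          linarith
        linarith
      · have h4 : ⌊(2 : ℝ) ^ k * B z.1 i + (z.2 : ℝ) * D z.1 i⌋ < q i.succ + 3 := by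
          apply Int.floor_lt.2
          push_cast
          linarith
        linarith
    have hj : -4 ≤ (z.2 : ℤ) - q 0 ∧ (z.2 : ℤ) - q 0 ≤ 3 := by
      constructor
      · have h4 : ((q 0 : ℤ) : ℝ) < (((z.2 : ℤ) + 4 : ℤ) : ℝ) := by push_cast; linarith
        have h5 : q 0 < (z.2 : ℤ) + 4 := by exact_mod_cast h4
        linarith
      · have h4 : (((z.2 : ℤ) : ℤ) : ℝ) < ((q 0 + 3 : ℤ) : ℝ) := by push_cast; linarith
        have h5 : (z.2 : ℤ) < q 0 + 3 := by exact_mod_cast h4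
        linarith
    rw [Finset.mem_image]
    refine ⟨(q, Fin.cons ((z.2 : ℤ) - q 0)
      (fun i => cel (fun w i => (2 : ℝ) ^ k * B w i) D z.2 z.1 i - q i.succ)), ?_, ?_⟩
    · rw [Finset.mem_product]
      refine ⟨hq, ?_⟩
      rw [Fintype.mem_piFinset]
      intro i
      rw [Finset.mem_Icc]
      refine Fin.cases ?_ (fun i => ?_) i
      · simp only [Fin.cons_zero]; exact hj
      · simp only [Fin.cons_succ]; exact hcel i
    · apply Prod.ext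
      · simp only [Fin.cons_zero]
        rw [add_sub_cancel, Int.toNat_natCast]
      · funext i
        simp only [Fin.cons_succ]
        ring
  have h1 := (Finset.card_le_card hsub).trans Finset.card_image_le
  have h2 : (Q ×ˢ Fintype.piFinset (fun _ : Fin (d + 1) => Finset.Icc (-4 : ℤ) 3)).card =
      8 ^ (d + 1) * Q.card := by
    rw [Finset.card_product, Fintype.card_piFinset, Finset.prod_const, Finset.card_univ, Fintype.card_fin,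
      Int.card_Icc]
    have : ((3 : ℤ) + 1 - -4).toNat = 8 := by decide
    rw [this, mul_comm]
  rw [h2] at h1
  exact_mod_cast h1

/-- an interval of length at most two sides meets three dyadic intervals -/
theorem three (N x u R : ℝ) (hx : 0 ≤ x) (hN : 0 < N) (hR : R * N ≤ 1) (h : |x - u| ≤ R) :
    ∃ j ∈ Finset.Icc ⌊N * (u - R)⌋ (⌊N * (u - R)⌋ + 2), ((j.toNat : ℕ) : ℝ) ≤ N * x ∧
      N * x < ((j.toNat : ℕ) : ℝ) + 1 := by
  have h0 : 0 ≤ N * x := mul_nonneg hN.le hx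
  rw [abs_le] at h
  have hf0 : 0 ≤ ⌊N * x⌋ := Int.floor_nonneg.2 h0
  have hcast : ((⌊N * x⌋.toNat : ℕ) : ℝ) = (⌊N * x⌋ : ℝ) := by
    have : ((⌊N * x⌋.toNat : ℕ) : ℤ) = ⌊N * x⌋ := Int.toNat_of_nonneg hf0
    exact_mod_cast this
  refine ⟨⌊N * x⌋, ?_, ?_, ?_⟩
  · rw [Finset.mem_Icc]
    constructor
    · apply Int.floor_le_floor
      nlinarith
    · have h2 : N * x ≤ N * (u - R) + 2 := by nlinarith
      have h3 : N * (u - R) < (⌊N * (u - R)⌋ : ℝ) + 1 := Int.lt_floor_add_one _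
      have h4 : ⌊N * x⌋ < ⌊N * (u - R)⌋ + 3 := by
        apply Int.floor_lt.2
        push_cast
        linarith
      omega
  · rw [hcast]; exact Int.floor_le _
  · rw [hcast]; exact Int.lt_floor_add_one _

/-- the Frostman condition for balls -/
theorem famB (d k : ℕ) (W : Finset (Fin d → ℝ)) (β : ℝ) (hβ : 0 < β)
    (hW : ∀ v ∈ W, ∀ i, 0 ≤ v i ∧ v i < 1)
    (hfr : ∀ l ≤ k, ∀ p : Fin d → ℕ, ((W.filter fun v => v ∈ Cb (l, p)).card : ℝ) ≤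
      ((2 : ℝ) ^ (k - l)) ^ β) :
    FamB (2 ^ k) β (3 ^ d * 2 ^ β) (fun w : {v // v ∈ W} => w.1) := by
  refine ⟨Nat.one_le_two_pow, fun w i => (hW _ w.2 i).1, fun w i => (hW _ w.2 i).2.le, ?_⟩
  intro u R hRn
  have hcast : ((2 ^ k : ℕ) : ℝ) = (2 : ℝ) ^ k := by push_cast; rfl
  rw [hcast] at hRn ⊢
  have hn0 : (0 : ℝ) < (2 : ℝ) ^ k := by positivity
  have hRpos : 0 < R := by
    by_contra hcon
    have : R * 2 ^ k ≤ 0 := mul_nonpos_of_nonpos_of_nonneg (not_lt.1 hcon) hn0.le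
    linarith
  have hRn0 : 0 < R * (2 : ℝ) ^ k := mul_pos hRpos hn0
  have h2β : (1 : ℝ) ≤ (2 : ℝ) ^ β := Real.one_le_rpow (by norm_num) hβ.le
  have h3d : (1 : ℝ) ≤ (3 : ℝ) ^ d := one_le_pow₀ (by norm_num)
  -- the number of points of a cube
  have hcube : ∀ l ≤ k, ∀ p : Fin d → ℕ,
      ((Finset.univ.filter fun w : {v // v ∈ W} => w.1 ∈ Cb (l, p)).card : ℝ) ≤
        ((2 : ℝ) ^ (k - l)) ^ β := by
    intro l hl p
    refine le_trans ?_ (hfr l hl p)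
    have hc : (Finset.univ.filter fun w : {v // v ∈ W} => w.1 ∈ Cb (l, p)).card ≤
        (W.filter fun v => v ∈ Cb (l, p)).card := by
      apply Finset.card_le_card_of_injOn (fun w => w.1)
      · intro w hw
        rw [Finset.mem_coe, Finset.mem_filter] at hw ⊢
        exact ⟨w.2, hw.2⟩
      · intro w _ w' _ he
        exact Subtype.ext he
    exact_mod_cast hc
  rcases le_or_gt 1 R with hR1 | hR1
  · -- the whole set
    have h1 : (Finset.univ.filter fun w : {v // v ∈ W} => dist w.1 u ≤ R) ⊆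
        (Finset.univ.filter fun w : {v // v ∈ W} => w.1 ∈ Cb (0, fun _ : Fin d => 0)) := by
      intro w _
      rw [Finset.mem_filter]
      refine ⟨Finset.mem_univ _, fun i => ?_⟩
      have h := hW _ w.2 i
      constructor
      · simpa using h.1
      · simpa using h.2
    have h2 : ((Finset.univ.filter fun w : {v // v ∈ W} => dist w.1 u ≤ R).card : ℝ) ≤
        ((Finset.univ.filter fun w : {v // v ∈ W} => w.1 ∈ Cb (0, fun _ : Fin d => 0)).card : ℝ) := by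
      exact_mod_cast Finset.card_le_card h1
    refine h2.trans ((hcube 0 (Nat.zero_le _) _).trans ?_)
    rw [Nat.sub_zero]
    have h3 : ((2 : ℝ) ^ k) ^ β ≤ (R * (2 : ℝ) ^ k) ^ β := by
      apply Real.rpow_le_rpow hn0.le _ hβ.le
      nlinarith
    have h4 : 0 ≤ (R * (2 : ℝ) ^ k) ^ β := Real.rpow_nonneg hRn0.le _
    have h5 : (1 : ℝ) ≤ 3 ^ d * 2 ^ β := by nlinarith
    nlinarith
  · -- cubes of side about `R`
    obtain ⟨s, hs1, hs2⟩ := exists_nat_pow_near hRn (by norm_num : (1 : ℝ) < 2)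
    have hsk : s < k := by
      have h1 : (2 : ℝ) ^ s < 2 ^ k := by
        refine lt_of_le_of_lt hs1 ?_
        nlinarith
      exact (pow_lt_pow_iff_right₀ (by norm_num)).1 h1
    have hkl : k - (k - (s + 1)) = s + 1 := by omega
    have hlk : k - (s + 1) ≤ k := Nat.sub_le _ _
    obtain ⟨l, hl⟩ : ∃ l, l = k - (s + 1) := ⟨_, rfl⟩
    rw [← hl] at hkl hlk
    have hN : (0 : ℝ) < (2 : ℝ) ^ l := by positivity
    have hRN : R * (2 : ℝ) ^ l ≤ 1 := by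
      have e : (2 : ℝ) ^ k = 2 ^ l * 2 ^ (s + 1) := by rw [← pow_add]; congr 1; omega
      rw [e] at hs2
      have h2s : (0 : ℝ) < 2 ^ (s + 1) := by positivity
      have h1 : (R * 2 ^ l) * 2 ^ (s + 1) ≤ 1 * 2 ^ (s + 1) := by linarith
      exact le_of_mul_le_mul_right h1 h2s
    obtain ⟨S, hS⟩ : ∃ S : Finset (Fin d → ℕ), S =
        (Fintype.piFinset (fun i : Fin d => Finset.Icc ⌊(2 : ℝ) ^ l * (u i - R)⌋
          (⌊(2 : ℝ) ^ l * (u i - R)⌋ + 2))).image (fun g i => (g i).toNat) := ⟨_, rfl⟩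
    have hScard : (S.card : ℝ) ≤ 3 ^ d := by
      have h1 : S.card ≤ 3 ^ d := by
        rw [hS]
        refine Finset.card_image_le.trans ?_
        rw [Fintype.card_piFinset]
        have h2 : ∀ i : Fin d, (Finset.Icc ⌊(2 : ℝ) ^ l * (u i - R)⌋
          (⌊(2 : ℝ) ^ l * (u i - R)⌋ + 2)).card = 3 := by
          intro i
          rw [Int.card_Icc]
          omega
        rw [Finset.prod_congr rfl (fun i _ => h2 i), Finset.prod_const, Finset.card_univ,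
          Fintype.card_fin]
      exact_mod_cast h1
    have hcov : (Finset.univ.filter fun w : {v // v ∈ W} => dist w.1 u ≤ R) ⊆
        S.biUnion fun p => (Finset.univ.filter fun w : {v // v ∈ W} => w.1 ∈ Cb (l, p)) := by
      intro w hw
      rw [Finset.mem_filter] at hw
      have hd : ∀ i, |w.1 i - u i| ≤ R := by
        intro i
        have := (dist_pi_le_iff hRpos.le).1 hw.2 i
        rwa [Real.dist_eq] at this
      have hex : ∀ i : Fin d, ∃ j ∈ Finset.Icc ⌊(2 : ℝ) ^ l * (u i - R)⌋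
          (⌊(2 : ℝ) ^ l * (u i - R)⌋ + 2), ((j.toNat : ℕ) : ℝ) ≤ (2 : ℝ) ^ l * w.1 i ∧
          (2 : ℝ) ^ l * w.1 i < ((j.toNat : ℕ) : ℝ) + 1 := fun i =>
        three _ _ _ _ (hW _ w.2 i).1 hN hRN (hd i)
      choose g hg1 hg2 hg3 using hex
      rw [Finset.mem_biUnion]
      refine ⟨fun i => (g i).toNat, ?_, ?_⟩
      · rw [hS, Finset.mem_image]
        refine ⟨g, ?_, rfl⟩
        rw [Fintype.mem_piFinset]
        exact hg1
      · rw [Finset.mem_filter]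
        refine ⟨Finset.mem_univ _, fun i => ?_⟩
        constructor
        · show (((g i).toNat : ℕ) : ℝ) / 2 ^ l ≤ w.1 i
          rw [div_le_iff₀ hN, mul_comm]
          exact hg2 i
        · show w.1 i < ((((g i).toNat : ℕ) : ℝ) + 1) / 2 ^ l
          rw [lt_div_iff₀ hN, mul_comm]
          exact hg3 i
    have h1 : ((Finset.univ.filter fun w : {v // v ∈ W} => dist w.1 u ≤ R).card : ℝ) ≤
        ∑ p ∈ S, ((Finset.univ.filter fun w : {v // v ∈ W} => w.1 ∈ Cb (l, p)).card : ℝ) := by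
      exact_mod_cast (Finset.card_le_card hcov).trans Finset.card_biUnion_le
    refine h1.trans ((Finset.sum_le_sum fun p _ => hcube l hlk p).trans ?_)
    rw [Finset.sum_const, nsmul_eq_mul, hkl]
    have h2 : ((2 : ℝ) ^ (s + 1)) ^ β ≤ 2 ^ β * (R * (2 : ℝ) ^ k) ^ β := by
      rw [← Real.mul_rpow (by norm_num) hRn0.le]
      apply Real.rpow_le_rpow (by positivity) _ hβ.le
      rw [pow_succ]
      linarith
    have h3 : 0 ≤ ((2 : ℝ) ^ (s + 1)) ^ β := Real.rpow_nonneg (by positivity) _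
    calc (S.card : ℝ) * ((2 : ℝ) ^ (s + 1)) ^ β ≤ 3 ^ d * ((2 : ℝ) ^ (s + 1)) ^ β :=
          mul_le_mul_of_nonneg_right hScard h3
      _ ≤ 3 ^ d * (2 ^ β * (R * (2 : ℝ) ^ k) ^ β) :=
          mul_le_mul_of_nonneg_left h2 (by positivity)
      _ = _ := by ring

theorem t_ONEB : S_DHB → S_ONEB := by
  intro hDH d k r W B P Q σ β τ hβ hτ hτ1 h2τ hσ hWne hW01 hWfr hP hr hrk hfar
  obtain ⟨D, hD⟩ : ∃ D : {v // v ∈ W} → Fin d → ℝ, D = fun w => w.1 := ⟨_, rfl⟩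
  have hDW : ∀ w, D w ∈ W := fun w => by rw [hD]; exact w.2
  have hfam : FamB (2 ^ k) β (3 ^ d * 2 ^ β) D := by
    rw [hD]; exact famB d k W β hβ hW01 hWfr
  obtain ⟨E, hE⟩ : ∃ E, E = EE k (fun w => P (D w)) := ⟨_, rfl⟩
  have h01 : ∀ w, ((P (D w) : Finset ℝ) : Set ℝ) ⊆ Set.Ico 0 1 := fun w => (hP _ (hDW w)).1
  have hfr : ∀ w, ∀ l ≤ k, ∀ p : ℕ, (((P (D w)).filter fun t => (p : ℝ) / 2 ^ l ≤ t ∧
      t < ((p : ℝ) + 1) / 2 ^ l).card : ℝ) ≤ ((2 : ℝ) ^ (k - l)) ^ τ := fun w => (hP _ (hDW w)).2.2.1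
  have hcE : (Fintype.card {v // v ∈ W} : ℝ) * σ ≤ E.card := by
    rw [hE]
    exact card_EE k _ τ h01 hfr σ (fun w => (hP _ (hDW w)).2.1)
  have hshd : Shd (2 ^ k) 3 τ E := by rw [hE]; exact shd k _ τ h01 hfr hτ
  have hcell : ((E.image fun z => (z.2, cel (fun w i => (2 : ℝ) ^ k * B (D w) i) D z.2 z.1)).card : ℝ) ≤
      8 ^ (d + 1) * Q.card := by
    rw [hE]
    exact cells d k D (fun w => B (D w)) _ Q (fun w i => ⟨(hW01 _ (hDW w) i).1,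
      (hW01 _ (hDW w) i).2.le⟩) h01 (fun w => (hP _ (hDW w)).2.2.2)
  have hn0 : (0 : ℝ) < (2 : ℝ) ^ k := by positivity
  have hWc : 0 < W.card := Finset.card_pos.2 hWne
  have hL : 0 < (Fintype.card {v // v ∈ W} : ℝ) := by
    rw [Fintype.card_coe]; exact_mod_cast hWc
  have hEc : 0 < (E.card : ℝ) := lt_of_lt_of_le (by positivity) hcE
  have hne : E.Nonempty := by
    rw [← Finset.card_pos]
    exact_mod_cast hEc
  have hK : (0 : ℝ) < (k : ℝ) + 1 := by positivity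
  have h2β : (1 : ℝ) ≤ (2 : ℝ) ^ β := Real.one_le_rpow (by norm_num) hβ.le
  have h3d : (1 : ℝ) ≤ (3 : ℝ) ^ d := one_le_pow₀ (by norm_num)
  have hG : (1 : ℝ) ≤ 3 ^ d * 2 ^ β := by nlinarith
  have hmain := hDH {v // v ∈ W} d (2 ^ k) k r β (3 ^ d * 2 ^ β) 3 τ
    (fun w i => (2 : ℝ) ^ k * B (D w) i) D E hβ hG hfam hshd hτ hτ1 h2τ
    (by norm_num) le_rfl (by omega) hne hr hrk (by
      refine hfar.trans ?_
      rw [div_le_div_iff₀ (by positivity) (by positivity)]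
      calc σ * (64 * ((k : ℝ) + 1) ^ 3 * Fintype.card {v // v ∈ W}) =
            (Fintype.card {v // v ∈ W} : ℝ) * σ * (64 * ((k : ℝ) + 1) ^ 3) := by ring
        _ ≤ _ := mul_le_mul_of_nonneg_right hcE (by positivity))
  obtain ⟨S, hS⟩ : ∃ S : ℝ, S =
    ((E.image fun z => (z.2, cel (fun w i => (2 : ℝ) ^ k * B (D w) i) D z.2 z.1)).card : ℝ) := ⟨_, rfl⟩
  rw [← hS] at hmain hcell
  have hS0 : 0 ≤ S := by rw [hS]; positivity
  obtain ⟨L, hLd⟩ : ∃ L : ℝ, L = (Fintype.card {v // v ∈ W} : ℝ) := ⟨_, rfl⟩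
  have hLW : (W.card : ℝ) = L := by rw [hLd, Fintype.card_coe]
  rw [← hLd] at hmain hcE hL
  rw [hLW]
  have hcast : ((2 ^ k : ℕ) : ℝ) = (2 : ℝ) ^ k := by push_cast; rfl
  rw [hcast] at hmain
  obtain ⟨X, hX⟩ : ∃ X : ℝ, X = ((2 : ℝ) ^ k) ^ (1 + 2 * β) := ⟨_, rfl⟩
  obtain ⟨Y, hY⟩ : ∃ Y : ℝ, Y = (14 : ℝ) ^ β := ⟨_, rfl⟩
  obtain ⟨Z, hZ⟩ : ∃ Z : ℝ, Z = (r : ℝ) ^ β := ⟨_, rfl⟩
  obtain ⟨G, hGd⟩ : ∃ G : ℝ, G = (3 : ℝ) ^ d * 2 ^ β := ⟨_, rfl⟩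
  have hX0 : 0 ≤ X := by rw [hX]; exact Real.rpow_nonneg hn0.le _
  have hY0 : 0 ≤ Y := by rw [hY]; exact Real.rpow_nonneg (by norm_num) _
  have hZ0 : 0 ≤ Z := by rw [hZ]; exact Real.rpow_nonneg (by positivity) _
  have hG0 : 0 ≤ G := by rw [hGd]; linarith
  rw [← hX, ← hY, ← hZ, ← hGd] at hmain
  rw [← hX, ← hY, ← hZ, ← hGd]
  have h4 : (L * σ) ^ 4 ≤ (E.card : ℝ) ^ 4 := pow_le_pow_left₀ (by positivity) hcE 4
  have h5 : (L * σ) ^ 4 * Z ≤ 200000000 * Y * ((k : ℝ) + 1) ^ 11 * G ^ 2 * 3 ^ 2 *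
      X * L ^ 2 * (8 ^ (d + 1) * Q.card) ^ 2 := by
    calc (L * σ) ^ 4 * Z ≤ (E.card : ℝ) ^ 4 * Z := mul_le_mul_of_nonneg_right h4 hZ0
      _ ≤ _ := hmain
      _ ≤ _ := by
        apply mul_le_mul_of_nonneg_left _ (by positivity)
        exact pow_le_pow_left₀ hS0 hcell 2
  have e64 : ((8 : ℝ) ^ (d + 1) * Q.card) ^ 2 = 64 ^ (d + 1) * (Q.card : ℝ) ^ 2 := by
    rw [mul_pow, ← pow_mul, mul_comm (d + 1) 2, pow_mul]; norm_num
  rw [e64] at h5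
  have h7 : L ^ 2 * (L ^ 2 * σ ^ 4 * Z) ≤ L ^ 2 * (1800000000 * Y * G ^ 2 * 64 ^ (d + 1) *
      ((k : ℝ) + 1) ^ 11 * X * (Q.card : ℝ) ^ 2) := by
    calc L ^ 2 * (L ^ 2 * σ ^ 4 * Z) = (L * σ) ^ 4 * Z := by ring
      _ ≤ _ := h5
      _ = _ := by ring
  exact le_of_mul_le_mul_left h7 (by positivity)

end Pool.Agent.H632.FHB
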