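import Pool.Agent.H951.FH.Stm3

/-!
# SELD: selection of a level (helper969, adapted from the file SEL of helper787)
-/

set_option autoImplicit false

open MeasureTheory
open scoped Classical ENNReal NNReal

namespace Pool.Agent.H969.FHB

open Pool.Agent.H951.FH

theorem t_SELD : S_KAP → S_KAPD → S_SELD := by
  intro KAP KAPD d V T β τ b ρ hβ hτ hb0 hb1 hρ0 hρ1 hV01 hV hT
  have h1 : ∀ v, ∃ κ : ℝ, v ∈ V → 0 < κ ∧ ∀ C : ℕ → Finset (ℕ × ℕ),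
      (∀ t ∈ T v, ∃ k, Cv (C k) {t}) → ∀ a : ℕ → ℝ, Summable a → (∀ k, Sm τ (C k) ≤ a k) →
      κ ≤ ∑' k, a k := by
    intro v
    by_cases hv : v ∈ V
    · obtain ⟨κ, hκ⟩ := KAP (T v) τ (hT v hv).1 hτ (hT v hv).2
      exact ⟨κ, fun _ => hκ⟩
    · exact ⟨0, fun h => absurd h hv⟩
  choose κ hκ using h1
  have h2 : ∃ m : ℕ, ENNReal.ofReal β < dimH {v | v ∈ V ∧ 1 / ((m : ℝ) + 1) ≤ κ v} := by
    have hsub : V ⊆ ⋃ m : ℕ, {v | v ∈ V ∧ 1 / ((m : ℝ) + 1) ≤ κ v} := by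
      intro v hv
      obtain ⟨n, hn⟩ := exists_nat_one_div_lt (hκ v hv).1
      exact Set.mem_iUnion.2 ⟨n, hv, hn.le⟩
    have h3 : ENNReal.ofReal β < dimH (⋃ m : ℕ, {v | v ∈ V ∧ 1 / ((m : ℝ) + 1) ≤ κ v}) :=
      lt_of_lt_of_le hV (dimH_mono hsub)
    rw [dimH_iUnion] at h3
    exact lt_iSup_iff.1 h3
  obtain ⟨m, hm⟩ := h2
  obtain ⟨κ', hκ'0, hκ'⟩ := KAPD d {v | v ∈ V ∧ 1 / ((m : ℝ) + 1) ≤ κ v} β
    (fun v hv => hV01 v hv.1) hβ hm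
  have hρ' : 0 < 1 - ρ := by linarith
  have hb' : 0 < 1 - b := by linarith
  have hm1 : (0 : ℝ) < 1 / ((m : ℝ) + 1) := by positivity
  obtain ⟨ka, hka⟩ := exists_pow_lt_of_lt_one (mul_pos hb' hm1) hb1
  obtain ⟨kb, hkb⟩ := exists_pow_lt_of_lt_one (mul_pos hρ' hκ'0) hρ1
  refine ⟨max ka kb, ?_⟩
  intro k0 hk0 U hU
  by_contra hcon
  push Not at hcon
  have hsumb : HasSum (fun j : ℕ => b ^ (k0 + j)) (b ^ k0 * (1 - b)⁻¹) := by
    have := (hasSum_geometric_of_lt_one hb0.le hb1).mul_left (b ^ k0)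
    simpa [pow_add] using this
  have hsumρ : HasSum (fun j : ℕ => ρ ^ (k0 + j)) (ρ ^ k0 * (1 - ρ)⁻¹) := by
    have := (hasSum_geometric_of_lt_one hρ0.le hρ1).mul_left (ρ ^ k0)
    simpa [pow_add] using this
  have hbk : b ^ k0 * (1 - b)⁻¹ < 1 / ((m : ℝ) + 1) := by
    have h3 : b ^ k0 ≤ b ^ ka := pow_le_pow_of_le_one hb0.le hb1.le ((le_max_left _ _).trans hk0)
    have h4 : b ^ k0 < (1 - b) * (1 / ((m : ℝ) + 1)) := lt_of_le_of_lt h3 hka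
    rw [← div_eq_mul_inv, div_lt_iff₀ hb']
    linarith
  have hρk : ρ ^ k0 * (1 - ρ)⁻¹ < κ' := by
    have h3 : ρ ^ k0 ≤ ρ ^ kb := pow_le_pow_of_le_one hρ0.le hρ1.le ((le_max_right _ _).trans hk0)
    have h4 : ρ ^ k0 < (1 - ρ) * κ' := lt_of_le_of_lt h3 hkb
    rw [← div_eq_mul_inv, div_lt_iff₀ hρ']
    linarith
  have hsub : ∀ v, v ∈ V → 1 / ((m : ℝ) + 1) ≤ κ v → ∃ j : ℕ, v ∈ V ∧
      ∀ C : Finset (ℕ × ℕ), Cv C (T v ∩ U v (k0 + j)) → b ^ (k0 + j) < Sm τ C := by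
    intro v hv hvm
    by_contra hno
    have hno' : ∀ j : ℕ, ∃ C : Finset (ℕ × ℕ), Cv C (T v ∩ U v (k0 + j)) ∧
        Sm τ C ≤ b ^ (k0 + j) := by
      intro j
      by_contra hj
      push Not at hj
      exact hno ⟨j, hv, hj⟩
    choose C hC hS using hno'
    have h5 := (hκ v hv).2 C (by
      intro t ht
      obtain ⟨k, hk, htk⟩ := hU v hv t ht
      refine ⟨k - k0, ?_⟩
      intro s hs
      rw [Set.mem_singleton_iff] at hs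
      rw [hs]
      apply hC (k - k0) t
      refine ⟨ht, ?_⟩
      rw [Nat.add_sub_cancel' hk]
      exact htk) (fun j => b ^ (k0 + j)) hsumb.summable hS
    rw [hsumb.tsum_eq] at h5
    linarith
  have hcon' : ∀ j : ℕ, ∃ C' : Finset (ℕ × (Fin d → ℕ)),
      CvD C' {v | v ∈ V ∧ ∀ C : Finset (ℕ × ℕ), Cv C (T v ∩ U v (k0 + j)) →
        b ^ (k0 + j) < Sm τ C} ∧ SmD β C' ≤ ρ ^ (k0 + j) :=
    fun j => hcon (k0 + j) (Nat.le_add_right _ _)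
  choose C' hC' hS' using hcon'
  have h6 := hκ' C' (by
    rintro v ⟨hv, hvm⟩
    obtain ⟨j, hj⟩ := hsub v hv hvm
    refine ⟨j, ?_⟩
    intro s hs
    rw [Set.mem_singleton_iff] at hs
    rw [hs]
    exact hC' j v hj) (fun j => ρ ^ (k0 + j)) hsumρ.summable hS'
  rw [hsumρ.tsum_eq] at h6
  linarith

end Pool.Agent.H969.FHB
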