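import Pool.Agent.H951.FH.Stm3

/-!
# SUMB: double counting of the cells of the hairbrushes, general dimension of the directions
-/

set_option autoImplicit false

open scoped Classical

namespace Pool.Agent.H177.FHB

open Pool.Agent.H951.FH

theorem t_SUMB : S_SUMB := by
  intro Λ _ d n k a r β G F τ A D E E3 hD
  set c : Λ × ℕ → ℕ × (Fin d → ℤ) := fun z => (z.2, cel A D z.2 z.1) with hc
  set θ : ℝ := (1 / 2 : ℝ) ^ a with hθ
  have hθ0 : 0 < θ := by positivity
  have hG0 : 0 < G := lt_of_lt_of_le one_pos hD.G1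
  have hn0 : (0 : ℝ) ≤ (n : ℝ) := Nat.cast_nonneg n
  have hK0 : (0 : ℝ) < (k : ℝ) + 1 := by positivity
  have hθn : (1 : ℝ) ≤ θ * n := by
    have h1 : 2 ^ (a + 1) ≤ 2 ^ k := Nat.pow_le_pow_right (by norm_num) hD.ak
    have h2 : 2 ^ a ≤ n := by
      have := h1.trans hD.k2
      rw [pow_succ] at this
      omega
    have h3 : ((2 : ℝ) ^ a) ≤ n := by exact_mod_cast h2
    have h4 : θ * (2 : ℝ) ^ a = 1 := by
      rw [hθ, ← mul_pow]
      norm_num
    calc (1 : ℝ) = θ * 2 ^ a := h4.symm
      _ ≤ θ * n := mul_le_mul_of_nonneg_left h3 hθ0.le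
  set I : Λ → Finset (ℕ × (Fin d → ℤ)) := fun w0 =>
    (E3.filter fun z => z.1 ∈ HB k a A D E3 w0).image c with hI
  have hIs : ∀ w0, I w0 ⊆ E.image c := by
    intro w0
    refine Finset.image_subset_image ?_
    exact (Finset.filter_subset _ _).trans hD.sub
  -- the bound of one cell
  have key : ∀ b ∈ E.image c, ((Finset.univ.filter fun w0 : Λ => b ∈ I w0).card : ℝ) ≤
      4 * ((k : ℝ) + 1) * (G * (2 * θ * n) ^ β) := by
    intro b hb
    set M : ℝ := ((E.filter fun z' => c z' = b).card : ℝ) with hM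
    have hM0 : 0 < M := by
      obtain ⟨z, hz, hzb⟩ := Finset.mem_image.1 hb
      rw [hM]
      exact_mod_cast Finset.card_pos.2 ⟨z, Finset.mem_filter.2 ⟨hz, hzb⟩⟩
    have h1 : ∀ w0 ∈ Finset.univ.filter fun w0 : Λ => b ∈ I w0, M / (4 * ((k : ℝ) + 1)) ≤
        (((E.filter fun z' => c z' = b).filter fun z' =>
          dist (D w0) (D z'.1) ≤ 2 * θ).card : ℝ) := by
      intro w0 hw0
      rw [Finset.mem_filter] at hw0
      obtain ⟨z, hz, hzb⟩ := Finset.mem_image.1 hw0.2
      rw [Finset.mem_filter] at hz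
      have hHB := (Finset.mem_filter.1 hz.2).2
      have hd1 : dist (D w0) (D z.1) ≤ θ := by
        have h2 := hHB.2.1
        unfold Cl at h2
        rw [if_neg hD.ak.ne] at h2
        exact h2.2
      have h3 := hD.deg z hz.1
      have h4 : M / (4 * ((k : ℝ) + 1)) ≤ ((E3.filter fun z' => c z' = c z ∧
          Cl k a (dist (D z.1) (D z'.1))).card : ℝ) := by
        have e1 : M = ((E.filter fun z' => c z' = c z).card : ℝ) := by rw [hM, hzb]
        rw [e1]
        exact h3
      refine h4.trans ?_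
      have h5 : (E3.filter fun z' => c z' = c z ∧ Cl k a (dist (D z.1) (D z'.1))) ⊆
          ((E.filter fun z' => c z' = b).filter fun z' => dist (D w0) (D z'.1) ≤ 2 * θ) := by
        intro z' hz'
        rw [Finset.mem_filter] at hz'
        have hd2 : dist (D z.1) (D z'.1) ≤ θ := by
          have h2 := hz'.2.2
          unfold Cl at h2
          rw [if_neg hD.ak.ne] at h2
          exact h2.2
        rw [Finset.mem_filter, Finset.mem_filter]
        refine ⟨⟨hD.sub hz'.1, hz'.2.1.trans hzb⟩, ?_⟩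
        have := dist_triangle (D w0) (D z.1) (D z'.1)
        linarith
      exact_mod_cast Finset.card_le_card h5
    have h6 : ((Finset.univ.filter fun w0 : Λ => b ∈ I w0).card : ℝ) *
        (M / (4 * ((k : ℝ) + 1))) ≤ ∑ w0 : Λ,
        (((E.filter fun z' => c z' = b).filter fun z' =>
          dist (D w0) (D z'.1) ≤ 2 * θ).card : ℝ) := by
      rw [← nsmul_eq_mul]
      refine (Finset.card_nsmul_le_sum _ _ _ h1).trans ?_
      exact Finset.sum_le_sum_of_subset_of_nonneg (Finset.filter_subset _ _)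
        fun w0 _ _ => Nat.cast_nonneg _
    have h7 : ∑ w0 : Λ, (((E.filter fun z' => c z' = b).filter fun z' =>
          dist (D w0) (D z'.1) ≤ 2 * θ).card : ℝ) =
        ∑ z' ∈ E.filter (fun z' => c z' = b),
          ((Finset.univ.filter fun w0 : Λ => dist (D w0) (D z'.1) ≤ 2 * θ).card : ℝ) := by
      simp only [← Finset.sum_boole]
      exact Finset.sum_comm
    have h8 : ∑ z' ∈ E.filter (fun z' => c z' = b),
          ((Finset.univ.filter fun w0 : Λ => dist (D w0) (D z'.1) ≤ 2 * θ).card : ℝ) ≤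
        M * (G * (2 * θ * n) ^ β) := by
      have h9 : ∀ z' ∈ E.filter (fun z' => c z' = b),
          ((Finset.univ.filter fun w0 : Λ => dist (D w0) (D z'.1) ≤ 2 * θ).card : ℝ) ≤
          G * (2 * θ * n) ^ β := by
        intro z' _
        exact hD.fam.cnt (D z'.1) (2 * θ) (by nlinarith)
      refine (Finset.sum_le_card_nsmul _ _ _ h9).trans (le_of_eq ?_)
      rw [nsmul_eq_mul]
    rw [h7] at h6
    have h10 := h6.trans h8
    have h11 : M * (((Finset.univ.filter fun w0 : Λ => b ∈ I w0).card : ℝ) /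
        (4 * ((k : ℝ) + 1))) ≤ M * (G * (2 * θ * n) ^ β) := by
      refine le_trans (le_of_eq ?_) h10
      ring
    have h12 := le_of_mul_le_mul_left h11 hM0
    rw [div_le_iff₀ (by positivity)] at h12
    linarith
  have hcard : ∀ w0, ((I w0).card : ℝ) = ∑ b ∈ E.image c, if b ∈ I w0 then (1 : ℝ) else 0 := by
    intro w0
    rw [Finset.sum_boole, Finset.filter_mem_eq_inter, Finset.inter_eq_right.2 (hIs w0)]
  calc ∑ w0 : Λ, ((I w0).card : ℝ)
      = ∑ b ∈ E.image c, ∑ w0 : Λ, if b ∈ I w0 then (1 : ℝ) else 0 := by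
        simp only [hcard]
        exact Finset.sum_comm
    _ ≤ ∑ b ∈ E.image c, 4 * ((k : ℝ) + 1) * (G * (2 * θ * n) ^ β) := by
        refine Finset.sum_le_sum fun b hb => ?_
        rw [Finset.sum_boole]
        exact key b hb
    _ = (E.image c).card * (4 * ((k : ℝ) + 1) * (G * (2 * θ * n) ^ β)) := by
        rw [Finset.sum_const, nsmul_eq_mul]

end Pool.Agent.H177.FHB
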