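import Pool.Agent.H951.FH.Stm2

/-!
# Project FH, part 3: lower dimensional sets of directions
-/

set_option autoImplicit false

open MeasureTheory
open scoped Classical ENNReal NNReal

namespace Pool.Agent.H951.FH

/-- Slopes in the unit cube with a Frostman condition of dimension `β`. -/
structure FamB {Λ : Type} [Fintype Λ] {d : ℕ} (n : ℕ) (β G : ℝ) (D : Λ → Fin d → ℝ) : Prop where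
  pos : 1 ≤ n
  lo : ∀ w i, 0 ≤ D w i
  hi : ∀ w i, D w i ≤ 1
  cnt : ∀ (u : Fin d → ℝ) (R : ℝ), 1 ≤ R * n →
    ((Finset.univ.filter fun w => dist (D w) u ≤ R).card : ℝ) ≤ G * (R * n) ^ β

/-- MULTB -/
def S_MULTB : Prop := ∀ (Λ : Type) (d n : ℕ) (A D : Λ → Fin d → ℝ) (F τ : ℝ)
  (E : Finset (Λ × ℕ)), (∀ w i, 0 ≤ D w i) → (∀ w i, D w i ≤ 1) → 0 < τ → τ ≤ 1 → 1 ≤ F →
  Shd n F τ E → ∀ (w w' : Λ) (Δ : ℝ), 0 < Δ → Δ ≤ dist (D w) (D w') →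
    ((E.filter fun z => z.1 = w ∧ cel A D z.2 w = cel A D z.2 w').card : ℝ) ≤ 3 * F * (1 / Δ) ^ τ

/-- TUBEB -/
def S_TUBEB : Prop := ∀ (Λ : Type) [Fintype Λ] (d n : ℕ) (β G : ℝ) (D : Λ → Fin d → ℝ),
  FamB n β G D → ∀ (w0 w : Λ) (r q : ℕ), 1 ≤ r → r ≤ n →
    ((Finset.univ.filter fun w' => Pl D r w0 w w' ∧ (q : ℝ) ≤ r * dist (D w) (D w') ∧
      r * dist (D w) (D w') < q + 1).card : ℝ) ≤ 2 * (G * (7 * n / r) ^ β)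

/-- XBB -/
def S_XBB : Prop := ∀ (Λ : Type) [Fintype Λ] (d n : ℕ) (β G : ℝ) (A D : Λ → Fin d → ℝ)
  (F τ θ K : ℝ) (E : Finset (Λ × ℕ)), 0 < β → 1 ≤ G → FamB n β G D → 0 < τ → τ ≤ 1 → 1 ≤ F →
  Shd n F τ E → 0 < θ → θ ≤ 1 → 1 ≤ θ * n → 1 + Real.log (2 * n) ≤ K →
  ∀ (w0 w : Λ) (r : ℕ), 1 ≤ r → r ≤ n →
    ((E.filter fun z => (w, z.2) ∈ E ∧ Pl D r w0 w z.1 ∧ cel A D z.2 w = cel A D z.2 z.1 ∧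
      dist (D w) (D z.1) ≤ 2 * θ).card : ℝ) ≤
        14 * K * (G * (7 * n / r) ^ β) * F * n * θ ^ (1 - τ)

/-- the data of the main step -/
structure DatB {Λ : Type} [Fintype Λ] {d : ℕ} (n k a r : ℕ) (β G F τ : ℝ) (A D : Λ → Fin d → ℝ)
    (E E3 : Finset (Λ × ℕ)) : Prop where
  b0 : 0 < β
  G1 : 1 ≤ G
  fam : FamB n β G D
  shd : Shd n F τ E
  t0 : 0 < τ
  t1 : τ ≤ 1
  F1 : 1 ≤ F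
  k1 : n ≤ 2 ^ k
  k2 : 2 ^ k ≤ 2 * n
  ne : E.Nonempty
  r1 : 1 ≤ r
  rn : r ≤ n
  ak : a < k
  sub : E3 ⊆ E
  big : (E.card : ℝ) / (4 * ((k : ℝ) + 1) ^ 2) ≤ E3.card
  hea : ∀ z ∈ E3, (E.card : ℝ) / (2 * (E.image fun z => (z.2, cel A D z.2 z.1)).card) ≤
    ((E.filter fun z' => (z'.2, cel A D z'.2 z'.1) = (z.2, cel A D z.2 z.1)).card : ℝ)
  deg : ∀ z ∈ E3, ((E.filter fun z' => (z'.2, cel A D z'.2 z'.1) =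
    (z.2, cel A D z.2 z.1)).card : ℝ) / (4 * ((k : ℝ) + 1)) ≤
      ((E3.filter fun z' => (z'.2, cel A D z'.2 z'.1) = (z.2, cel A D z.2 z.1) ∧
        Cl k a (dist (D z.1) (D z'.1))).card : ℝ)
  far : F * (2 * r : ℝ) ^ τ ≤ (E3.card : ℝ) / (16 * ((k : ℝ) + 1) * Fintype.card Λ)

/-- NUMB -/
def S_NUMB : Prop := ∀ (Λ : Type) [Fintype Λ] (d n k a r : ℕ) (β G F τ : ℝ)
  (A D : Λ → Fin d → ℝ) (E E3 : Finset (Λ × ℕ)), DatB n k a r β G F τ A D E E3 →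
  (E.card : ℝ) / (2 * (E.image fun z => (z.2, cel A D z.2 z.1)).card) * E3.card /
    (8 * ((k : ℝ) + 1)) ≤ ∑ w0 : Λ, 6 * F * ((2 : ℝ) ^ a) ^ τ * (HB k a A D E3 w0).card

/-- BIGB -/
def S_BIGB : Prop := ∀ (Λ : Type) [Fintype Λ] (d n k a r : ℕ) (β G F τ : ℝ)
  (A D : Λ → Fin d → ℝ) (E E3 : Finset (Λ × ℕ)), DatB n k a r β G F τ A D E E3 → ∀ w0 : Λ,
  ((HB k a A D E3 w0).card : ℝ) *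
    ((E3.card : ℝ) / (8 * ((k : ℝ) + 1) * Fintype.card Λ)) ^ 2 ≤
    4 * (28 * ((k : ℝ) + 1) * (G * (7 * n / r) ^ β) * F * n * ((1 / 2 : ℝ) ^ a) ^ (1 - τ)) *
      ((E3.filter fun z => z.1 ∈ HB k a A D E3 w0).image
        fun z => (z.2, cel A D z.2 z.1)).card

/-- SUMB -/
def S_SUMB : Prop := ∀ (Λ : Type) [Fintype Λ] (d n k a r : ℕ) (β G F τ : ℝ)
  (A D : Λ → Fin d → ℝ) (E E3 : Finset (Λ × ℕ)), DatB n k a r β G F τ A D E E3 →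
  ∑ w0 : Λ, (((E3.filter fun z => z.1 ∈ HB k a A D E3 w0).image
        fun z => (z.2, cel A D z.2 z.1)).card : ℝ) ≤
    (E.image fun z => (z.2, cel A D z.2 z.1)).card *
      (4 * ((k : ℝ) + 1) * (G * (2 * (1 / 2 : ℝ) ^ a * n) ^ β))

/-- DHB: the discrete inequality. -/
def S_DHB : Prop := ∀ (Λ : Type) [Fintype Λ] (d n k r : ℕ) (β G F τ : ℝ) (A D : Λ → Fin d → ℝ)
  (E : Finset (Λ × ℕ)), 0 < β → 1 ≤ G → FamB n β G D → Shd n F τ E → 0 < τ → τ ≤ 1 →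
  2 * τ ≤ 1 + β → 1 ≤ F → n ≤ 2 ^ k → 2 ^ k ≤ 2 * n → E.Nonempty → 1 ≤ r → r ≤ n →
  F * (2 * r : ℝ) ^ τ ≤ (E.card : ℝ) / (64 * ((k : ℝ) + 1) ^ 3 * Fintype.card Λ) →
  (E.card : ℝ) ^ 4 * (r : ℝ) ^ β ≤ 200000000 * 14 ^ β * ((k : ℝ) + 1) ^ 11 * G ^ 2 * F ^ 2 *
    (n : ℝ) ^ (1 + 2 * β) * (Fintype.card Λ : ℝ) ^ 2 *
      ((E.image fun z => (z.2, cel A D z.2 z.1)).card : ℝ) ^ 2

/-- the dyadic cube `(l, p)` -/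
def Cb {d : ℕ} (c : ℕ × (Fin d → ℕ)) : Set (Fin d → ℝ) :=
  {v | ∀ i, (c.2 i : ℝ) / 2 ^ c.1 ≤ v i ∧ v i < ((c.2 i : ℝ) + 1) / 2 ^ c.1}

/-- the dyadic cubes in `C` cover `T` -/
def CvD {d : ℕ} (C : Finset (ℕ × (Fin d → ℕ))) (T : Set (Fin d → ℝ)) : Prop :=
  ∀ v ∈ T, ∃ c ∈ C, v ∈ Cb c

/-- the sum of the powers of the side lengths -/
noncomputable def SmD {d : ℕ} (β : ℝ) (C : Finset (ℕ × (Fin d → ℕ))) : ℝ :=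
  ∑ c ∈ C, (1 / (2 : ℝ) ^ c.1) ^ β

/-- KAPD: a set of large dimension has positive content. -/
def S_KAPD : Prop := ∀ (d : ℕ) (T : Set (Fin d → ℝ)) (β : ℝ), (∀ v ∈ T, ∀ i, 0 ≤ v i ∧ v i < 1) →
  0 < β → ENNReal.ofReal β < dimH T → ∃ κ : ℝ, 0 < κ ∧ ∀ C : ℕ → Finset (ℕ × (Fin d → ℕ)),
    (∀ v ∈ T, ∃ k, CvD (C k) {v}) → ∀ a : ℕ → ℝ, Summable a → (∀ k, SmD β (C k) ≤ a k) →
      κ ≤ ∑' k, a k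

/-- SELD: selection of a level. -/
def S_SELD : Prop := ∀ (d : ℕ) (V : Set (Fin d → ℝ)) (T : (Fin d → ℝ) → Set ℝ) (β τ b ρ : ℝ),
  0 < β → 0 < τ → 0 < b → b < 1 → 0 < ρ → ρ < 1 → (∀ v ∈ V, ∀ i, 0 ≤ v i ∧ v i < 1) →
  ENNReal.ofReal β < dimH V →
  (∀ v ∈ V, T v ⊆ Set.Ico 0 1 ∧ ENNReal.ofReal τ < dimH (T v)) →
  ∃ k1 : ℕ, ∀ k0, k1 ≤ k0 → ∀ U : (Fin d → ℝ) → ℕ → Set ℝ,
    (∀ v ∈ V, ∀ t ∈ T v, ∃ k, k0 ≤ k ∧ t ∈ U v k) →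
    ∃ k, k0 ≤ k ∧ ∀ C' : Finset (ℕ × (Fin d → ℕ)),
      CvD C' {v | v ∈ V ∧ ∀ C : Finset (ℕ × ℕ), Cv C (T v ∩ U v k) → b ^ k < Sm τ C} →
        ρ ^ k < SmD β C'

/-- FROD: a discrete Frostman lemma for cubes. -/
def S_FROD : Prop := ∀ (d : ℕ) (β : ℝ) (k : ℕ) (V : Set (Fin d → ℝ)), 0 < β →
  (∀ v ∈ V, ∀ i, 0 ≤ v i ∧ v i < 1) →
  ∃ (P : Finset (Fin d → ℝ)) (C : Finset (ℕ × (Fin d → ℕ))), (P : Set (Fin d → ℝ)) ⊆ V ∧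
    (∀ l ≤ k, ∀ p : Fin d → ℕ, ((P.filter fun v => v ∈ Cb (l, p)).card : ℝ) ≤
      ((2 : ℝ) ^ (k - l)) ^ β) ∧
    CvD C V ∧ SmD β C ≤ 2 * P.card / ((2 : ℝ) ^ k) ^ β

/-- ONEB: the inequality at one scale. -/
def S_ONEB : Prop := ∀ (d k r : ℕ) (W : Finset (Fin d → ℝ)) (B : (Fin d → ℝ) → Fin d → ℝ)
  (P : (Fin d → ℝ) → Finset ℝ) (Q : Finset (Fin (d + 1) → ℤ)) (σ β τ : ℝ), 0 < β → 0 < τ →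
  τ ≤ 1 → 2 * τ ≤ 1 + β → 0 < σ → W.Nonempty → (∀ v ∈ W, ∀ i, 0 ≤ v i ∧ v i < 1) →
  (∀ l ≤ k, ∀ p : Fin d → ℕ, ((W.filter fun v => v ∈ Cb (l, p)).card : ℝ) ≤
    ((2 : ℝ) ^ (k - l)) ^ β) →
  (∀ v ∈ W, (P v : Set ℝ) ⊆ Set.Ico 0 1 ∧ σ ≤ (P v).card ∧
    (∀ l ≤ k, ∀ p : ℕ, (((P v).filter fun t => (p : ℝ) / 2 ^ l ≤ t ∧
      t < ((p : ℝ) + 1) / 2 ^ l).card : ℝ) ≤ ((2 : ℝ) ^ (k - l)) ^ τ) ∧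
    ∀ t ∈ P v, ∃ q ∈ Q, |(2 : ℝ) ^ k * t - q 0| < 3 ∧
      ∀ i : Fin d, |(2 : ℝ) ^ k * (B v i + t * v i) - q i.succ| < 3) →
  1 ≤ r → r ≤ 2 ^ k → 3 * (2 * r : ℝ) ^ τ ≤ σ / (64 * ((k : ℝ) + 1) ^ 3) →
  (W.card : ℝ) ^ 2 * σ ^ 4 * (r : ℝ) ^ β ≤ 1800000000 * 14 ^ β * (3 ^ d * 2 ^ β) ^ 2 *
    64 ^ (d + 1) * ((k : ℝ) + 1) ^ 11 * ((2 : ℝ) ^ k) ^ (1 + 2 * β) * (Q.card : ℝ) ^ 2

/-- NBB: the numbers. -/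
def S_NBB : Prop := ∀ (β τ s : ℝ), 0 < β → 0 < τ → τ ≤ 1 → 0 ≤ s →
  s < 2 * τ + (β - 1) / 2 → ∃ ρ b : ℝ, 0 < ρ ∧ ρ < 1 ∧ 0 < b ∧ b < 1 ∧
    ∀ C : ℝ, 0 < C → ∃ k1 : ℕ, ∀ k, k1 ≤ k → ∃ r : ℕ, 1 ≤ r ∧ r ≤ 2 ^ k ∧
      3 * (2 * r : ℝ) ^ τ ≤ (b ^ k * ((2 : ℝ) ^ k) ^ τ / 2) / (64 * ((k : ℝ) + 1) ^ 3) ∧
      C * ((k : ℝ) + 1) ^ 11 * ((2 : ℝ) ^ k) ^ (1 + 2 * β) * ((2 : ℝ) ^ (s * (k + 1))) ^ 2 <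
        (ρ ^ k * ((2 : ℝ) ^ k) ^ β / 2) ^ 2 * (b ^ k * ((2 : ℝ) ^ k) ^ τ / 2) ^ 4 * (r : ℝ) ^ β

/-- FVB: the theorem for slopes in the unit cube and heights in the unit interval. -/
def S_FVB : Prop := ∀ (d : ℕ) (K : Set (Fin (d + 1) → ℝ)) (V : Set (Fin d → ℝ))
  (B : (Fin d → ℝ) → Fin d → ℝ) (β τ : ℝ), 0 < β → 0 < τ → τ ≤ 1 → 2 * τ ≤ 1 + β →
  (∀ v ∈ V, ∀ i, 0 ≤ v i ∧ v i < 1) → ENNReal.ofReal β < dimH V →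
  (∀ v ∈ V, ENNReal.ofReal τ < dimH {t : ℝ | t ∈ Set.Ico (0 : ℝ) 1 ∧
    (Fin.cons t (fun i => B v i + t * v i) : Fin (d + 1) → ℝ) ∈ K}) →
  ENNReal.ofReal (2 * τ + (β - 1) / 2) ≤ dimH K

/-- FWB: the theorem for all slopes and heights. -/
def S_FWB : Prop := ∀ (d : ℕ) (K : Set (Fin (d + 1) → ℝ)) (V : Set (Fin d → ℝ))
  (B : (Fin d → ℝ) → Fin d → ℝ) (β τ : ℝ), 0 < β → 0 < τ → τ ≤ 1 → 2 * τ ≤ 1 + β →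
  ENNReal.ofReal β < dimH V →
  (∀ v ∈ V, ENNReal.ofReal τ < dimH {t : ℝ |
    (Fin.cons t (fun i => B v i + t * v i) : Fin (d + 1) → ℝ) ∈ K}) →
  ENNReal.ofReal (2 * τ + (β - 1) / 2) ≤ dimH K

/-- FDB: the theorem for directions. -/
def S_FDB : Prop := ∀ (n : ℕ) (K N : Set (EuclideanSpace ℝ (Fin n))) (α β : ℝ),
  0 < α → 0 < β → 2 * α ≤ 1 + β → (∀ e ∈ N, ‖e‖ = 1) → ENNReal.ofReal β ≤ dimH N →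
  (∀ e ∈ N, ∃ a : EuclideanSpace ℝ (Fin n),
    ENNReal.ofReal α ≤ dimH (K ∩ {x | ∃ r : ℝ, x = a + r • e})) →
  ENNReal.ofReal (2 * α + (β - 1) / 2) ≤ dimH K

end Pool.Agent.H951.FH
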