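import Pool.Agent.H951.FH.Stm3

/-!
# Project FH, part 3: few slopes near a plane
-/

set_option autoImplicit false

open scoped Classical

namespace Pool.Agent.H729.FHB

open Pool.Agent.H951.FH

/-- the two centers -/
noncomputable def cen {d : ℕ} (p b : Fin d → ℝ) (x : ℝ) : Fin d → ℝ := b + (x * ‖p‖⁻¹) • p

theorem aux {d : ℕ} (a b p' : Fin d → ℝ) (κ ρ x : ℝ) (hρ : 0 ≤ ρ) (_hx : 0 ≤ x)
    (h : ‖p' - κ • a‖ ≤ 3 * ρ) (h1 : x ≤ ‖p' - a‖) (h2 : ‖p' - a‖ ≤ x + ρ) :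
    dist (p' - a + b) (cen a b x) ≤ 7 * ρ ∨ dist (p' - a + b) (cen a b (-x)) ≤ 7 * ρ := by
  by_cases ha : a = 0
  · left
    subst ha
    rw [smul_zero, sub_zero] at h
    rw [dist_eq_norm]
    unfold cen
    rw [smul_zero, add_zero, add_sub_cancel_right, sub_zero]
    linarith
  have hn : 0 < ‖a‖ := norm_pos_iff.2 ha
  have h3 : |‖(κ - 1) • a‖ - x| ≤ 4 * ρ := by
    have e : p' - a = (p' - κ • a) + (κ - 1) • a := by
      rw [sub_smul, one_smul]
      abel
    have h4 : ‖p' - a‖ ≤ ‖p' - κ • a‖ + ‖(κ - 1) • a‖ := by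
      rw [e]
      exact norm_add_le _ _
    have e' : (κ - 1) • a = (p' - a) - (p' - κ • a) := by
      rw [sub_smul, one_smul]
      abel
    have h5 : ‖(κ - 1) • a‖ ≤ ‖p' - a‖ + ‖p' - κ • a‖ := by
      rw [e']
      exact norm_sub_le _ _
    rw [abs_le]
    constructor <;> linarith
  rw [norm_smul, Real.norm_eq_abs] at h3
  rcases le_total 1 κ with hκ | hκ
  · left
    rw [abs_of_nonneg (by linarith : (0:ℝ) ≤ κ - 1)] at h3
    rw [dist_eq_norm]
    have e : p' - a + b - cen a b x = (p' - κ • a) + ((κ - 1) * ‖a‖ - x) • (‖a‖⁻¹ • a) := by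
      unfold cen
      rw [smul_smul]
      have : ((κ - 1) * ‖a‖ - x) * ‖a‖⁻¹ = (κ - 1) - x * ‖a‖⁻¹ := by
        field_simp
      rw [this, sub_smul, sub_smul, one_smul]
      abel
    rw [e]
    refine (norm_add_le _ _).trans ?_
    rw [norm_smul, norm_smul, norm_inv, norm_norm, inv_mul_cancel₀ hn.ne', mul_one,
      Real.norm_eq_abs]
    linarith
  · right
    rw [abs_of_nonpos (by linarith : κ - 1 ≤ 0)] at h3
    rw [dist_eq_norm]
    have e : p' - a + b - cen a b (-x) =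
        (p' - κ • a) + (-(-(κ - 1) * ‖a‖ - x)) • (‖a‖⁻¹ • a) := by
      unfold cen
      rw [smul_smul]
      have : (-(-(κ - 1) * ‖a‖ - x)) * ‖a‖⁻¹ = (κ - 1) - (-x) * ‖a‖⁻¹ := by
        field_simp
        ring
      rw [this, sub_smul, sub_smul, one_smul]
      abel
    rw [e]
    refine (norm_add_le _ _).trans ?_
    rw [norm_smul, norm_smul, norm_inv, norm_norm, inv_mul_cancel₀ hn.ne', mul_one,
      Real.norm_eq_abs, abs_neg]
    linarith

theorem t_TUBEB : S_TUBEB := by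
  intro Λ _ d n β G D hF w0 w r q hr hrn
  have hr0 : (0:ℝ) < r := by exact_mod_cast hr
  have hρ : (0:ℝ) ≤ 1 / r := by positivity
  have hx : (0:ℝ) ≤ (q:ℝ) / r := by positivity
  set a : Fin d → ℝ := D w - D w0 with ha
  set u1 : Fin d → ℝ := cen a (D w) ((q:ℝ) / r) with hu1
  set u2 : Fin d → ℝ := cen a (D w) (-((q:ℝ) / r)) with hu2
  have hsub : (Finset.univ.filter fun w' => Pl D r w0 w w' ∧ (q : ℝ) ≤ r * dist (D w) (D w') ∧
      r * dist (D w) (D w') < q + 1) ⊆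
      (Finset.univ.filter fun w' => dist (D w') u1 ≤ 7 * (1 / (r:ℝ))) ∪
      (Finset.univ.filter fun w' => dist (D w') u2 ≤ 7 * (1 / (r:ℝ))) := by
    intro w' hw'
    rw [Finset.mem_filter] at hw'
    obtain ⟨-, ⟨κ, hκ⟩, h1, h2⟩ := hw'
    rw [Finset.mem_union, Finset.mem_filter, Finset.mem_filter]
    have hd : ‖(D w' - D w0) - a‖ = dist (D w) (D w') := by
      rw [dist_comm, dist_eq_norm, ha]
      congr 1
      abel
    have h3 : ‖(D w' - D w0) - κ • a‖ ≤ 3 * (1 / (r:ℝ)) := by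
      rw [pi_norm_le_iff_of_nonneg (by positivity)]
      intro i
      have := hκ i
      rw [Real.norm_eq_abs]
      have e : ((D w' - D w0) - κ • a) i = (D w' i - D w0 i) - κ * (D w i - D w0 i) := by
        simp [ha]
      rw [e]
      calc _ ≤ 3 / (r:ℝ) := this
        _ = 3 * (1 / (r:ℝ)) := by ring
    have h4 : (q:ℝ) / r ≤ ‖(D w' - D w0) - a‖ := by
      rw [hd, div_le_iff₀ hr0]
      linarith
    have h5 : ‖(D w' - D w0) - a‖ ≤ (q:ℝ) / r + 1 / r := by
      rw [hd, ← add_div, le_div_iff₀ hr0]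
      linarith
    have h6 := aux a (D w) (D w' - D w0) κ (1 / r) ((q:ℝ) / r) hρ hx h3 h4 h5
    have e : D w' - D w0 - a + D w = D w' := by
      rw [ha]
      abel
    rw [e] at h6
    rcases h6 with h6 | h6
    · exact Or.inl ⟨Finset.mem_univ _, h6⟩
    · exact Or.inr ⟨Finset.mem_univ _, h6⟩
  have hnr : (r:ℝ) ≤ n := by exact_mod_cast hrn
  have e0 : 7 * (1 / (r:ℝ)) * n = 7 * n / r := by ring
  have hR : 1 ≤ 7 * (1 / (r:ℝ)) * n := by
    rw [e0, le_div_iff₀ hr0]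
    linarith
  have h1 := hF.cnt u1 (7 * (1 / (r:ℝ))) hR
  have h2 := hF.cnt u2 (7 * (1 / (r:ℝ))) hR
  rw [e0] at h1 h2
  have h3 := (Finset.card_le_card hsub).trans (Finset.card_union_le _ _)
  have h4 : ((Finset.univ.filter fun w' => Pl D r w0 w w' ∧ (q : ℝ) ≤ r * dist (D w) (D w') ∧
      r * dist (D w) (D w') < q + 1).card : ℝ) ≤
      ((Finset.univ.filter fun w' => dist (D w') u1 ≤ 7 * (1 / (r:ℝ))).card : ℝ) +
      ((Finset.univ.filter fun w' => dist (D w') u2 ≤ 7 * (1 / (r:ℝ))).card : ℝ) := by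
    exact_mod_cast h3
  calc _ ≤ _ := h4
    _ ≤ G * (7 * n / r) ^ β + G * (7 * n / r) ^ β := add_le_add h1 h2
    _ = 2 * (G * (7 * n / r) ^ β) := by ring

end Pool.Agent.H729.FHB
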