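import Pool.Agent.H951.FH.Stm3

/-!
# Project FH (helper951), part 3: incidences near a plane with a given line (helper571, adapted from
the file of helper71)
-/

set_option autoImplicit false

open scoped Classical

namespace Pool.Agent.H571.FHB

open Pool.Agent.H951.FH

/-- counting by the fibres of a map -/
theorem fib {α β : Type} (S : Finset α) (f : α → β) (L : Finset β) (b : ℝ)
    (hf : ∀ z ∈ S, f z ∈ L) (h : ∀ y ∈ L, ((S.filter fun z => f z = y).card : ℝ) ≤ b) :
    (S.card : ℝ) ≤ L.card * b := by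
  rw [Finset.card_eq_sum_card_fiberwise (f := f) (t := L) (fun z hz => hf z hz)]
  rw [Nat.cast_sum]
  refine (Finset.sum_le_card_nsmul _ _ _ h).trans ?_
  rw [nsmul_eq_mul]

/-- the power of `n` -/
theorem pow_bound (n τ θ : ℝ) (hn : 1 ≤ n) (h1 : τ ≤ 1) (hθ : 0 < θ) (hnθ : 1 ≤ θ * n) :
    n ^ τ ≤ n * θ ^ (1 - τ) := by
  have hn0 : 0 < n := by linarith
  have e1 : n * θ ^ (1 - τ) = n ^ τ * (θ * n) ^ (1 - τ) := by
    rw [Real.mul_rpow hθ.le hn0.le, mul_comm (θ ^ (1 - τ)) (n ^ (1 - τ)), ← mul_assoc,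
      ← Real.rpow_add hn0]
    norm_num
  rw [e1]
  exact le_mul_of_one_le_right (Real.rpow_nonneg hn0.le _) (Real.one_le_rpow hnθ (by linarith))

theorem t_XBB : S_MULTB → S_TUBEB → S_HARM → S_XBB := by
  intro hM hT hH Λ _ d n β G A D F τ θ K E hβ hG hfam hτ hτ1 hF hshd hθ hθ1 hθn hK w0 w r hr hrn
  have hn1 : (1 : ℝ) ≤ n := by exact_mod_cast hfam.pos
  have hn0 : (0 : ℝ) < n := by linarith
  have hr1 : (1 : ℝ) ≤ r := by exact_mod_cast hr
  have hr0 : (0 : ℝ) < r := by linarith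
  have hrn' : (r : ℝ) ≤ n := by exact_mod_cast hrn
  have hF0 : (0 : ℝ) ≤ F := by linarith
  have hG0 : (0 : ℝ) ≤ G := by linarith
  set T : ℝ := G * (7 * n / r) ^ β with hTd
  have hT0 : 0 ≤ T := by positivity
  set S : Finset (Λ × ℕ) := E.filter fun z => (w, z.2) ∈ E ∧ Pl D r w0 w z.1 ∧
    cel A D z.2 w = cel A D z.2 z.1 ∧ dist (D w) (D z.1) ≤ 2 * θ with hS
  set Q : ℕ := ⌊2 * θ * r⌋₊ with hQ
  have hQle : (Q : ℝ) ≤ 2 * θ * r := Nat.floor_le (by positivity)
  set f : Λ × ℕ → ℕ := fun z => ⌊(r : ℝ) * dist (D w) (D z.1)⌋₊ with hf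
  have hfQ : ∀ z ∈ S, f z ∈ Finset.range (Q + 1) := by
    intro z hz
    rw [hS, Finset.mem_filter] at hz
    rw [Finset.mem_range, Nat.lt_succ_iff]
    refine Nat.floor_le_floor ?_
    have h1 := mul_le_mul_of_nonneg_left hz.2.2.2.2 hr0.le
    linarith
  -- the number of incidences of one line
  have hinj : ∀ (q : ℕ) (w' : Λ), (((S.filter fun z => f z = q).filter fun z => z.1 = w').card : ℝ)
      ≤ ((E.filter fun z => z.1 = w ∧ cel A D z.2 w = cel A D z.2 w').card : ℝ) := by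
    intro q w'
    have h1 : ((S.filter fun z => f z = q).filter fun z => z.1 = w').card ≤
        (E.filter fun z => z.1 = w ∧ cel A D z.2 w = cel A D z.2 w').card := by
      refine Finset.card_le_card_of_injOn (fun z => (w, z.2)) ?_ ?_
      · intro z hz
        rw [Finset.mem_coe, Finset.mem_filter, Finset.mem_filter, hS, Finset.mem_filter] at hz
        obtain ⟨⟨⟨_, h2, _, h3, _⟩, _⟩, h4⟩ := hz
        rw [Finset.mem_coe, Finset.mem_filter]
        refine ⟨h2, rfl, ?_⟩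
        rw [h4] at h3
        exact h3
      · intro z hz z' hz' h
        rw [Finset.mem_coe, Finset.mem_filter] at hz hz'
        have h2 : z.2 = z'.2 := (Prod.mk.inj h).2
        exact Prod.ext (hz.2.trans hz'.2.symm) h2
    exact_mod_cast h1
  -- the lines of one class
  have hcls : ∀ (q : ℕ) (b : ℝ), 0 ≤ b → (∀ w' : Λ, (q : ℝ) ≤ r * dist (D w) (D w') →
      ((E.filter fun z => z.1 = w ∧ cel A D z.2 w = cel A D z.2 w').card : ℝ) ≤ b) →
      ((S.filter fun z => f z = q).card : ℝ) ≤ 2 * T * b := by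
    intro q b hb0 hb
    set L : Finset Λ := Finset.univ.filter fun w' => Pl D r w0 w w' ∧
      (q : ℝ) ≤ r * dist (D w) (D w') ∧ r * dist (D w) (D w') < q + 1 with hL
    have h1 : ((S.filter fun z => f z = q).card : ℝ) ≤ L.card * b := by
      refine fib _ (fun z => z.1) L b ?_ ?_
      · intro z hz
        rw [Finset.mem_filter, hS, Finset.mem_filter] at hz
        obtain ⟨⟨_, _, h2, _, _⟩, h3⟩ := hz
        rw [hL, Finset.mem_filter]
        exact ⟨Finset.mem_univ _, h2, (Nat.floor_eq_iff (by positivity)).1 h3⟩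
      · intro w' hw'
        rw [hL, Finset.mem_filter] at hw'
        exact (hinj q w').trans (hb w' hw'.2.2.1)
    have h2 : (L.card : ℝ) ≤ 2 * T := hT Λ d n β G D hfam w0 w r q hr hrn
    exact h1.trans (mul_le_mul_of_nonneg_right h2 hb0)
  -- the class of the near lines
  have hzero : ((S.filter fun z => f z = 0).card : ℝ) ≤ 2 * T * (F * (n : ℝ) ^ τ) := by
    refine hcls 0 _ (by positivity) fun w' _ => ?_
    refine le_trans ?_ (hshd.fro w 0 n hfam.pos)
    have h1 : (E.filter fun z => z.1 = w ∧ cel A D z.2 w = cel A D z.2 w').card ≤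
        (E.filter fun z => z.1 = w ∧ 0 ≤ z.2 ∧ z.2 < 0 + n).card := by
      refine Finset.card_le_card fun z hz => ?_
      rw [Finset.mem_filter] at hz ⊢
      refine ⟨hz.1, hz.2.1, Nat.zero_le _, ?_⟩
      rw [zero_add]
      exact hshd.lt z hz.1
    exact_mod_cast h1
  -- the other classes
  have hpos : ∀ q ∈ Finset.Icc 1 Q, ((S.filter fun z => f z = q).card : ℝ) ≤
      2 * T * (3 * F * ((r : ℝ) / q) ^ τ) := by
    intro q hq
    rw [Finset.mem_Icc] at hq
    have hq0 : (0 : ℝ) < q := by exact_mod_cast hq.1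
    refine hcls q _ (by positivity) fun w' hw' => ?_
    have h1 := hM Λ d n A D F τ E hfam.lo hfam.hi hτ hτ1 hF hshd w w' (q / r) (by positivity) (by
      rw [div_le_iff₀ hr0]
      linarith)
    rw [one_div_div] at h1
    exact h1
  -- the total
  have htot : (S.card : ℝ) ≤ 2 * T * (F * (n : ℝ) ^ τ) +
      ∑ q ∈ Finset.Icc 1 Q, 2 * T * (3 * F * ((r : ℝ) / q) ^ τ) := by
    rw [Finset.card_eq_sum_card_fiberwise (f := f) (t := Finset.range (Q + 1)) (fun z hz => hfQ z hz),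
      Nat.cast_sum, Finset.range_eq_Ico, Finset.sum_eq_sum_Ico_succ_bot (Nat.succ_pos Q)]
    refine add_le_add hzero ?_
    have h1 : Finset.Ico (0 + 1) (Q + 1) = Finset.Icc 1 Q := by
      ext x
      rw [Finset.mem_Ico, Finset.mem_Icc]
      omega
    rw [h1]
    exact Finset.sum_le_sum hpos
  have hlog : 1 + Real.log (2 * r) ≤ K := by
    refine le_trans ?_ hK
    have h1 : Real.log (2 * r) ≤ Real.log (2 * n) := Real.log_le_log (by positivity) (by linarith)
    linarith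
  have hK1 : 1 ≤ K := by
    have h1 : 0 ≤ Real.log (2 * n) := Real.log_nonneg (by linarith)
    linarith
  have hsum := hH r Q τ θ K hr hτ hτ1 hθ hθ1 hQle hlog
  rw [← Finset.mul_sum, ← Finset.mul_sum] at htot
  have hp := pow_bound n τ θ hn1 hτ1 hθ hθn
  have hθp : 0 ≤ θ ^ (1 - τ) := Real.rpow_nonneg hθ.le _
  set P : ℝ := (n : ℝ) * θ ^ (1 - τ) with hP
  have hP0 : 0 ≤ P := by positivity
  have h1 : (n : ℝ) ^ τ ≤ K * P := hp.trans (le_mul_of_one_le_left hP0 hK1)
  have h2 : ∑ q ∈ Finset.Icc 1 Q, ((r : ℝ) / q) ^ τ ≤ 2 * (K * P) := by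
    refine hsum.trans ?_
    have h3 : (r : ℝ) * θ ^ (1 - τ) ≤ P := mul_le_mul_of_nonneg_right hrn' hθp
    have h4 := mul_le_mul_of_nonneg_left h3 (by positivity : (0 : ℝ) ≤ 2 * K)
    calc 2 * K * r * θ ^ (1 - τ) = 2 * K * (r * θ ^ (1 - τ)) := by ring
      _ ≤ 2 * K * P := h4
      _ = 2 * (K * P) := by ring
  have hTF : 0 ≤ 2 * T * F := by positivity
  calc (S.card : ℝ) ≤ 2 * T * (F * (n : ℝ) ^ τ) +
        2 * T * (3 * F * ∑ q ∈ Finset.Icc 1 Q, ((r : ℝ) / q) ^ τ) := htot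
    _ = 2 * T * F * ((n : ℝ) ^ τ + 3 * ∑ q ∈ Finset.Icc 1 Q, ((r : ℝ) / q) ^ τ) := by ring
    _ ≤ 2 * T * F * (K * P + 3 * (2 * (K * P))) :=
        mul_le_mul_of_nonneg_left (by linarith) hTF
    _ = 14 * K * T * F * n * θ ^ (1 - τ) := by
        rw [hP]
        ring

end Pool.Agent.H571.FHB
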