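import Pool.Agent.H951.FH.Asm
import Pool.Agent.H951.FH.COV
import Pool.Agent.H951.FH.KAP
import Pool.Agent.H951.FH.FRO
import Pool.Agent.H951.FH.Stm3
import Pool.Agent.H951.FH.NUMB
import Pool.Agent.H951.FH.XBB
import Pool.Agent.H951.FH.KAPD
import Pool.Agent.H951.FH.MULTB
import Pool.Agent.H951.FH.FWB
import Pool.Agent.H951.FH.SELD
import Pool.Agent.H951.FH.TUBEB
import Pool.Agent.H951.FH.NBB
import Pool.Agent.H951.FH.SUMB
import Pool.Agent.H951.FH.FVB
import Pool.Agent.H951.FH.BIGB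
import Pool.Agent.H951.FH.FROD
import Pool.Agent.H951.FH.FDB
import Pool.Agent.H951.FH.DHB
import Pool.Agent.H951.FH.ONEB

/-!
Assembly of the Furstenberg-Kakeya theorem: sets that meet a line in every direction of a
set of directions of dimension at least `β` in dimension at least `α`.
-/

set_option autoImplicit false

namespace Pool.Agent.H951.FH

theorem dhB : S_DHB :=
  Pool.Agent.H225.FHB.t_DHB
    (Pool.Agent.H282.FH.t_STR Pool.Agent.H142.FH.t_MD)
    (Pool.Agent.H280.FHB.t_NUMB Pool.Agent.H351.FH.t_GOOD Pool.Agent.H286.FHB.t_MULTB)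
    (Pool.Agent.H443.FHB.t_BIGB Pool.Agent.H695.FH.t_CS Pool.Agent.H975.FH.t_PLANE
      (Pool.Agent.H571.FHB.t_XBB Pool.Agent.H286.FHB.t_MULTB Pool.Agent.H729.FHB.t_TUBEB
        Pool.Agent.H772.FH.t_HARM))
    Pool.Agent.H177.FHB.t_SUMB

theorem fdB : S_FDB :=
  Pool.Agent.H706.FHB.t_FDB
    (Pool.Agent.H120.FHB.t_FWB
      (Pool.Agent.H383.FHB.t_FVB Pool.Agent.H484.FH.t_COV
        (Pool.Agent.H969.FHB.t_SELD Pool.Agent.H113.FH.t_KAP Pool.Agent.H111.FHB.t_KAPD)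
        Pool.Agent.H233.FH.t_FRO Pool.Agent.H80.FHB.t_FROD
        (Pool.Agent.H632.FHB.t_ONEB dhB)
        Pool.Agent.H824.FHB.t_NBB))

end Pool.Agent.H951.FH
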