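import Pool.Agent.H951.FH.Stm

/-!
# `S_CNT`: few slopes near a point
-/

set_option autoImplicit false

open scoped Classical

namespace Pool.Agent.H307.FH

open Pool.Agent.H951.FH

theorem t_CNT : S_CNT := by
  intro Λ _ d n D hF u R hR
  obtain ⟨S, hS⟩ : ∃ S : Fin d → Finset ℤ, ∀ i, S i =
      Finset.Icc ⌊(n : ℝ) * u i - n * R⌋ ⌊(n : ℝ) * u i + n * R⌋ := ⟨_, fun _ => rfl⟩
  have hn : (0 : ℝ) ≤ n := Nat.cast_nonneg n
  have h1 : (Finset.univ.filter fun w => dist (D w) u ≤ R).card ≤ (Fintype.piFinset S).card := by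
    refine Finset.card_le_card_of_injOn (fun w i => ⌊(n : ℝ) * D w i⌋) ?_ ?_
    · intro w hw
      have hw' : dist (D w) u ≤ R := (Finset.mem_filter.1 hw).2
      refine Finset.mem_coe.2 (Fintype.mem_piFinset.2 fun i => ?_)
      rw [hS, Finset.mem_Icc]
      have h2 : |D w i - u i| ≤ R := by
        rw [← Real.dist_eq]
        exact (dist_le_pi_dist (D w) u i).trans hw'
      obtain ⟨h3, h4⟩ := abs_le.1 h2
      constructor
      · apply Int.floor_le_floor
        have := mul_le_mul_of_nonneg_left h3 hn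
        linarith
      · apply Int.floor_le_floor
        have := mul_le_mul_of_nonneg_left h4 hn
        linarith
    · intro w _ w' _ h
      exact hF.inj w w' fun i => congrFun h i
  have h2 : ((Fintype.piFinset S).card : ℝ) ≤ (2 * R * n + 2) ^ d := by
    rw [Fintype.card_piFinset, Nat.cast_prod]
    have h3 : ∀ i ∈ (Finset.univ : Finset (Fin d)), (((S i).card : ℕ) : ℝ) ≤ 2 * R * n + 2 := by
      intro i _
      rw [hS, Int.card_Icc]
      have h4 : ⌊(n : ℝ) * u i - n * R⌋ ≤ ⌊(n : ℝ) * u i + n * R⌋ := by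
        apply Int.floor_le_floor
        have := mul_nonneg hn hR
        linarith
      have h5 : ((⌊(n : ℝ) * u i + n * R⌋ + 1 - ⌊(n : ℝ) * u i - n * R⌋).toNat : ℤ) =
          ⌊(n : ℝ) * u i + n * R⌋ + 1 - ⌊(n : ℝ) * u i - n * R⌋ := Int.toNat_of_nonneg (by omega)
      have h6 : (((⌊(n : ℝ) * u i + n * R⌋ + 1 - ⌊(n : ℝ) * u i - n * R⌋).toNat : ℕ) : ℝ) =
          (⌊(n : ℝ) * u i + n * R⌋ : ℝ) + 1 - (⌊(n : ℝ) * u i - n * R⌋ : ℝ) := by
        exact_mod_cast h5
      rw [h6]
      have h7 := Int.floor_le ((n : ℝ) * u i + n * R)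
      have h8 := Int.lt_floor_add_one ((n : ℝ) * u i - n * R)
      linarith
    refine (Finset.prod_le_prod (fun i _ => Nat.cast_nonneg _) h3).trans (le_of_eq ?_)
    rw [Finset.prod_const, Finset.card_univ, Fintype.card_fin]
  exact le_trans (by exact_mod_cast h1) h2

end Pool.Agent.H307.FH
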