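import Pool.Agent.H951.FH.Stm

/-!
# DIM: dimension from covers
-/

set_option autoImplicit false
set_option maxHeartbeats 1000000

open MeasureTheory Filter Topology
open scoped Classical ENNReal NNReal

namespace Pool.Agent.H599.FH

open Pool.Agent.H951.FH

/-- the dyadic interval -/
def dy (c : ℕ × ℕ) : Set ℝ := Set.Ico ((c.2 : ℝ) / 2 ^ c.1) (((c.2 : ℝ) + 1) / 2 ^ c.1)

theorem ediam_dy (c : ℕ × ℕ) : Metric.ediam (dy c) ≤ ENNReal.ofReal (1 / 2 ^ c.1) := by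
  refine Metric.ediam_le fun x hx y hy => ?_
  rw [edist_dist]
  refine ENNReal.ofReal_le_ofReal ?_
  rw [Real.dist_eq, abs_le]
  have h1 := hx.1
  have h2 := hx.2
  have h3 := hy.1
  have h4 := hy.2
  rw [add_div] at h2 h4
  constructor <;> linarith

theorem t_DIM : S_DIM := by
  intro G Gk τ b k1 hτ hb0 hb1 hcov hC
  have hnet : ∀ k, ∃ C : Finset (ℕ × ℕ), k1 ≤ k →
      (∀ t ∈ Gk k, ∃ c ∈ C, (c.2 : ℝ) / 2 ^ c.1 ≤ t ∧ t < ((c.2 : ℝ) + 1) / 2 ^ c.1) ∧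
      ∑ c ∈ C, (1 / (2 : ℝ) ^ c.1) ^ τ ≤ b ^ k := by
    intro k
    by_cases hk : k1 ≤ k
    · obtain ⟨C, h1⟩ := hC k hk
      exact ⟨C, fun _ => h1⟩
    · exact ⟨∅, fun h => absurd h hk⟩
  choose C hP using hnet
  obtain ⟨ρ, hρ⟩ : ∃ ρ : ℝ, ρ = b ^ (1 / τ) := ⟨_, rfl⟩
  have hρ0 : 0 < ρ := by rw [hρ]; exact Real.rpow_pos_of_pos hb0 _
  have hρ1 : ρ < 1 := by rw [hρ]; exact Real.rpow_lt_one hb0.le hb1 (by positivity)
  -- the sum for one level
  have hlev : ∀ k, k1 ≤ k → ∑ c : {c // c ∈ C k}, (Metric.ediam (dy (c : ℕ × ℕ))) ^ τ ≤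
      ENNReal.ofReal (b ^ k) := by
    intro k hk
    have h1 : ∀ c : {c // c ∈ C k}, (Metric.ediam (dy (c : ℕ × ℕ))) ^ τ ≤
        ENNReal.ofReal ((1 / (2 : ℝ) ^ (c : ℕ × ℕ).1) ^ τ) := by
      intro c
      rw [← ENNReal.ofReal_rpow_of_nonneg (by positivity) hτ.le]
      exact ENNReal.rpow_le_rpow (ediam_dy _) hτ.le
    refine (Finset.sum_le_sum fun p _ => h1 p).trans ?_
    rw [← ENNReal.ofReal_sum_of_nonneg fun c _ => by positivity]
    refine ENNReal.ofReal_le_ofReal ?_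
    rw [Finset.sum_coe_sort (C k) (fun c : ℕ × ℕ => (1 / (2 : ℝ) ^ c.1) ^ τ)]
    exact (hP k hk).2
  -- the diameters
  have hdia : ∀ k, k1 ≤ k → ∀ c ∈ C k, 1 / (2 : ℝ) ^ c.1 ≤ ρ ^ k := by
    intro k hk c hc
    have h1 : (1 / (2 : ℝ) ^ c.1) ^ τ ≤ b ^ k := by
      refine le_trans ?_ (hP k hk).2
      exact Finset.single_le_sum (f := fun c : ℕ × ℕ => (1 / (2 : ℝ) ^ c.1) ^ τ)
        (fun c _ => by positivity) hc
    have h2 : (0 : ℝ) ≤ 1 / 2 ^ c.1 := by positivity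
    have h3 : ((1 / (2 : ℝ) ^ c.1) ^ τ) ^ (1 / τ) = 1 / 2 ^ c.1 := by
      rw [← Real.rpow_mul h2, mul_one_div_cancel hτ.ne', Real.rpow_one]
    have h4 : (b ^ k) ^ (1 / τ) = ρ ^ k := by
      rw [hρ, ← Real.rpow_natCast b k, ← Real.rpow_mul hb0.le, ← Real.rpow_natCast (b ^ (1 / τ)) k,
        ← Real.rpow_mul hb0.le, mul_comm]
    rw [← h3, ← h4]
    exact Real.rpow_le_rpow (by positivity) h1 (by positivity)
  have hmain : μH[((⟨τ, hτ.le⟩ : ℝ≥0) : ℝ)] G ≠ ⊤ := by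
    have h1 := Measure.hausdorffMeasure_le_liminf_tsum (X := ℝ) τ G (l := atTop)
      (fun N : ℕ => ENNReal.ofReal (ρ ^ N)) (by
        have h2 : Tendsto (fun N : ℕ => ρ ^ N) atTop (𝓝 0) :=
          tendsto_pow_atTop_nhds_zero_of_lt_one hρ0.le hρ1
        have h3 := ENNReal.tendsto_ofReal h2
        rwa [ENNReal.ofReal_zero] at h3)
      (fun (N : ℕ) (i : Σ j : ℕ, {c // c ∈ C (N + j)}) => dy (i.2 : ℕ × ℕ))
      ((eventually_ge_atTop k1).mono fun N hN i => by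
        refine (ediam_dy _).trans (ENNReal.ofReal_le_ofReal ?_)
        refine (hdia (N + i.1) (by omega) _ i.2.2).trans ?_
        exact pow_le_pow_of_le_one hρ0.le hρ1.le (by omega))
      ((eventually_ge_atTop k1).mono fun N hN t ht => by
        obtain ⟨k, hk, h2⟩ := hcov N t ht
        obtain ⟨c, hc, h3⟩ := (hP k (hN.trans hk)).1 t h2
        obtain ⟨j, rfl⟩ := Nat.exists_eq_add_of_le hk
        exact Set.mem_iUnion.2 ⟨⟨j, c, hc⟩, h3⟩)
    refine ne_top_of_le_ne_top (b := ENNReal.ofReal (1 / (1 - b))) ENNReal.ofReal_ne_top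
      (h1.trans ?_)
    refine (liminf_le_liminf (v := fun _ => ENNReal.ofReal (1 / (1 - b))) ?_).trans ?_
    · filter_upwards [eventually_ge_atTop k1] with N hN
      rw [ENNReal.tsum_sigma']
      have h2 : ∀ j : ℕ, ∑' c : {c // c ∈ C (N + j)}, (Metric.ediam (dy (c : ℕ × ℕ))) ^ τ ≤
          ENNReal.ofReal (b ^ j) := by
        intro j
        rw [tsum_fintype]
        refine (hlev (N + j) (by omega)).trans (ENNReal.ofReal_le_ofReal ?_)
        exact pow_le_pow_of_le_one hb0.le hb1.le (by omega)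
      refine (ENNReal.tsum_le_tsum h2).trans ?_
      rw [← ENNReal.ofReal_tsum_of_nonneg (fun j => by positivity)
        (summable_geometric_of_lt_one hb0.le hb1),
        tsum_geometric_of_lt_one hb0.le hb1, one_div]
    · rw [liminf_const]
  have h2 := dimH_le_of_hausdorffMeasure_ne_top hmain
  refine h2.trans (le_of_eq ?_)
  rw [ENNReal.ofReal, Real.toNNReal_of_nonneg hτ.le]
  rfl

end Pool.Agent.H599.FH
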