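import Pool.Agent.H951.FH.Stm

/-!
# Project FH, part 2: Furstenberg-type sets with lines in many directions
-/

set_option autoImplicit false

open MeasureTheory
open scoped Classical ENNReal NNReal

namespace Pool.Agent.H951.FH

/-- The dyadic intervals `[p / 2^l, (p+1) / 2^l)`, `(l, p) ∈ C`, cover `T`. -/
def Cv (C : Finset (ℕ × ℕ)) (T : Set ℝ) : Prop :=
  ∀ t ∈ T, ∃ c ∈ C, (c.2 : ℝ) / 2 ^ c.1 ≤ t ∧ t < ((c.2 : ℝ) + 1) / 2 ^ c.1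

/-- the sum of the powers of the lengths -/
noncomputable def Sm (τ : ℝ) (C : Finset (ℕ × ℕ)) : ℝ := ∑ c ∈ C, (1 / (2 : ℝ) ^ c.1) ^ τ

/-- COV: covers of a set of small dimension by cubes. -/
def S_COV : Prop := ∀ (m : ℕ) (A : Set (Fin m → ℝ)) (α : ℝ) (k0 : ℕ), 0 ≤ α →
  dimH A < ENNReal.ofReal α → ∃ Q : ℕ → Finset (Fin m → ℤ),
    (∀ k, ((Q k).card : ℝ) ≤ (2 : ℝ) ^ (α * (k + 1))) ∧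
    ∀ x ∈ A, ∃ k, k0 ≤ k ∧ ∃ q ∈ Q k, ∀ i, |(2 : ℝ) ^ k * x i - q i| < 3

/-- KAP: a set of large dimension has positive content. -/
def S_KAP : Prop := ∀ (T : Set ℝ) (τ : ℝ), T ⊆ Set.Ico 0 1 → 0 < τ →
  ENNReal.ofReal τ < dimH T → ∃ κ : ℝ, 0 < κ ∧ ∀ C : ℕ → Finset (ℕ × ℕ),
    (∀ t ∈ T, ∃ k, Cv (C k) {t}) → ∀ a : ℕ → ℝ, Summable a → (∀ k, Sm τ (C k) ≤ a k) →
      κ ≤ ∑' k, a k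

/-- SEL: selection of a level. -/
def S_SEL : Prop := ∀ (d : ℕ) (V : Set (Fin d → ℝ)) (T : (Fin d → ℝ) → Set ℝ) (τ b ρ : ℝ),
  0 < τ → 0 < b → b < 1 → 0 < ρ → ρ < 1 → volume V ≠ 0 →
  (∀ v ∈ V, T v ⊆ Set.Ico 0 1 ∧ ENNReal.ofReal τ < dimH (T v)) →
  ∃ (x : ℝ) (k1 : ℕ), 0 < x ∧ ∀ k0, k1 ≤ k0 → ∀ U : (Fin d → ℝ) → ℕ → Set ℝ,
    (∀ v ∈ V, ∀ t ∈ T v, ∃ k, k0 ≤ k ∧ t ∈ U v k) →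
    ∃ k, k0 ≤ k ∧ ENNReal.ofReal (x * ρ ^ k) ≤
      volume {v | v ∈ V ∧ ∀ C : Finset (ℕ × ℕ), Cv C (T v ∩ U v k) → b ^ k < Sm τ C}

/-- ONE: the inequality at one scale. -/
def S_ONE : Prop := ∀ (d k r : ℕ) (W : Set (Fin d → ℝ)) (B : (Fin d → ℝ) → Fin d → ℝ)
  (P : (Fin d → ℝ) → Finset ℝ) (Q : Finset (Fin (d + 1) → ℤ)) (x σ τ : ℝ), 1 ≤ d → 0 < τ →
  τ ≤ 1 → 0 < x → 0 < σ → ENNReal.ofReal x ≤ volume W → (∀ v ∈ W, ∀ i, 0 ≤ v i ∧ v i ≤ 1) →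
  (∀ v ∈ W, (P v : Set ℝ) ⊆ Set.Ico 0 1 ∧ σ ≤ (P v).card ∧
    (∀ l ≤ k, ∀ p : ℕ, (((P v).filter fun t => (p : ℝ) / 2 ^ l ≤ t ∧
      t < ((p : ℝ) + 1) / 2 ^ l).card : ℝ) ≤ ((2 : ℝ) ^ (k - l)) ^ τ) ∧
    ∀ t ∈ P v, ∃ q ∈ Q, |(2 : ℝ) ^ k * t - q 0| < 3 ∧
      ∀ i : Fin d, |(2 : ℝ) ^ k * (B v i + t * v i) - q i.succ| < 3) →
  1 ≤ r → r ≤ 2 ^ k → 3 * (2 * r : ℝ) ^ τ ≤ σ / (64 * ((k : ℝ) + 1) ^ 3) →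
  x ^ 2 * σ ^ 4 * (r : ℝ) ^ d ≤ 1800000000 * 96 ^ d * 64 ^ (d + 1) * ((k : ℝ) + 1) ^ 11 *
    (2 : ℝ) ^ k * (Q.card : ℝ) ^ 2

/-- NB: the numbers. -/
def S_NB : Prop := ∀ (d : ℕ) (τ s : ℝ), 1 ≤ d → 0 < τ → τ ≤ 1 → 0 ≤ s →
  s < 2 * τ + ((d : ℝ) - 1) / 2 → ∃ ρ b : ℝ, 0 < ρ ∧ ρ < 1 ∧ 0 < b ∧ b < 1 ∧
    ∀ x C : ℝ, 0 < x → 0 < C → ∃ k1 : ℕ, ∀ k, k1 ≤ k → ∃ r : ℕ, 1 ≤ r ∧ r ≤ 2 ^ k ∧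
      3 * (2 * r : ℝ) ^ τ ≤ (b ^ k * ((2 : ℝ) ^ k) ^ τ / 2) / (64 * ((k : ℝ) + 1) ^ 3) ∧
      C * ((k : ℝ) + 1) ^ 11 * (2 : ℝ) ^ k * ((2 : ℝ) ^ (s * (k + 1))) ^ 2 <
        (x * ρ ^ k) ^ 2 * (b ^ k * ((2 : ℝ) ^ k) ^ τ / 2) ^ 4 * (r : ℝ) ^ d

/-- FV: the theorem for slopes in the unit cube and heights in the unit interval. -/
def S_FV : Prop := ∀ (d : ℕ) (K : Set (Fin (d + 1) → ℝ)) (V : Set (Fin d → ℝ))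
  (B : (Fin d → ℝ) → Fin d → ℝ) (τ : ℝ), 1 ≤ d → 0 < τ → τ ≤ 1 →
  (∀ v ∈ V, ∀ i, 0 ≤ v i ∧ v i ≤ 1) → volume V ≠ 0 →
  (∀ v ∈ V, ENNReal.ofReal τ < dimH {t : ℝ | t ∈ Set.Ico (0 : ℝ) 1 ∧
    (Fin.cons t (fun i => B v i + t * v i) : Fin (d + 1) → ℝ) ∈ K}) →
  ENNReal.ofReal (2 * τ + ((d : ℝ) - 1) / 2) ≤ dimH K

/-- FW: the theorem for all slopes and heights. -/
def S_FW : Prop := ∀ (d : ℕ) (K : Set (Fin (d + 1) → ℝ)) (V : Set (Fin d → ℝ))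
  (B : (Fin d → ℝ) → Fin d → ℝ) (τ : ℝ), 1 ≤ d → 0 < τ → τ ≤ 1 → volume V ≠ 0 →
  (∀ v ∈ V, ENNReal.ofReal τ < dimH {t : ℝ |
    (Fin.cons t (fun i => B v i + t * v i) : Fin (d + 1) → ℝ) ∈ K}) →
  ENNReal.ofReal (2 * τ + ((d : ℝ) - 1) / 2) ≤ dimH K

/-- FD: the theorem for directions. -/
def S_FD : Prop := ∀ (d : ℕ) (K N : Set (EuclideanSpace ℝ (Fin (d + 1)))) (α : ℝ), 1 ≤ d →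
  0 < α → volume N ≠ 0 →
  (∀ e ∈ N, ∃ a : EuclideanSpace ℝ (Fin (d + 1)),
    ENNReal.ofReal α ≤ dimH (K ∩ {x | ∃ r : ℝ, x = a + r • e})) →
  ENNReal.ofReal (2 * α + ((d : ℝ) - 1) / 2) ≤ dimH K

end Pool.Agent.H951.FH
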