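import Pool.Agent.H951.FH.Stm2

/-!
# Project FH, part 4: numbers for the exceptional slices
-/

set_option autoImplicit false

namespace Pool.Agent.H951.FH

/-- NA: the numbers for the exceptional slices. -/
def S_NA : Prop := ∀ (d : ℕ) (τ α : ℝ), 1 ≤ d → 0 < τ → τ ≤ 1 → 0 ≤ α →
  α < τ + ((d : ℝ) - 1) / 2 → ∃ ρ b : ℝ, 0 < ρ ∧ ρ < 1 ∧ 0 < b ∧ b < 1 ∧
    ∀ x M C : ℝ, 0 < x → 0 < M → 0 < C → ∃ k1 : ℕ, ∀ k, k1 ≤ k → ∃ r : ℕ, 1 ≤ r ∧ r ≤ 2 ^ k ∧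
      3 * (2 * r : ℝ) ^ τ ≤ (b ^ k * ((2 : ℝ) ^ k) ^ τ / 4) * (x * ρ ^ k) /
        (4 ^ d * M * (64 * ((k : ℝ) + 1) ^ 3)) ∧
      C * ((k : ℝ) + 1) ^ 11 * M ^ 4 * (2 : ℝ) ^ k * ((2 : ℝ) ^ (α * (k + 1))) ^ 2 <
        (b ^ k * ((2 : ℝ) ^ k) ^ τ / 4) ^ 2 * (x * ρ ^ k) ^ 4 * (r : ℝ) ^ d

end Pool.Agent.H951.FH
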